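import Pool.Agent.H44.Rat.Line

/-!
# Ratio asymptotics for symmetric measures on the circle
-/

open MeasureTheory Polynomial Complex Filter Topology Real Set
open scoped ComplexConjugate ENNReal

namespace H44.Rat

lemma m_null_iff (A : Set T) : m A = 0 ↔ (volume : Measure T) A = 0 := by
  rw [AddCircle.volume_eq_smul_haarAddCircle]
  simp [Real.pi_pos]

lemma m_singleton (θ : T) : m {θ} = 0 := by
  rw [m_null_iff, ← Metric.closedBall_zero, AddCircle.volume_closedBall]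
  simp [Real.two_pi_pos.le]

instance : NullSingletonClass m := ⟨m_singleton⟩

lemma z_inj : Function.Injective z := by
  intro x y h
  apply AddCircle.injective_toCircle (T := 2 * π) Real.two_pi_pos.ne'
  exact Subtype.ext h

lemma nd_of_ac {μ : Measure T} {G : Set T} (hac : m.restrict G ≪ μ)
    (hpos : 0 < m.real G) : ND μ := by
  intro P hP
  by_contra hne
  have h1 : ∀ᵐ θ ∂(m.restrict G), P.eval (z θ) = 0 := hac.ae_le hP
  have hfin : {θ : T | P.eval (z θ) = 0}.Finite := by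
    refine Set.Finite.of_finite_image (f := z) ?_ z_inj.injOn
    refine (P.roots.toFinset.finite_toSet).subset ?_
    rintro _ ⟨θ, hθ, rfl⟩
    simpa [hne] using hθ
  have h2 : m {θ : T | P.eval (z θ) = 0} = 0 := hfin.countable.measure_zero m
  have h3 : ∀ᵐ θ ∂(m.restrict G), P.eval (z θ) ≠ 0 :=
    ae_restrict_of_ae (measure_eq_zero_iff_ae_notMem.1 h2)
  have h4 : ∀ᵐ θ ∂(m.restrict G), False := by
    filter_upwards [h1, h3] with θ h h' using h' h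
  rw [ae_iff] at h4
  simp only [not_false_eq_true, Set.ofPred_true, Measure.restrict_apply_univ] at h4
  rw [measureReal_def, h4] at hpos
  simp at hpos

lemma Cp_pos {p : ℝ} (hp : 2 ≤ p) : 0 < Cp p := by
  have hp0 : 0 < p := by linarith
  have hc : Continuous fun θ => ‖1 + z θ‖ ^ p := continuous_rp hp0.le (by fun_prop)
  have h0 : 0 ≤ Cp p := integral_nonneg fun θ => by positivity
  refine lt_of_le_of_ne h0 fun h => ?_
  have h1 := (integral_eq_zero_iff_of_nonneg (fun θ => by positivity) (cint hc)).1 h.symm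
  have h2 : ND m := nd_of_ac (G := univ) (by rw [Measure.restrict_univ]) (by simp)
  have h3 := h2 (1 + X) (by
    filter_upwards [h1] with θ hθ
    simp only [Pi.zero_apply] at hθ
    have := ((Real.rpow_eq_zero_iff_of_nonneg (norm_nonneg _)).1 hθ).1
    rw [norm_eq_zero] at this
    simpa using this)
  have h4 := congrArg (Polynomial.eval 0) h3
  simp at h4

/-- Choice of the small parameter. -/
lemma choose_c {p : ℝ} (hp : 2 ≤ p) {ε : ℝ} (hε : 0 < ε) :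
    ∃ c : ℝ, 0 < c ∧ c ≤ 1 / 4 ∧
      0 < Cp p - (2 ^ p * (4 * c ^ 2) + p * (c * (16 ^ p + 2))) ∧
      (Cp p + 2 ^ p * (4 * c ^ 2)) ^ (1 / p) /
        (Cp p - (2 ^ p * (4 * c ^ 2) + p * (c * (16 ^ p + 2)))) ^ (1 / p) < 1 + ε ∧
      1 - ε < (Cp p - (2 ^ p * (4 * c ^ 2) + p * (c * (16 ^ p + 2)))) ^ (1 / p) /
        (Cp p + 2 ^ p * (4 * c ^ 2)) ^ (1 / p) * (1 - 4 * c ^ 2) ^ 2 := by
  have hC := Cp_pos hp
  have hp0 : 0 < p := by linarith
  set f : ℝ → ℝ := fun c => Cp p - (2 ^ p * (4 * c ^ 2) + p * (c * (16 ^ p + 2))) with hf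
  set g : ℝ → ℝ := fun c => Cp p + 2 ^ p * (4 * c ^ 2) with hg
  have hfc : Continuous f := by fun_prop
  have hgc : Continuous g := by fun_prop
  have hf0 : f 0 = Cp p := by simp [hf]
  have hg0 : g 0 = Cp p := by simp [hg]
  have tf : Tendsto f (𝓝[>] 0) (𝓝 (Cp p)) := by
    rw [← hf0]; exact hfc.continuousAt.tendsto.mono_left nhdsWithin_le_nhds
  have tg : Tendsto g (𝓝[>] 0) (𝓝 (Cp p)) := by
    rw [← hg0]; exact hgc.continuousAt.tendsto.mono_left nhdsWithin_le_nhds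
  have tf' : Tendsto (fun c => f c ^ (1 / p)) (𝓝[>] 0) (𝓝 (Cp p ^ (1 / p))) :=
    tf.rpow_const (Or.inl hC.ne')
  have tg' : Tendsto (fun c => g c ^ (1 / p)) (𝓝[>] 0) (𝓝 (Cp p ^ (1 / p))) :=
    tg.rpow_const (Or.inl hC.ne')
  have hCp : Cp p ^ (1 / p) ≠ 0 := (Real.rpow_pos_of_pos hC _).ne'
  have t1 : Tendsto (fun c => g c ^ (1 / p) / f c ^ (1 / p)) (𝓝[>] 0) (𝓝 1) := by
    have := tg'.div tf' hCp
    rwa [div_self hCp] at this
  have t2 : Tendsto (fun c => f c ^ (1 / p) / g c ^ (1 / p) * (1 - 4 * c ^ 2) ^ 2) (𝓝[>] 0)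
      (𝓝 1) := by
    have h1 := tf'.div tg' hCp
    rw [div_self hCp] at h1
    have h2 : Tendsto (fun c : ℝ => (1 - 4 * c ^ 2) ^ 2) (𝓝[>] 0) (𝓝 1) := by
      have hc : Continuous fun c : ℝ => (1 - 4 * c ^ 2) ^ 2 := by fun_prop
      have := hc.continuousAt.tendsto.mono_left (nhdsWithin_le_nhds (s := Ioi (0 : ℝ)) (a := 0))
      simpa using this
    simpa using h1.mul h2
  have e1 : ∀ᶠ c : ℝ in 𝓝[>] 0, 0 < c := self_mem_nhdsWithin
  have e2 : ∀ᶠ c : ℝ in 𝓝[>] 0, c ≤ 1 / 4 := by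
    have : ∀ᶠ c : ℝ in 𝓝 0, c < 1 / 4 := eventually_lt_nhds (by norm_num)
    filter_upwards [this.filter_mono nhdsWithin_le_nhds] with c hc using hc.le
  have e3 : ∀ᶠ c : ℝ in 𝓝[>] 0, 0 < f c := tf.eventually (eventually_gt_nhds hC)
  have e4 := t1.eventually (eventually_lt_nhds (show (1 : ℝ) < 1 + ε by linarith))
  have e5 := t2.eventually (eventually_gt_nhds (show 1 - ε < (1 : ℝ) by linarith))
  obtain ⟨c, h1, h2, h3, h4, h5⟩ := (e1.and (e2.and (e3.and (e4.and e5)))).exists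
  exact ⟨c, h1, h2, h3, h4, h5⟩

/-- Ratio asymptotics on the circle side, with uniform constants. -/
theorem sym_ratio {p : ℝ} (hp : 2 ≤ p) {ε : ℝ} (hε : 0 < ε) :
    ∃ κ : ℝ, 0 < κ ∧ ∀ (μ : Measure T) [IsFiniteMeasure μ],
      Measure.map (fun θ => -θ) μ = μ → ∀ G : Set T, MeasurableSet G →
      m.restrict G ≪ μ → (1 + p / 4) * (1 - m.real G) < κ ^ 2 →
      ∀ᶠ n : ℕ in atTop, 0 < Yn μ p n ∧
        |2 * (Yn μ p (n + 1)) ^ (1 / p) / (Yn μ p n) ^ (1 / p) - 1| ≤ ε := by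
  obtain ⟨c, hc0, hc1, hc2, hc3, hc4⟩ := choose_c hp hε
  have hp0 : 0 < p := by linarith
  refine ⟨c ^ 2, by positivity, ?_⟩
  intro μ _ hsym G hG hac hδ
  have hG1 : m.real G ≤ 1 := real_le_one G
  have hc4' : c ^ 2 ≤ 1 / 16 := by nlinarith
  have hκ1 : (c ^ 2) ^ 2 ≤ c ^ 2 := by nlinarith [sq_nonneg c]
  have hδ' : 1 - m.real G ≤ c ^ 2 := by
    have : 1 - m.real G ≤ (1 + p / 4) * (1 - m.real G) := by nlinarith
    linarith
  have hGpos : 0 < m.real G := by linarith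
  have hμ : ND μ := nd_of_ac hac hGpos
  obtain ⟨N, hN⟩ := tv_close hp hac (κ := c ^ 2) (by positivity) hδ
  choose Q hQ using fun n => exists_ext μ hp n
  have hDD : ∀ n ≥ N, DD μ p G (fun θ => ‖(Q n).eval (z θ)‖ / (en μ p (Q n)) ^ (1 / p)) ≤
      4 * c ^ 2 := by
    intro n hn
    have h1 := hN n hn _ ((hQ n).good hp hμ)
    unfold DD
    linarith
  set E : ℕ → ℝ := fun n => en μ p (Q n) ^ (1 / p) with hE
  have hepos : ∀ n, 0 < en μ p (Q n) := fun n => en_pos hp hμ (hQ n).ne_zero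
  have hEpos : ∀ n, 0 < E n := fun n => Real.rpow_pos_of_pos (hepos n) _
  have hEstep : ∀ n ≥ N, (1 - 4 * c ^ 2) * E n ≤ E (n + 1) ∧ E (n + 1) ≤ E n := by
    intro n hn
    obtain ⟨h1, h2⟩ := circ_ratio hp hμ hG hac (hQ n) (hQ (n + 1))
    refine ⟨le_trans ?_ h1, Real.rpow_le_rpow (hepos _).le h2 (by positivity)⟩
    apply mul_le_mul_of_nonneg_right _ (hEpos n).le
    linarith [hDD n hn]
  set f := Cp p - (2 ^ p * (4 * c ^ 2) + p * (c * (16 ^ p + 2))) with hf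
  set g := Cp p + 2 ^ p * (4 * c ^ 2) with hg
  have hg0 : 0 < g := by have := Cp_pos hp; positivity
  -- the sandwich
  have hS : ∀ k : ℕ, N ≤ 2 * k + 1 → 0 < Yn μ p (k + 1) ∧
      E (2 * k + 1) * f ^ (1 / p) ≤ 2 ^ (k + 1) * Yn μ p (k + 1) ^ (1 / p) ∧
      2 ^ (k + 1) * Yn μ p (k + 1) ^ (1 / p) ≤ E (2 * k + 1) * g ^ (1 / p) := by
    intro k hk
    obtain ⟨h1, h2⟩ := sandwich hp hμ hsym hG hac (hQ (2 * k + 1)) hc0 (hDD _ hk)
    have hpos : (0 : ℝ) < (2 ^ (k + 1)) ^ p := by positivity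
    have hY : 0 < Yn μ p (k + 1) := by
      have h3 : 0 < (2 ^ (k + 1)) ^ p * Yn μ p (k + 1) :=
        lt_of_lt_of_le (mul_pos (hepos _) hc2) h1
      exact (pos_iff_pos_of_mul_pos h3).1 hpos
    have h4 : ((2 ^ (k + 1)) ^ p * Yn μ p (k + 1)) ^ (1 / p) =
        2 ^ (k + 1) * Yn μ p (k + 1) ^ (1 / p) := by
      rw [Real.mul_rpow hpos.le hY.le, ← Real.rpow_mul (by positivity), mul_one_div_cancel hp0.ne',
        Real.rpow_one]
    refine ⟨hY, ?_, ?_⟩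
    · rw [← h4, hE]
      simp only
      rw [← Real.mul_rpow (hepos _).le hc2.le]
      exact Real.rpow_le_rpow (mul_pos (hepos _) hc2).le h1 (by positivity)
    · rw [← h4, hE]
      simp only
      rw [← Real.mul_rpow (hepos _).le hg0.le]
      exact Real.rpow_le_rpow (by positivity) h2 (by positivity)
  filter_upwards [eventually_ge_atTop (N + 1)] with n hn
  obtain ⟨k, rfl⟩ : ∃ k, n = k + 1 := ⟨n - 1, by omega⟩
  obtain ⟨hY1, hl1, hu1⟩ := hS k (by omega)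
  obtain ⟨hY2, hl2, hu2⟩ := hS (k + 1) (by omega)
  refine ⟨hY1, ?_⟩
  set y1 := Yn μ p (k + 1) ^ (1 / p) with hy1
  set y2 := Yn μ p (k + 1 + 1) ^ (1 / p) with hy2
  have hy1p : 0 < y1 := Real.rpow_pos_of_pos hY1 _
  have hy2p : 0 < y2 := Real.rpow_pos_of_pos hY2 _
  have hfp : 0 < f ^ (1 / p) := Real.rpow_pos_of_pos hc2 _
  have hgp : 0 < g ^ (1 / p) := Real.rpow_pos_of_pos hg0 _
  obtain ⟨s1, s2⟩ := hEstep (2 * k + 1) (by omega)
  obtain ⟨s3, s4⟩ := hEstep (2 * k + 1 + 1) (by omega)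
  have hidx : 2 * (k + 1) + 1 = 2 * k + 1 + 1 + 1 := by ring
  rw [hidx] at hl2 hu2
  set E1 := E (2 * k + 1) with hE1
  set E3 := E (2 * k + 1 + 1 + 1) with hE3
  have hE1p : 0 < E1 := hEpos _
  have hE3p : 0 < E3 := hEpos _
  have hq : 0 ≤ 1 - 4 * c ^ 2 := by nlinarith
  have hE31 : E3 ≤ E1 := s4.trans s2
  have hE31' : (1 - 4 * c ^ 2) ^ 2 * E1 ≤ E3 := by
    calc (1 - 4 * c ^ 2) ^ 2 * E1 = (1 - 4 * c ^ 2) * ((1 - 4 * c ^ 2) * E1) := by ring
      _ ≤ (1 - 4 * c ^ 2) * E (2 * k + 1 + 1) := mul_le_mul_of_nonneg_left s1 hq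
      _ ≤ E3 := s3
  have h2k : (0 : ℝ) < 2 ^ (k + 1) := by positivity
  have hx : 2 * y2 / y1 = (2 ^ (k + 1 + 1) * y2) / (2 ^ (k + 1) * y1) := by
    rw [pow_succ (2 : ℝ) (k + 1)]
    field_simp
  have hX1 : 0 < 2 ^ (k + 1) * y1 := by positivity
  have hup : 2 * y2 / y1 ≤ 1 + ε := by
    rw [hx]
    calc (2 ^ (k + 1 + 1) * y2) / (2 ^ (k + 1) * y1) ≤ (E3 * g ^ (1 / p)) / (E1 * f ^ (1 / p)) :=
          div_le_div₀ (by positivity) hu2 (by positivity) hl1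
      _ ≤ (E1 * g ^ (1 / p)) / (E1 * f ^ (1 / p)) :=
          div_le_div_of_nonneg_right (mul_le_mul_of_nonneg_right hE31 hgp.le) (by positivity)
      _ = g ^ (1 / p) / f ^ (1 / p) := by field_simp
      _ ≤ 1 + ε := hc3.le
  have hlow : 1 - ε ≤ 2 * y2 / y1 := by
    rw [hx]
    calc 1 - ε ≤ f ^ (1 / p) / g ^ (1 / p) * (1 - 4 * c ^ 2) ^ 2 := hc4.le
      _ = ((1 - 4 * c ^ 2) ^ 2 * E1 * f ^ (1 / p)) / (E1 * g ^ (1 / p)) := by field_simp
      _ ≤ (E3 * f ^ (1 / p)) / (E1 * g ^ (1 / p)) :=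
          div_le_div_of_nonneg_right (mul_le_mul_of_nonneg_right hE31' hfp.le) (by positivity)
      _ ≤ _ := div_le_div₀ (by positivity) hl2 hX1 hu1
  rw [abs_le]
  constructor <;> linarith

end H44.Rat
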