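import Mathlib

/-!
# The unit circle: mean values and trigonometric approximation
-/

open MeasureTheory Polynomial Complex Filter Topology Real Set
open scoped ComplexConjugate

namespace H44.Rat

instance factTwoPi : Fact (0 < 2 * π) := ⟨Real.two_pi_pos⟩

/-- The circle `ℝ / 2πℤ`. -/
abbrev T := AddCircle (2 * π)

/-- Normalised Lebesgue measure on the circle. -/
noncomputable abbrev m : Measure T := AddCircle.haarAddCircle

/-- The coordinate `e^{iθ}`. -/
noncomputable def z (θ : T) : ℂ := (AddCircle.toCircle θ : ℂ)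

lemma z_norm (θ : T) : ‖z θ‖ = 1 := by simp [z]

@[fun_prop]
lemma continuous_z : Continuous z := by
  unfold z
  exact continuous_subtype_val.comp AddCircle.continuous_toCircle

lemma z_coe (x : ℝ) : z (x : T) = circleMap 0 1 x := by
  simp only [z, AddCircle.toCircle, Function.Periodic.lift_coe, Circle.coe_exp, circleMap]
  simp

lemma z_neg (θ : T) : z (-θ) = conj (z θ) := by
  simp only [z, AddCircle.toCircle_neg, Circle.coe_inv_eq_conj]

lemma z_mul_conj (θ : T) : z θ * conj (z θ) = 1 := by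
  rw [Complex.mul_conj, Complex.normSq_eq_norm_sq, z_norm]; simp

lemma conj_mul_z (θ : T) : conj (z θ) * z θ = 1 := by
  rw [mul_comm, z_mul_conj]

lemma z_ne_zero (θ : T) : z θ ≠ 0 := by
  intro h
  have := z_norm θ
  rw [h] at this
  simp at this

lemma z_surj {w : ℂ} (hw : ‖w‖ = 1) : ∃ θ : T, z θ = w := by
  refine ⟨((arg w : ℝ) : T), ?_⟩
  rw [z_coe, circleMap]
  have := Complex.norm_mul_exp_arg_mul_I w
  rw [hw] at this
  simpa using this

lemma integral_m {E : Type*} [NormedAddCommGroup E] [NormedSpace ℝ E] (F : ℂ → E) :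
    ∫ θ, F (z θ) ∂m = Real.circleAverage F 0 1 := by
  rw [AddCircle.integral_haarAddCircle, Real.circleAverage_def,
    ← AddCircle.intervalIntegral_preimage (2 * π) 0, zero_add]
  simp only [z_coe]

/-- The mean value property on the closed disc. -/
lemma mean_value {F : ℂ → ℂ} (hF : ∀ w : ℂ, ‖w‖ ≤ 1 → DifferentiableAt ℂ F w) :
    ∫ θ, F (z θ) ∂m = F 0 := by
  rw [integral_m]
  apply DiffContOnCl.circleAverage
  rw [abs_one]
  apply DifferentiableOn.diffContOnCl
  intro w hw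
  rw [closure_ball _ one_ne_zero, mem_closedBall_zero_iff] at hw
  exact (hF w hw).differentiableWithinAt

/-- Uniform approximation on the circle by `A + conj B`, polynomials `A`, `B`, `B(0) = 0`. -/
lemma approx_T (ψ : C(T, ℂ)) {ε : ℝ} (hε : 0 < ε) :
    ∃ A B : ℂ[X], ∀ θ, ‖ψ θ - (A.eval (z θ) + conj ((X * B).eval (z θ)))‖ ≤ ε := by
  have h1 : ψ ∈ (Submodule.span ℂ (range <| @fourier (2 * π))).topologicalClosure := by
    rw [span_fourier_closure_eq_top]; trivial
  have h2 : ψ ∈ closure ((Submodule.span ℂ (range <| @fourier (2 * π)) :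
      Submodule ℂ C(T, ℂ)) : Set C(T, ℂ)) := by
    rw [← Submodule.topologicalClosure_coe]; exact h1
  obtain ⟨φ, hφ, hd⟩ := Metric.mem_closure_iff.1 h2 ε hε
  have h3 : ∃ A B : ℂ[X], ∀ θ, φ θ = A.eval (z θ) + conj ((X * B).eval (z θ)) := by
    refine Submodule.span_induction (p := fun φ _ => ∃ A B : ℂ[X], ∀ θ,
      φ θ = A.eval (z θ) + conj ((X * B).eval (z θ))) ?_ ?_ ?_ ?_ hφ
    · rintro _ ⟨k, rfl⟩
      have hz : ∀ (n : ℕ) (θ : T), (fourier (n : ℤ) θ : ℂ) = z θ ^ n := by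
        intro n θ
        rw [fourier_apply, z, AddCircle.toCircle_zsmul]
        simp
      rcases Int.eq_nat_or_neg k with ⟨n, rfl | rfl⟩
      · exact ⟨X ^ n, 0, fun θ => by simp [hz]⟩
      · rcases n with _ | n
        · exact ⟨1, 0, fun θ => by simp⟩
        · refine ⟨0, X ^ n, fun θ => ?_⟩
          rw [fourier_neg, hz]
          simp [pow_succ]
          ring
    · exact ⟨0, 0, fun θ => by simp⟩
    · rintro f g _ _ ⟨A, B, h⟩ ⟨A', B', h'⟩
      refine ⟨A + A', B + B', fun θ => ?_⟩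
      simp only [ContinuousMap.add_apply, h, h', eval_add, eval_mul, map_add, map_mul]
      ring
    · rintro c f _ ⟨A, B, h⟩
      refine ⟨C c * A, C (conj c) * B, fun θ => ?_⟩
      simp only [ContinuousMap.smul_apply, h, eval_mul, map_mul, eval_C, smul_eq_mul,
        Complex.conj_conj]
      ring
  obtain ⟨A, B, h⟩ := h3
  refine ⟨A, B, fun θ => ?_⟩
  rw [← h θ, ← dist_eq_norm]
  exact (ContinuousMap.dist_apply_le_dist θ).trans hd.le

/-- The same for a function on the unit circle in `ℂ`. -/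
lemma approx_C (g : ℂ → ℂ) (hg : Continuous g) {ε : ℝ} (hε : 0 < ε) :
    ∃ A B : ℂ[X], ∀ w : ℂ, ‖w‖ = 1 → ‖g w - (A.eval w + conj ((X * B).eval w))‖ ≤ ε := by
  obtain ⟨A, B, h⟩ := approx_T ⟨fun θ => g (z θ), hg.comp continuous_z⟩ hε
  refine ⟨A, B, fun w hw => ?_⟩
  obtain ⟨θ, rfl⟩ := z_surj hw
  exact h θ

/-- Reversed polynomial `z^n conj(Q(1/conj z))`. -/
noncomputable def rev (n : ℕ) (Q : ℂ[X]) : ℂ[X] := (Q.map (starRingEnd ℂ)).reflect n

lemma natDegree_rev_le {n : ℕ} {Q : ℂ[X]} (hQ : Q.natDegree ≤ n) : (rev n Q).natDegree ≤ n := by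
  unfold rev
  refine (Polynomial.natDegree_le_iff_coeff_eq_zero).2 fun k hk => ?_
  rw [Polynomial.coeff_reflect, Polynomial.revAt_eq_self_of_lt hk, Polynomial.coeff_map,
    Polynomial.coeff_eq_zero_of_natDegree_lt (lt_of_le_of_lt hQ hk)]
  simp

lemma coeff_rev {n k : ℕ} (Q : ℂ[X]) (hk : k ≤ n) :
    (rev n Q).coeff k = conj (Q.coeff (n - k)) := by
  unfold rev
  rw [Polynomial.coeff_reflect, Polynomial.revAt_le hk, Polynomial.coeff_map]

lemma eval_conj_map (Q : ℂ[X]) (w : ℂ) :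
    (Q.map (starRingEnd ℂ)).eval w = conj (Q.eval (conj w)) := by
  rw [Polynomial.eval_map, Polynomial.eval, Polynomial.hom_eval₂]
  simp

lemma eval_rev {n : ℕ} {Q : ℂ[X]} (hQ : Q.natDegree ≤ n) {w : ℂ} (hw : w ≠ 0) :
    (rev n Q).eval w = w ^ n * conj (Q.eval (conj w⁻¹)) := by
  have hQ' : (Q.map (starRingEnd ℂ)).natDegree ≤ n := (Polynomial.natDegree_map_le).trans hQ
  let _ : Invertible (w⁻¹) := invertibleOfNonzero (inv_ne_zero hw)
  have h := Polynomial.eval₂_reflect_mul_pow (RingHom.id ℂ) (w⁻¹) n (Q.map (starRingEnd ℂ)) hQ'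
  rw [invOf_eq_inv, inv_inv, inv_pow] at h
  change (rev n Q).eval w * (w ^ n)⁻¹ = (Q.map (starRingEnd ℂ)).eval w⁻¹ at h
  rw [eval_conj_map] at h
  rw [← h]
  field_simp

lemma eval_rev_z {n : ℕ} {Q : ℂ[X]} (hQ : Q.natDegree ≤ n) (θ : T) :
    (rev n Q).eval (z θ) = z θ ^ n * conj (Q.eval (z θ)) := by
  rw [eval_rev hQ (z_ne_zero θ)]
  congr 3
  have := z_mul_conj θ
  rw [← eq_inv_of_mul_eq_one_right this]
  simp

end H44.Rat
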