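import Pool.Agent.H44.Rat.TV

/-!
# The function `u = z Q^* / Q`, and the ratio on the circle
-/

open MeasureTheory Polynomial Complex Filter Topology Real Set
open scoped ComplexConjugate ENNReal

namespace H44.Rat

variable {μ : Measure T} [IsFiniteMeasure μ]

/-- Distance of the varying measure from Lebesgue measure. -/
noncomputable def DD (μ : Measure T) (p : ℝ) (G : Set T) (r : T → ℝ) : ℝ :=
  ∫ θ, |r θ ^ p - dens μ G θ| ∂μ + (1 - m.real G)

omit [IsFiniteMeasure μ] in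
lemma DD_nonneg (p : ℝ) (G : Set T) (r : T → ℝ) : 0 ≤ DD μ p G r := by
  have h1 : 0 ≤ ∫ θ, |r θ ^ p - dens μ G θ| ∂μ := integral_nonneg fun θ => abs_nonneg _
  have h2 : m.real G ≤ 1 := real_le_one G
  unfold DD
  linarith

lemma real_compl {G : Set T} (hG : MeasurableSet G) : m.real Gᶜ = 1 - m.real G :=
  probReal_compl_eq_one_sub hG

lemma int_dens_norm {p : ℝ} {G : Set T} (hac : m.restrict G ≪ μ)
    {n : ℕ} {r : T → ℝ} (h : Good μ p n r) {f : T → ℝ} (hf : Continuous f) :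
    Integrable (fun θ => |r θ ^ p - dens μ G θ| * f θ) μ := by
  have i1 : Integrable (fun θ => r θ ^ p * f θ) μ := cint ((good_cont_rp h p).mul hf)
  have i2 : Integrable (fun θ => dens μ G θ * f θ) μ := integrable_dens_mul hac hf
  refine (i1.sub i2).mono ?_ (Eventually.of_forall fun θ => ?_)
  · exact ((((good_cont_rp h p).measurable.sub (measurable_dens μ G)).abs).mul
      hf.measurable).aestronglyMeasurable
  · simp only [Pi.sub_apply, norm_mul, Real.norm_eq_abs, abs_abs]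
    rw [← sub_mul, abs_mul]

lemma close_aux {p : ℝ} {G : Set T} (hG : MeasurableSet G) (hac : m.restrict G ≪ μ)
    {n : ℕ} {r : T → ℝ} (h : Good μ p n r) {F : T → ℂ} (hF : Continuous F) :
    ‖∫ θ, ((r θ ^ p : ℝ) : ℂ) * F θ ∂μ - ∫ θ, F θ ∂m‖ ≤
      ∫ θ, |r θ ^ p - dens μ G θ| * ‖F θ‖ ∂μ + ∫ θ in Gᶜ, ‖F θ‖ ∂m := by
  have hc : Continuous fun θ => ((r θ ^ p : ℝ) : ℂ) :=
    Complex.continuous_ofReal.comp (good_cont_rp h p)
  have i1 : Integrable (fun θ => ((r θ ^ p : ℝ) : ℂ) * F θ) μ := cint (hc.mul hF)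
  have i2 : Integrable (fun θ => dens μ G θ • F θ) μ := integrable_dens_mul hac hF
  have e1 : ∫ θ, F θ ∂m = ∫ θ, dens μ G θ • F θ ∂μ + ∫ θ in Gᶜ, F θ ∂m := by
    rw [integral_dens_mul hac, integral_add_compl hG (cint hF)]
  have e2 : ∫ θ, ((r θ ^ p : ℝ) : ℂ) * F θ ∂μ - ∫ θ, F θ ∂m =
      ∫ θ, (((r θ ^ p : ℝ) : ℂ) * F θ - dens μ G θ • F θ) ∂μ - ∫ θ in Gᶜ, F θ ∂m := by
    rw [e1, integral_sub i1 i2]; ring
  rw [e2]
  refine (norm_sub_le _ _).trans (add_le_add ?_ (norm_integral_le_integral_norm _))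
  refine (norm_integral_le_integral_norm _).trans (le_of_eq ?_)
  congr 1
  funext θ
  rw [Complex.real_smul, ← sub_mul, norm_mul, ← Complex.ofReal_sub, Complex.norm_real,
    Real.norm_eq_abs]

lemma close_bdd {p : ℝ} {G : Set T} (hG : MeasurableSet G) (hac : m.restrict G ≪ μ)
    {n : ℕ} {r : T → ℝ} (h : Good μ p n r) {F : T → ℂ} (hF : Continuous F) {M : ℝ}
    (hM : ∀ θ, ‖F θ‖ ≤ M) :
    ‖∫ θ, ((r θ ^ p : ℝ) : ℂ) * F θ ∂μ - ∫ θ, F θ ∂m‖ ≤ M * DD μ p G r := by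
  refine (close_aux hG hac h hF).trans ?_
  unfold DD
  rw [mul_add]
  apply add_le_add
  · rw [← integral_const_mul]
    apply integral_mono (int_dens_norm hac h hF.norm)
    · exact ((cint (good_cont_rp h p)).sub (integrable_dens hac)).abs.const_mul _
    · intro θ
      change |r θ ^ p - dens μ G θ| * ‖F θ‖ ≤ M * |r θ ^ p - dens μ G θ|
      rw [mul_comm M]
      exact mul_le_mul_of_nonneg_left (hM θ) (abs_nonneg _)
  · rw [← real_compl hG]
    have h1 : ∫ θ in Gᶜ, ‖F θ‖ ∂m ≤ ∫ θ in Gᶜ, M ∂m := by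
      apply integral_mono (cint hF.norm).restrict (integrable_const _)
      exact hM
    rw [setIntegral_const, smul_eq_mul, mul_comm (m.real Gᶜ)] at h1
    exact h1

lemma close_quad {p : ℝ} {G : Set T} (hG : MeasurableSet G) (hac : m.restrict G ≪ μ)
    {n : ℕ} {r : T → ℝ} (h : Good μ p n r) {F : T → ℂ} (hF : Continuous F) {c : ℝ}
    (hc : 0 < c) :
    ‖∫ θ, ((r θ ^ p : ℝ) : ℂ) * F θ ∂μ - ∫ θ, F θ ∂m‖ ≤
      c / 2 * (∫ θ, r θ ^ p * ‖F θ‖ ^ 2 ∂μ + ∫ θ, ‖F θ‖ ^ 2 ∂m) + (2 * c)⁻¹ * DD μ p G r := by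
  refine (close_aux hG hac h hF).trans ?_
  have hF2 : Continuous fun θ => ‖F θ‖ ^ 2 := by fun_prop
  have j1 : Integrable (fun θ => |r θ ^ p - dens μ G θ|) μ :=
    ((cint (good_cont_rp h p)).sub (integrable_dens hac)).abs
  have j2 : Integrable (fun θ => r θ ^ p * ‖F θ‖ ^ 2) μ := cint ((good_cont_rp h p).mul hF2)
  have j3 : Integrable (fun θ => dens μ G θ * ‖F θ‖ ^ 2) μ := integrable_dens_mul hac hF2
  have j4 : Integrable (fun θ => r θ ^ p * ‖F θ‖ ^ 2 + dens μ G θ * ‖F θ‖ ^ 2) μ := j2.add j3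
  have h1 : ∫ θ, |r θ ^ p - dens μ G θ| * ‖F θ‖ ∂μ ≤
      c / 2 * (∫ θ, r θ ^ p * ‖F θ‖ ^ 2 ∂μ + ∫ θ in G, ‖F θ‖ ^ 2 ∂m) +
      (2 * c)⁻¹ * ∫ θ, |r θ ^ p - dens μ G θ| ∂μ := by
    have e1 : ∫ θ in G, ‖F θ‖ ^ 2 ∂m = ∫ θ, dens μ G θ * ‖F θ‖ ^ 2 ∂μ :=
      (integral_dens_mul (E := ℝ) hac _).symm
    rw [e1, ← integral_add j2 j3, ← int_lin j4 j1]
    apply integral_mono (int_dens_norm hac h hF.norm) ((j4.const_mul _).add (j1.const_mul _))
    intro θ
    change |r θ ^ p - dens μ G θ| * ‖F θ‖ ≤ c / 2 * (r θ ^ p * ‖F θ‖ ^ 2 +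
      dens μ G θ * ‖F θ‖ ^ 2) + (2 * c)⁻¹ * |r θ ^ p - dens μ G θ|
    set w := |r θ ^ p - dens μ G θ| with hw
    have hw0 : 0 ≤ w := abs_nonneg _
    have hw1 : w ≤ r θ ^ p + dens μ G θ := by
      rw [hw, abs_le]
      have := Real.rpow_nonneg (h.pos θ).le p
      have := dens_nonneg μ G θ
      constructor <;> linarith
    have g1 : ‖F θ‖ ≤ c / 2 * ‖F θ‖ ^ 2 + (2 * c)⁻¹ := by
      have : 0 ≤ (2 * c)⁻¹ * (c * ‖F θ‖ - 1) ^ 2 := by positivity
      have e : (2 * c)⁻¹ * (c * ‖F θ‖ - 1) ^ 2 = c / 2 * ‖F θ‖ ^ 2 - ‖F θ‖ + (2 * c)⁻¹ := by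
        field_simp; ring
      linarith
    have g2 := mul_le_mul_of_nonneg_left g1 hw0
    have g3 : w * (c / 2 * ‖F θ‖ ^ 2) ≤ (r θ ^ p + dens μ G θ) * (c / 2 * ‖F θ‖ ^ 2) :=
      mul_le_mul_of_nonneg_right hw1 (by positivity)
    linarith
  have h2 : ∫ θ in Gᶜ, ‖F θ‖ ∂m ≤ c / 2 * ∫ θ in Gᶜ, ‖F θ‖ ^ 2 ∂m +
      (2 * c)⁻¹ * (1 - m.real G) := by
    have e1 : (1 - m.real G) = ∫ θ in Gᶜ, (1 : ℝ) ∂m := by
      rw [setIntegral_const, smul_eq_mul, mul_one, real_compl hG]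
    rw [e1, ← int_lin (cint hF2).restrict (integrable_const _)]
    apply integral_mono (cint hF.norm).restrict
      (((cint hF2).restrict.const_mul _).add (integrable_const _))
    intro θ
    change ‖F θ‖ ≤ c / 2 * ‖F θ‖ ^ 2 + (2 * c)⁻¹ * 1
    have : 0 ≤ (2 * c)⁻¹ * (c * ‖F θ‖ - 1) ^ 2 := by positivity
    have e : (2 * c)⁻¹ * (c * ‖F θ‖ - 1) ^ 2 = c / 2 * ‖F θ‖ ^ 2 - ‖F θ‖ + (2 * c)⁻¹ := by
      field_simp; ring
    linarith
  have e3 : ∫ θ, ‖F θ‖ ^ 2 ∂m = ∫ θ in G, ‖F θ‖ ^ 2 ∂m + ∫ θ in Gᶜ, ‖F θ‖ ^ 2 ∂m :=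
    (integral_add_compl hG (cint hF2)).symm
  unfold DD
  rw [e3]
  have hcp : 0 < c := hc
  linarith

/-- The inner function `z Q^*/Q` on the circle. -/
noncomputable def uu (N : ℕ) (Q : ℂ[X]) (w : ℂ) : ℂ := w * (rev N Q).eval w / Q.eval w

lemma uu_zero (N : ℕ) (Q : ℂ[X]) : uu N Q 0 = 0 := by simp [uu]

section

variable {N : ℕ} {Q : ℂ[X]} (hd : Q.natDegree ≤ N) (hQ : ∀ w : ℂ, ‖w‖ ≤ 1 → Q.eval w ≠ 0)

include hQ in
lemma uu_diff {w : ℂ} (hw : ‖w‖ ≤ 1) : DifferentiableAt ℂ (uu N Q) w :=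
  ((differentiableAt_id).mul ((rev N Q).differentiable w)).div (Q.differentiable w) (hQ w hw)

include hd hQ in
lemma uu_norm (θ : T) : ‖uu N Q (z θ)‖ = 1 := by
  have h1 : ‖Q.eval (z θ)‖ ≠ 0 := (norm_pos_iff.2 (hQ _ (z_norm θ).le)).ne'
  rw [uu, eval_rev_z hd, norm_div, norm_mul, norm_mul, norm_pow, z_norm, Complex.norm_conj]
  simp [h1]

include hQ in
lemma uu_cont : Continuous fun θ => uu N Q (z θ) := by
  unfold uu
  exact Continuous.div (by fun_prop) (by fun_prop) fun θ => hQ _ (z_norm θ).le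

include hd in
lemma uu_eq (θ : T) : uu N Q (z θ) = z θ ^ (N + 1) * conj (Q.eval (z θ)) / Q.eval (z θ) := by
  rw [uu, eval_rev_z hd]; ring

include hd hQ in
/-- `u` preserves Lebesgue measure. -/
lemma int_g_u (g : ℂ → ℂ) (hg : Continuous g) :
    ∫ θ, g (uu N Q (z θ)) ∂m = ∫ θ, g (z θ) ∂m := by
  rw [← sub_eq_zero, ← norm_eq_zero]
  apply le_antisymm _ (norm_nonneg _)
  apply le_of_forall_pos_le_add
  intro ε hε
  obtain ⟨A, B, hAB⟩ := approx_C g hg (ε := ε / 2) (by positivity)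
  have key : ∀ v : T → ℂ, Continuous v → (∀ θ, ‖v θ‖ = 1) →
      (∫ θ, A.eval (v θ) ∂m = A.eval 0) → (∫ θ, (X * B).eval (v θ) ∂m = 0) →
      ‖∫ θ, g (v θ) ∂m - A.eval 0‖ ≤ ε / 2 := by
    intro v hv hv1 hA hB
    have c1 : Continuous fun θ => A.eval (v θ) := A.continuous.comp hv
    have c2 : Continuous fun θ => (X * B).eval (v θ) := (X * B).continuous.comp hv
    have e1 : A.eval 0 = ∫ θ, (A.eval (v θ) + conj ((X * B).eval (v θ))) ∂m := by
      rw [integral_add (cint c1) (cint (by fun_prop)), hA, conj_integral', hB]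
      simp
    have i1 : Integrable (fun θ => g (v θ)) m := cint (hg.comp hv)
    have i2 : Integrable (fun θ => A.eval (v θ) + conj ((X * B).eval (v θ))) m :=
      cint (by fun_prop)
    rw [e1, ← integral_sub i1 i2]
    have h2 : ‖∫ θ, (g (v θ) - (A.eval (v θ) + conj ((X * B).eval (v θ)))) ∂m‖ ≤
        ε / 2 * m.real univ := by
      apply norm_integral_le_of_norm_le_const
      exact Eventually.of_forall fun θ => hAB _ (hv1 θ)
    simpa using h2
  have hu := key (fun θ => uu N Q (z θ)) (uu_cont hQ) (uu_norm hd hQ)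
    (by
      have := mean_value (F := fun w => A.eval (uu N Q w)) fun w hw =>
        (A.differentiable _).comp w (uu_diff hQ hw)
      simpa [uu_zero] using this)
    (by
      have := mean_value (F := fun w => (X * B).eval (uu N Q w)) fun w hw =>
        ((X * B).differentiable _).comp w (uu_diff hQ hw)
      simpa [uu_zero] using this)
  have hz := key z continuous_z z_norm
    (mean_value (F := fun w => A.eval w) fun w _ => A.differentiable w)
    (by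
      have := mean_value (F := fun w => (X * B).eval w) fun w _ => (X * B).differentiable w
      simpa using this)
  rw [zero_add]
  calc ‖∫ θ, g (uu N Q (z θ)) ∂m - ∫ θ, g (z θ) ∂m‖ =
      ‖(∫ θ, g (uu N Q (z θ)) ∂m - A.eval 0) - (∫ θ, g (z θ) ∂m - A.eval 0)‖ := by
        congr 1; ring
    _ ≤ ε / 2 + ε / 2 := (norm_sub_le _ _).trans (add_le_add hu hz)
    _ = ε := by ring

include hd hQ in
/-- Orthogonality of `z Λ / Q` to functions of `u`. -/
lemma int_a_g {Λ : ℂ[X]}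
    (hΛ : ∀ θ, conj ((X * Λ).eval (z θ) / Q.eval (z θ)) * uu N Q (z θ) =
      (X * Λ).eval (z θ) / Q.eval (z θ))
    (g : ℂ → ℂ) (hg : Continuous g) :
    ∫ θ, (X * Λ).eval (z θ) / Q.eval (z θ) * g (uu N Q (z θ)) ∂m = 0 := by
  set a : T → ℂ := fun θ => (X * Λ).eval (z θ) / Q.eval (z θ) with ha
  have hac : Continuous a :=
    Continuous.div (by fun_prop) (by fun_prop) fun θ => hQ _ (z_norm θ).le
  have huc : Continuous fun θ => uu N Q (z θ) := uu_cont hQ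
  have hdiffa : ∀ w : ℂ, ‖w‖ ≤ 1 →
      DifferentiableAt ℂ (fun w => (X * Λ).eval w / Q.eval w) w := fun w hw =>
    ((X * Λ).differentiable w).div (Q.differentiable w) (hQ w hw)
  set M : ℝ := ∫ θ, ‖a θ‖ ∂m with hM
  have hM0 : 0 ≤ M := integral_nonneg fun θ => norm_nonneg _
  rw [← norm_eq_zero]
  apply le_antisymm _ (norm_nonneg _)
  apply le_of_forall_pos_le_add
  intro ε hε
  obtain ⟨A, B, hAB⟩ := approx_C g hg (ε := ε / (M + 1)) (by positivity)
  have c1 : Continuous fun θ => A.eval (uu N Q (z θ)) := A.continuous.comp huc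
  have c2 : Continuous fun θ => (X * B).eval (uu N Q (z θ)) := (X * B).continuous.comp huc
  have e1 : ∫ θ, a θ * A.eval (uu N Q (z θ)) ∂m = 0 := by
    refine (mean_value (F := fun w => (X * Λ).eval w / Q.eval w * A.eval (uu N Q w))
      fun w hw => (hdiffa w hw).mul ((A.differentiable _).comp w (uu_diff hQ hw))).trans ?_
    simp
  have e2 : ∫ θ, a θ * conj ((X * B).eval (uu N Q (z θ))) ∂m = 0 := by
    have h1 : ∀ θ, a θ * conj ((X * B).eval (uu N Q (z θ))) =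
        conj (a θ * B.eval (uu N Q (z θ))) := by
      intro θ
      rw [eval_mul, eval_X, map_mul, map_mul]
      have h2 : a θ * conj (uu N Q (z θ)) = conj (a θ) := by
        have h3 := congrArg conj (hΛ θ)
        rw [map_mul, Complex.conj_conj] at h3
        exact h3
      rw [← mul_assoc, h2]
    simp_rw [h1]
    rw [conj_integral']
    have h4 : ∫ θ, a θ * B.eval (uu N Q (z θ)) ∂m = 0 := by
      refine (mean_value (F := fun w => (X * Λ).eval w / Q.eval w * B.eval (uu N Q w))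
        fun w hw => (hdiffa w hw).mul ((B.differentiable _).comp w (uu_diff hQ hw))).trans ?_
      simp
    rw [h4, map_zero]
  have e3 : ∫ θ, a θ * g (uu N Q (z θ)) ∂m = ∫ θ, a θ * (g (uu N Q (z θ)) -
      (A.eval (uu N Q (z θ)) + conj ((X * B).eval (uu N Q (z θ))))) ∂m := by
    have h1 : ∀ θ, a θ * (g (uu N Q (z θ)) -
      (A.eval (uu N Q (z θ)) + conj ((X * B).eval (uu N Q (z θ))))) =
      a θ * g (uu N Q (z θ)) - (a θ * A.eval (uu N Q (z θ)) +
        a θ * conj ((X * B).eval (uu N Q (z θ)))) := fun θ => by ring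
    simp_rw [h1]
    have i1 : Integrable (fun θ => a θ * g (uu N Q (z θ))) m := cint (hac.mul (hg.comp huc))
    have i2 : Integrable (fun θ => a θ * A.eval (uu N Q (z θ))) m := cint (hac.mul c1)
    have i3 : Integrable (fun θ => a θ * conj ((X * B).eval (uu N Q (z θ)))) m :=
      cint (by fun_prop)
    have i4 : Integrable (fun θ => a θ * A.eval (uu N Q (z θ)) +
      a θ * conj ((X * B).eval (uu N Q (z θ)))) m := i2.add i3
    rw [integral_sub i1 i4, integral_add i2 i3, e1, e2]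
    simp
  rw [e3, zero_add]
  have h5 : ‖∫ θ, a θ * (g (uu N Q (z θ)) -
      (A.eval (uu N Q (z θ)) + conj ((X * B).eval (uu N Q (z θ))))) ∂m‖ ≤
      ∫ θ, ε / (M + 1) * ‖a θ‖ ∂m := by
    apply norm_integral_le_of_norm_le (cint (by fun_prop))
    refine Eventually.of_forall fun θ => ?_
    rw [norm_mul, mul_comm]
    exact mul_le_mul_of_nonneg_right (hAB _ (uu_norm hd hQ θ)) (norm_nonneg _)
  rw [integral_const_mul, ← hM] at h5
  refine h5.trans ?_
  rw [div_mul_eq_mul_div, div_le_iff₀ (by positivity)]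
  nlinarith

end

/-- Hölder's inequality in the form needed. -/
lemma holder_aux {p : ℝ} (hp : 2 ≤ p) {f g : T → ℝ} (hf : Continuous f) (hg : Continuous g)
    (hf0 : ∀ θ, 0 ≤ f θ) (hg0 : ∀ θ, 0 ≤ g θ) {E E' : ℝ} (hE : 0 < E) (hE' : 0 < E')
    (h1 : ∫ θ, f θ ^ p ∂μ = E ^ p) (h2 : ∫ θ, g θ ^ p ∂μ = E' ^ p) :
    ∫ θ, f θ ^ (p - 1) * g θ ∂μ ≤ E ^ (p - 1) * E' := by
  have hp0 : 0 < p := by linarith
  have cf : ∀ q : ℝ, 0 ≤ q → Continuous fun θ => f θ ^ q := fun q hq =>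
    hf.rpow_const fun θ => Or.inr hq
  have cg : ∀ q : ℝ, 0 ≤ q → Continuous fun θ => g θ ^ q := fun q hq =>
    hg.rpow_const fun θ => Or.inr hq
  have key : ∫ θ, f θ ^ (p - 1) * g θ ∂μ ≤
      ∫ θ, (E ^ (p - 1) * E' * ((1 - 1 / p) / E ^ p) * f θ ^ p +
        E ^ (p - 1) * E' * (1 / p / E' ^ p) * g θ ^ p) ∂μ := by
    apply integral_mono (cint ((cf _ (by linarith)).mul hg))
      (((cint (cf p hp0.le)).const_mul _).add ((cint (cg p hp0.le)).const_mul _))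
    intro θ
    change f θ ^ (p - 1) * g θ ≤ E ^ (p - 1) * E' * ((1 - 1 / p) / E ^ p) * f θ ^ p +
        E ^ (p - 1) * E' * (1 / p / E' ^ p) * g θ ^ p
    have h := Real.geom_mean_le_arith_mean2_weighted (w₁ := 1 - 1 / p) (w₂ := 1 / p)
      (p₁ := (f θ / E) ^ p) (p₂ := (g θ / E') ^ p) (by
        rw [sub_nonneg, div_le_one hp0]; linarith) (by positivity)
      (Real.rpow_nonneg (div_nonneg (hf0 θ) hE.le) _)
      (Real.rpow_nonneg (div_nonneg (hg0 θ) hE'.le) _) (by ring)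
    have e1 : ((f θ / E) ^ p) ^ (1 - 1 / p) = f θ ^ (p - 1) / E ^ (p - 1) := by
      rw [← Real.rpow_mul (div_nonneg (hf0 θ) hE.le), Real.div_rpow (hf0 θ) hE.le]
      congr 2 <;> field_simp
    have e2 : ((g θ / E') ^ p) ^ (1 / p) = g θ / E' := by
      rw [← Real.rpow_mul (div_nonneg (hg0 θ) hE'.le), mul_one_div_cancel hp0.ne',
        Real.rpow_one]
    rw [e1, e2, Real.div_rpow (hf0 θ) hE.le, Real.div_rpow (hg0 θ) hE'.le] at h
    have hEE : 0 < E ^ (p - 1) * E' := by positivity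
    have h3 := mul_le_mul_of_nonneg_left h hEE.le
    calc f θ ^ (p - 1) * g θ = E ^ (p - 1) * E' * (f θ ^ (p - 1) / E ^ (p - 1) * (g θ / E')) := by
          field_simp
      _ ≤ _ := h3
      _ = _ := by ring
  rw [int_lin (cint (cf p hp0.le)) (cint (cg p hp0.le)), h1, h2] at key
  refine key.trans (le_of_eq ?_)
  field_simp
  ring

/-- The ratio on the circle. -/
lemma circ_ratio {p : ℝ} (hp : 2 ≤ p) (hμ : ND μ) {G : Set T} (hG : MeasurableSet G)
    (hac : m.restrict G ≪ μ) {n : ℕ} {Q Q' : ℂ[X]} (hQ : IsExt μ p n Q)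
    (hQ' : IsExt μ p (n + 1) Q') :
    (1 - DD μ p G (fun θ => ‖Q.eval (z θ)‖ / (en μ p Q) ^ (1 / p))) * (en μ p Q) ^ (1 / p) ≤
      (en μ p Q') ^ (1 / p) ∧ (en μ p Q') ≤ (en μ p Q) := by
  have hp0 : 0 < p := by linarith
  constructor
  swap
  · exact hQ'.min Q (hQ.deg.trans (Nat.le_succ n)) hQ.zero
  set e := en μ p Q with he
  set e' := en μ p Q' with he'
  have he0 : 0 < e := en_pos hp hμ hQ.ne_zero
  have he0' : 0 < e' := en_pos hp hμ hQ'.ne_zero
  set E := e ^ (1 / p) with hE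
  set E' := e' ^ (1 / p) with hE'
  have hE0 : 0 < E := by positivity
  have hE0' : 0 < E' := by positivity
  have hEp : E ^ p = e := by
    rw [hE, ← Real.rpow_mul he0.le, one_div, inv_mul_cancel₀ hp0.ne', Real.rpow_one]
  have hEp' : E' ^ p = e' := by
    rw [hE', ← Real.rpow_mul he0'.le, one_div, inv_mul_cancel₀ hp0.ne', Real.rpow_one]
  have hgood : Good μ p n (fun θ => ‖Q.eval (z θ)‖ / E) := hQ.good hp hμ
  set r : T → ℝ := fun θ => ‖Q.eval (z θ)‖ / E with hr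
  have hzf : ∀ w : ℂ, ‖w‖ ≤ 1 → Q.eval w ≠ 0 := fun w hw => zero_free hp hμ hQ hw
  have hzf' : ∀ w : ℂ, ‖w‖ ≤ 1 → Q'.eval w ≠ 0 := fun w hw => zero_free hp hμ hQ' hw
  -- the leading coefficient is at most one
  set c := Q'.coeff (n + 1) with hc
  have hc1 : ‖c‖ ≤ 1 := by
    have h1 := mean_div (h := rev (n + 1) Q') hzf'
    rw [hQ'.zero, div_one, ← coeff_zero_eq_eval_zero, coeff_rev Q' (Nat.zero_le _),
      Nat.sub_zero] at h1
    have h2 : ‖∫ θ, (rev (n + 1) Q').eval (z θ) / Q'.eval (z θ) ∂m‖ ≤ 1 * m.real univ := by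
      apply norm_integral_le_of_norm_le_const
      refine Eventually.of_forall fun θ => ?_
      have h3 : ‖Q'.eval (z θ)‖ ≠ 0 := (norm_pos_iff.2 (hzf' _ (z_norm θ).le)).ne'
      rw [eval_rev_z hQ'.deg, norm_div, norm_mul, norm_pow, z_norm, Complex.norm_conj]
      simp [h3]
    rw [h1, Complex.norm_conj] at h2
    simpa using h2
  set P := rev n Q with hP
  have hPd : P.natDegree ≤ n := natDegree_rev_le hQ.deg
  set W := Q' - Polynomial.C c * (X * P) with hW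
  have hWd : W.natDegree ≤ n := by
    rw [natDegree_le_iff_coeff_eq_zero]
    intro k hk
    rw [hW, coeff_sub, coeff_C_mul]
    rcases Nat.lt_iff_add_one_le.1 hk |>.eq_or_lt with h | h
    · rw [← h, coeff_X_mul, hP, coeff_rev Q le_rfl, Nat.sub_self, coeff_zero_eq_eval_zero,
        hQ.zero, map_one, mul_one, hc, sub_self]
    · obtain ⟨j, rfl⟩ : ∃ j, k = j + 1 := ⟨k - 1, by omega⟩
      rw [coeff_X_mul, coeff_eq_zero_of_natDegree_lt (lt_of_le_of_lt hQ'.deg h),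
        coeff_eq_zero_of_natDegree_lt (lt_of_le_of_lt hPd (by omega))]
      simp
  have hW0 : W.eval 0 = 1 := by rw [hW]; simp [hQ'.zero]
  have h1 := repr hp hQ hWd
  rw [hW0, one_mul] at h1
  change _ = ((e : ℝ) : ℂ) at h1
  have hcw : Continuous fun θ => ((‖Q.eval (z θ)‖ ^ (p - 2) : ℝ) : ℂ) :=
    Complex.continuous_ofReal.comp (continuous_rp (by linarith) (continuous_eval_z Q))
  have j1 : Integrable (fun θ => ((‖Q.eval (z θ)‖ ^ (p - 2) : ℝ) : ℂ) *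
      (conj (Q.eval (z θ)) * Q'.eval (z θ))) μ := cint (hcw.mul (by fun_prop))
  have huc : Continuous fun θ => uu n Q (z θ) := uu_cont hzf
  have hrc : Continuous fun θ => ((r θ ^ p : ℝ) : ℂ) :=
    Complex.continuous_ofReal.comp (good_cont_rp hgood p)
  have e1 : ∀ θ, ((‖Q.eval (z θ)‖ ^ (p - 2) : ℝ) : ℂ) * (conj (Q.eval (z θ)) * W.eval (z θ)) =
      ((‖Q.eval (z θ)‖ ^ (p - 2) : ℝ) : ℂ) * (conj (Q.eval (z θ)) * Q'.eval (z θ)) -
      c * (e : ℂ) * (((r θ ^ p : ℝ) : ℂ) * uu n Q (z θ)) := by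
    intro θ
    have h3 : Q.eval (z θ) ≠ 0 := hzf _ (z_norm θ).le
    have h4 : ((r θ ^ p : ℝ) : ℂ) * (e : ℂ) = ((‖Q.eval (z θ)‖ ^ (p - 2) : ℝ) : ℂ) *
        (Q.eval (z θ) * conj (Q.eval (z θ))) := by
      rw [Complex.mul_conj, Complex.normSq_eq_norm_sq, ← Complex.ofReal_mul,
        ← Complex.ofReal_mul, rpow_two hp _ (norm_nonneg _), hr]
      simp only
      rw [Real.div_rpow (norm_nonneg _) hE0.le, hEp, div_mul_cancel₀ _ he0.ne']
    have h5 : c * (e : ℂ) * (((r θ ^ p : ℝ) : ℂ) * uu n Q (z θ)) =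
        c * ((((r θ ^ p : ℝ) : ℂ) * (e : ℂ)) * uu n Q (z θ)) := by ring
    rw [h5, h4, hW, eval_sub, eval_mul, eval_mul, eval_C, eval_X, uu, ← hP]
    field_simp
  simp_rw [e1] at h1
  rw [integral_sub j1 (cint (by fun_prop)), integral_const_mul] at h1
  have h2 : ∫ θ, uu n Q (z θ) ∂m = 0 := by
    rw [mean_value (F := uu n Q) fun w hw => uu_diff hzf hw, uu_zero]
  have h3 : ‖∫ θ, ((r θ ^ p : ℝ) : ℂ) * uu n Q (z θ) ∂μ‖ ≤ DD μ p G r := by
    have := close_bdd hG hac hgood huc (M := 1) fun θ => (uu_norm hQ.deg hzf θ).le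
    rwa [h2, sub_zero, one_mul] at this
  have h4 : ‖∫ θ, ((‖Q.eval (z θ)‖ ^ (p - 2) : ℝ) : ℂ) *
      (conj (Q.eval (z θ)) * Q'.eval (z θ)) ∂μ‖ ≤ E ^ (p - 1) * E' := by
    refine (norm_integral_le_integral_norm _).trans ?_
    have e2 : ∀ θ, ‖((‖Q.eval (z θ)‖ ^ (p - 2) : ℝ) : ℂ) *
        (conj (Q.eval (z θ)) * Q'.eval (z θ))‖ =
        ‖Q.eval (z θ)‖ ^ (p - 1) * ‖Q'.eval (z θ)‖ := by
      intro θ
      have h5 : 0 < ‖Q.eval (z θ)‖ := norm_pos_iff.2 (hzf _ (z_norm θ).le)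
      rw [norm_mul, norm_mul, Complex.norm_conj, Complex.norm_real,
        Real.norm_of_nonneg (by positivity), ← mul_assoc, ← Real.rpow_add_one h5.ne']
      ring_nf
    simp_rw [e2]
    apply holder_aux hp (by fun_prop) (by fun_prop) (fun θ => norm_nonneg _)
      (fun θ => norm_nonneg _) hE0 hE0'
    · rw [hEp, he, en]
    · rw [hEp', he', en]
  have h5 : (e : ℂ) + c * (e : ℂ) * ∫ θ, ((r θ ^ p : ℝ) : ℂ) * uu n Q (z θ) ∂μ =
      ∫ θ, ((‖Q.eval (z θ)‖ ^ (p - 2) : ℝ) : ℂ) *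
        (conj (Q.eval (z θ)) * Q'.eval (z θ)) ∂μ := by
    linear_combination (-1) * h1
  have h6 : e * (1 - DD μ p G r) ≤ E ^ (p - 1) * E' := by
    refine le_trans ?_ h4
    rw [← h5]
    have g1 : ‖(e : ℂ)‖ = e := by rw [Complex.norm_real, Real.norm_of_nonneg he0.le]
    have g2 : ‖c * (e : ℂ) * ∫ θ, ((r θ ^ p : ℝ) : ℂ) * uu n Q (z θ) ∂μ‖ ≤
        e * DD μ p G r := by
      rw [norm_mul, norm_mul, g1]
      calc ‖c‖ * e * ‖∫ θ, ((r θ ^ p : ℝ) : ℂ) * uu n Q (z θ) ∂μ‖ ≤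
          1 * e * DD μ p G r := by
            apply mul_le_mul _ h3 (norm_nonneg _) (by positivity)
            exact mul_le_mul_of_nonneg_right hc1 he0.le
        _ = _ := by ring
    have g3 := norm_sub_norm_le (e : ℂ) (-(c * (e : ℂ) *
      ∫ θ, ((r θ ^ p : ℝ) : ℂ) * uu n Q (z θ) ∂μ))
    rw [norm_neg, sub_neg_eq_add, g1] at g3
    linarith
  have h7 : e = E ^ (p - 1) * E := by
    rw [← Real.rpow_add_one hE0.ne', sub_add_cancel, hEp]
  have h8 : 0 < E ^ (p - 1) := by positivity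
  have h9 : E ^ (p - 1) * ((1 - DD μ p G r) * E) ≤ E ^ (p - 1) * E' := by
    calc E ^ (p - 1) * ((1 - DD μ p G r) * E) = (E ^ (p - 1) * E) * (1 - DD μ p G r) := by ring
      _ = e * (1 - DD μ p G r) := by rw [← h7]
      _ ≤ _ := h6
  exact le_of_mul_le_mul_left h9 h8

end H44.Rat
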