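import Pool.Agent.H44.Rat.Circ

/-!
# Comparison of the line problem with the circle problem, analytic part
-/

open MeasureTheory Polynomial Complex Filter Topology Real Set
open scoped ComplexConjugate ENNReal

namespace H44.Rat

variable {μ : Measure T} [IsFiniteMeasure μ]

/-- The real trigonometric polynomial `2 Re (z^{-(k+1)} Q)`. -/
noncomputable def T0 (k : ℕ) (Q : ℂ[X]) (θ : T) : ℝ :=
  2 * (conj (z θ) ^ (k + 1) * Q.eval (z θ)).re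

@[fun_prop]
lemma T0_cont (k : ℕ) (Q : ℂ[X]) : Continuous (T0 k Q) := by
  unfold T0
  fun_prop

/-- The constant `∫ |1+z|^p dm`. -/
noncomputable def Cp (p : ℝ) : ℝ := ∫ θ, ‖1 + z θ‖ ^ p ∂m

section

variable {k : ℕ} {Q : ℂ[X]} (hd : Q.natDegree ≤ 2 * k + 1)
  (hQ : ∀ w : ℂ, ‖w‖ ≤ 1 → Q.eval w ≠ 0)

include hd hQ in
lemma T0_eq (θ : T) : ((T0 k Q θ : ℝ) : ℂ) =
    conj (z θ) ^ (k + 1) * Q.eval (z θ) * (1 + uu (2 * k + 1) Q (z θ)) := by
  have h1 : Q.eval (z θ) ≠ 0 := hQ _ (z_norm θ).le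
  set w := conj (z θ) ^ (k + 1) * Q.eval (z θ) with hw
  have e1 : ((T0 k Q θ : ℝ) : ℂ) = w + conj w := by
    rw [Complex.add_conj, T0]
  have e2 : w * uu (2 * k + 1) Q (z θ) = conj w := by
    rw [uu_eq hd, hw, map_mul, map_pow, Complex.conj_conj]
    have h2 := conj_mul_z θ
    calc conj (z θ) ^ (k + 1) * Q.eval (z θ) *
        (z θ ^ (2 * k + 1 + 1) * conj (Q.eval (z θ)) / Q.eval (z θ)) =
        (conj (z θ) * z θ) ^ (k + 1) * (z θ ^ (k + 1) * conj (Q.eval (z θ))) := by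
          field_simp
          ring
      _ = _ := by rw [h2, one_pow, one_mul]
  rw [e1, mul_add, e2, mul_one]

include hd hQ in
lemma T0_norm (θ : T) : |T0 k Q θ| = ‖Q.eval (z θ)‖ * ‖1 + uu (2 * k + 1) Q (z θ)‖ := by
  rw [← Real.norm_eq_abs, ← Complex.norm_real, T0_eq hd hQ, norm_mul, norm_mul, norm_pow,
    Complex.norm_conj, z_norm]
  simp

lemma T0_le (θ : T) : |T0 k Q θ| ≤ 2 * ‖Q.eval (z θ)‖ := by
  unfold T0
  rw [abs_mul, abs_two]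
  apply mul_le_mul_of_nonneg_left _ (by norm_num)
  refine (Complex.abs_re_le_norm _).trans (le_of_eq ?_)
  rw [norm_mul, norm_pow, Complex.norm_conj, z_norm]
  simp

end

lemma two_bound {w : ℂ} (hw : ‖w‖ = 1) : ‖1 + w‖ ≤ 2 := by
  refine (norm_add_le _ _).trans ?_
  rw [hw, norm_one]; norm_num

/-- Evaluation of the `p`-norm of `T₀`. -/
lemma int_T0 {p : ℝ} (hp : 2 ≤ p) (hμ : ND μ) {G : Set T} (hG : MeasurableSet G)
    (hac : m.restrict G ≪ μ) {k : ℕ} {Q : ℂ[X]} (hQ : IsExt μ p (2 * k + 1) Q) :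
    |∫ θ, |T0 k Q θ| ^ p ∂μ - en μ p Q * Cp p| ≤ en μ p Q *
      (2 ^ p * DD μ p G (fun θ => ‖Q.eval (z θ)‖ / (en μ p Q) ^ (1 / p))) := by
  have hp0 : 0 < p := by linarith
  set e := en μ p Q with he
  have he0 : 0 < e := en_pos hp hμ hQ.ne_zero
  set E := e ^ (1 / p) with hE
  have hE0 : 0 < E := by positivity
  have hEp : E ^ p = e := by
    rw [hE, ← Real.rpow_mul he0.le, one_div, inv_mul_cancel₀ hp0.ne', Real.rpow_one]
  have hgood : Good μ p (2 * k + 1) (fun θ => ‖Q.eval (z θ)‖ / E) := hQ.good hp hμ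
  set r : T → ℝ := fun θ => ‖Q.eval (z θ)‖ / E with hr
  have hzf : ∀ w : ℂ, ‖w‖ ≤ 1 → Q.eval w ≠ 0 := fun w hw => zero_free hp hμ hQ hw
  have huc : Continuous fun θ => uu (2 * k + 1) Q (z θ) := uu_cont hzf
  have hFc : Continuous fun θ => ‖1 + uu (2 * k + 1) Q (z θ)‖ ^ p :=
    continuous_rp hp0.le (by fun_prop)
  have hFc' : Continuous fun θ => ((‖1 + uu (2 * k + 1) Q (z θ)‖ ^ p : ℝ) : ℂ) :=
    Complex.continuous_ofReal.comp hFc
  have h1 := close_bdd hG hac hgood hFc' (M := 2 ^ p) (by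
    intro θ
    rw [Complex.norm_real, Real.norm_of_nonneg (by positivity)]
    exact Real.rpow_le_rpow (norm_nonneg _) (two_bound (uu_norm hQ.deg hzf θ)) hp0.le)
  have h2 : ∫ θ, ((‖1 + uu (2 * k + 1) Q (z θ)‖ ^ p : ℝ) : ℂ) ∂m = ((Cp p : ℝ) : ℂ) := by
    have := int_g_u hQ.deg hzf (fun w => ((‖1 + w‖ ^ p : ℝ) : ℂ))
      (Complex.continuous_ofReal.comp (continuous_rp hp0.le (by fun_prop)))
    rw [this, integral_complex_ofReal, Cp]
  have h3 : ∀ θ, |T0 k Q θ| ^ p = e * (r θ ^ p * ‖1 + uu (2 * k + 1) Q (z θ)‖ ^ p) := by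
    intro θ
    rw [T0_norm hQ.deg hzf, Real.mul_rpow (norm_nonneg _) (norm_nonneg _), hr]
    simp only
    rw [Real.div_rpow (norm_nonneg _) hE0.le, hEp]
    field_simp
  have h4 : ∫ θ, ((r θ ^ p : ℝ) : ℂ) * ((‖1 + uu (2 * k + 1) Q (z θ)‖ ^ p : ℝ) : ℂ) ∂μ =
      ((∫ θ, r θ ^ p * ‖1 + uu (2 * k + 1) Q (z θ)‖ ^ p ∂μ : ℝ) : ℂ) := by
    rw [← integral_complex_ofReal]
    congr 1
    funext θ
    push_cast; ring
  rw [h2, h4, ← Complex.ofReal_sub, Complex.norm_real, Real.norm_eq_abs] at h1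
  simp_rw [h3]
  rw [integral_const_mul, ← mul_sub, abs_mul, abs_of_pos he0]
  exact mul_le_mul_of_nonneg_left h1 he0.le

lemma young2 {p : ℝ} (hp : 2 ≤ p) {x r : ℝ} (hx : 0 ≤ x) (hr : 0 ≤ r) :
    x ^ 2 * r ^ (p - 2) ≤ 2 / p * x ^ p + (1 - 2 / p) * r ^ p := by
  have hp0 : 0 < p := by linarith
  have h := young hp (t := x ^ (p / 2)) (Real.rpow_nonneg hx _) hr
  rw [← Real.rpow_mul hx, ← Real.rpow_natCast (x ^ (p / 2)) 2, ← Real.rpow_mul hx] at h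
  have e1 : p / 2 * (4 / p) = ((2 : ℕ) : ℝ) := by push_cast; field_simp; norm_num
  have e2 : p / 2 * ((2 : ℕ) : ℝ) = p := by push_cast; ring
  rwa [e1, e2, Real.rpow_natCast] at h

lemma add_rpow_le2 {p : ℝ} (hp : 1 ≤ p) {x y : ℝ} (hx : 0 ≤ x) (hy : 0 ≤ y) :
    (x + y) ^ p ≤ 2 ^ (p - 1) * (x ^ p + y ^ p) := by
  have := NNReal.rpow_add_le_mul_rpow_add_rpow ⟨x, hx⟩ ⟨y, hy⟩ hp
  exact_mod_cast this

/-- The duality lower bound. -/
lemma lower {p : ℝ} (hp : 2 ≤ p) (hμ : ND μ) {G : Set T} (hG : MeasurableSet G)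
    (hac : m.restrict G ≪ μ) {k : ℕ} {Q : ℂ[X]} (hQ : IsExt μ p (2 * k + 1) Q)
    {S : T → ℝ} (hS : Continuous S) {Λ : ℂ[X]} (hΛd : Λ.natDegree ≤ 2 * k + 1)
    (hΛ : ∀ θ, (X * Λ).eval (z θ) = z θ ^ (k + 1) * ((S θ - T0 k Q θ : ℝ) : ℂ))
    {c : ℝ} (hc : 0 < c)
    (hD : DD μ p G (fun θ => ‖Q.eval (z θ)‖ / (en μ p Q) ^ (1 / p)) ≤ 4 * c ^ 2) :
    ∫ θ, |T0 k Q θ| ^ p ∂μ - en μ p Q * (p * (c * (16 ^ p + 2))) ≤ ∫ θ, |S θ| ^ p ∂μ := by
  have hp0 : 0 < p := by linarith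
  set e := en μ p Q with he
  have he0 : 0 < e := en_pos hp hμ hQ.ne_zero
  by_cases hcase : ∫ θ, |T0 k Q θ| ^ p ∂μ ≤ ∫ θ, |S θ| ^ p ∂μ
  · have : 0 ≤ e * (p * (c * (16 ^ p + 2))) := by positivity
    linarith
  push Not at hcase
  set E := e ^ (1 / p) with hE
  have hE0 : 0 < E := by positivity
  have hEp : E ^ p = e := by
    rw [hE, ← Real.rpow_mul he0.le, one_div, inv_mul_cancel₀ hp0.ne', Real.rpow_one]
  have hgood : Good μ p (2 * k + 1) (fun θ => ‖Q.eval (z θ)‖ / E) := hQ.good hp hμ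
  set r : T → ℝ := fun θ => ‖Q.eval (z θ)‖ / E with hr
  have hr0 : ∀ θ, 0 < r θ := hgood.pos
  have hrc : ∀ q : ℝ, Continuous fun θ => r θ ^ q := good_cont_rp hgood
  have hrc1 : Continuous r := hgood.cont
  have hzf : ∀ w : ℂ, ‖w‖ ≤ 1 → Q.eval w ≠ 0 := fun w hw => zero_free hp hμ hQ hw
  have hzf' : ∀ θ, Q.eval (z θ) ≠ 0 := fun θ => hzf _ (z_norm θ).le
  set u : T → ℂ := fun θ => uu (2 * k + 1) Q (z θ) with hu
  have huc : Continuous u := uu_cont hzf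
  have hu1 : ∀ θ, ‖u θ‖ = 1 := uu_norm hQ.deg hzf
  have hnr : ∀ θ, ‖Q.eval (z θ)‖ = E * r θ := by
    intro θ
    rw [hr]; simp only; field_simp
  -- the function a
  set a : T → ℂ := fun θ => (X * Λ).eval (z θ) / Q.eval (z θ) with ha
  have hac' : Continuous a := Continuous.div (by fun_prop) (by fun_prop) hzf'
  have hT0c : Continuous (T0 k Q) := T0_cont k Q
  set L : T → ℝ := fun θ => S θ - T0 k Q θ with hL
  have hLc : Continuous L := hS.sub hT0c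
  have haL : ∀ θ, ‖a θ‖ = |L θ| / ‖Q.eval (z θ)‖ := by
    intro θ
    rw [ha]; simp only
    rw [norm_div, hΛ, norm_mul, norm_pow, z_norm, Complex.norm_real, Real.norm_eq_abs]
    simp [hL]
  have haΛ : ∀ θ, ‖a θ‖ = ‖Λ.eval (z θ)‖ / ‖Q.eval (z θ)‖ := by
    intro θ
    rw [ha]; simp only
    rw [norm_div, eval_mul, norm_mul, eval_X, z_norm, one_mul]
  -- symmetry of a
  have hsym : ∀ θ, conj ((X * Λ).eval (z θ) / Q.eval (z θ)) * uu (2 * k + 1) Q (z θ) =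
      (X * Λ).eval (z θ) / Q.eval (z θ) := by
    intro θ
    rw [hΛ, uu_eq hQ.deg, map_div₀, map_mul, map_pow, Complex.conj_ofReal]
    have h1 := hzf' θ
    have h2 : conj (Q.eval (z θ)) ≠ 0 := by rwa [Ne, map_eq_zero]
    have h3 := conj_mul_z θ
    calc conj (z θ) ^ (k + 1) * ((S θ - T0 k Q θ : ℝ) : ℂ) / conj (Q.eval (z θ)) *
        (z θ ^ (2 * k + 1 + 1) * conj (Q.eval (z θ)) / Q.eval (z θ)) =
        (conj (z θ) * z θ) ^ (k + 1) * (z θ ^ (k + 1) * ((S θ - T0 k Q θ : ℝ) : ℂ) /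
          Q.eval (z θ)) := by
          field_simp
          ring
      _ = _ := by rw [h3, one_pow, one_mul]
  -- the test function
  set g : ℂ → ℂ := fun w => ((‖1 + w‖ ^ (p - 2) : ℝ) : ℂ) * (1 + conj w) with hg
  have hgc : Continuous g := by
    have : Continuous fun w : ℂ => ((‖1 + w‖ ^ (p - 2) : ℝ) : ℂ) :=
      Complex.continuous_ofReal.comp (continuous_rp (by linarith) (by fun_prop))
    exact this.mul (by fun_prop)
  set F : T → ℂ := fun θ => a θ * g (u θ) with hF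
  have hFc : Continuous F := hac'.mul (hgc.comp huc)
  have hF0 : ∫ θ, F θ ∂m = 0 := int_a_g hQ.deg hzf hsym g hgc
  have hgn : ∀ θ, ‖g (u θ)‖ ≤ 2 ^ p := by
    intro θ
    have h2 := two_bound (hu1 θ)
    have h3 : ‖1 + conj (u θ)‖ = ‖1 + u θ‖ := by
      rw [← Complex.norm_conj (1 + u θ), map_add, map_one]
    rw [hg]; simp only
    rw [norm_mul, h3, Complex.norm_real, Real.norm_of_nonneg (by positivity)]
    calc ‖1 + u θ‖ ^ (p - 2) * ‖1 + u θ‖ ≤ 2 ^ (p - 2) * 2 := by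
          apply mul_le_mul _ h2 (norm_nonneg _) (by positivity)
          exact Real.rpow_le_rpow (norm_nonneg _) h2 (by linarith)
      _ ≤ 2 ^ (p - 2) * 2 ^ (2 : ℝ) := by
          apply mul_le_mul_of_nonneg_left _ (by positivity)
          norm_num
      _ = 2 ^ p := by
          rw [← Real.rpow_add (by norm_num)]; congr 1; ring
  have h4p : ((2 : ℝ) ^ p) ^ 2 = 4 ^ p := by
    rw [← Real.rpow_natCast, ← Real.rpow_mul (by norm_num), mul_comm, Real.rpow_mul (by norm_num)]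
    norm_num
  have h16 : (4 : ℝ) ^ p * 4 ^ p = 16 ^ p := by
    rw [← Real.mul_rpow (by norm_num) (by norm_num)]; norm_num
  have hFn : ∀ θ, ‖F θ‖ ^ 2 ≤ 4 ^ p * ‖a θ‖ ^ 2 := by
    intro θ
    rw [hF]; simp only
    rw [norm_mul, mul_pow, ← h4p, mul_comm]
    apply mul_le_mul_of_nonneg_right _ (by positivity)
    exact pow_le_pow_left₀ (norm_nonneg _) (hgn θ) 2
  -- the L² norm of a
  have e1 : ∀ θ, r θ ^ p * ‖a θ‖ ^ 2 = (E ^ 2)⁻¹ * (r θ ^ (p - 2) * ‖Λ.eval (z θ)‖ ^ 2) := by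
    intro θ
    rw [haΛ, hnr, ← rpow_two hp _ (hr0 θ).le]
    have := (hr0 θ).ne'
    field_simp
  have e2 : ∀ θ, ‖a θ‖ ^ 2 = (E ^ 2)⁻¹ * (‖Λ.eval (z θ)‖ ^ 2 / r θ ^ 2) := by
    intro θ
    rw [haΛ, hnr]
    have := (hr0 θ).ne'
    field_simp
  have hS1 : ∫ θ, r θ ^ p * ‖a θ‖ ^ 2 ∂μ = ∫ θ, ‖a θ‖ ^ 2 ∂m := by
    have h1 := hgood.id Λ Λ hΛd hΛd
    have h2 : ∀ θ, ((r θ ^ (p - 2) : ℝ) : ℂ) * (Λ.eval (z θ) * conj (Λ.eval (z θ))) =
        ((r θ ^ (p - 2) * ‖Λ.eval (z θ)‖ ^ 2 : ℝ) : ℂ) := by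
      intro θ
      rw [Complex.mul_conj, Complex.normSq_eq_norm_sq]; push_cast; ring
    have h3 : ∀ θ, (Λ.eval (z θ) * conj (Λ.eval (z θ))) / ((r θ ^ 2 : ℝ) : ℂ) =
        ((‖Λ.eval (z θ)‖ ^ 2 / r θ ^ 2 : ℝ) : ℂ) := by
      intro θ
      rw [Complex.mul_conj, Complex.normSq_eq_norm_sq]; push_cast; ring
    simp_rw [h2, h3] at h1
    rw [integral_complex_ofReal, integral_complex_ofReal] at h1
    have h4 := Complex.ofReal_injective h1
    simp_rw [e1, e2]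
    rw [integral_const_mul, integral_const_mul, h4]
  have hLp : Continuous fun θ => |L θ| ^ p := hLc.abs.rpow_const fun _ => Or.inr hp0.le
  have hSp : Continuous fun θ => |S θ| ^ p := hS.abs.rpow_const fun _ => Or.inr hp0.le
  have hT0p : Continuous fun θ => |T0 k Q θ| ^ p := hT0c.abs.rpow_const fun _ => Or.inr hp0.le
  have hLint : ∫ θ, |L θ| ^ p ∂μ ≤ 4 ^ p * e := by
    have h1 : ∫ θ, |L θ| ^ p ∂μ ≤
        ∫ θ, (2 ^ (p - 1) * |S θ| ^ p + 2 ^ (p - 1) * |T0 k Q θ| ^ p) ∂μ := by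
      apply integral_mono (cint hLp) (((cint hSp).const_mul _).add ((cint hT0p).const_mul _))
      intro θ
      change |L θ| ^ p ≤ 2 ^ (p - 1) * |S θ| ^ p + 2 ^ (p - 1) * |T0 k Q θ| ^ p
      have h2 : |L θ| ≤ |S θ| + |T0 k Q θ| := abs_sub _ _
      calc |L θ| ^ p ≤ (|S θ| + |T0 k Q θ|) ^ p :=
            Real.rpow_le_rpow (abs_nonneg _) h2 hp0.le
        _ ≤ 2 ^ (p - 1) * (|S θ| ^ p + |T0 k Q θ| ^ p) :=
            add_rpow_le2 (by linarith) (abs_nonneg _) (abs_nonneg _)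
        _ = _ := by ring
    rw [int_lin (cint hSp) (cint hT0p)] at h1
    have h8 : ∫ θ, |T0 k Q θ| ^ p ∂μ ≤ 2 ^ p * e := by
      rw [he, en, ← integral_const_mul]
      apply integral_mono (cint hT0p)
        ((cint (continuous_rp hp0.le (continuous_eval_z Q))).const_mul _)
      intro θ
      change |T0 k Q θ| ^ p ≤ 2 ^ p * ‖Q.eval (z θ)‖ ^ p
      rw [← Real.mul_rpow (by norm_num) (norm_nonneg _)]
      exact Real.rpow_le_rpow (abs_nonneg _) (T0_le θ) hp0.le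
    have h9 : (2 : ℝ) ^ (p - 1) * ∫ θ, |S θ| ^ p ∂μ ≤ 2 ^ (p - 1) * (2 ^ p * e) :=
      mul_le_mul_of_nonneg_left (by linarith) (by positivity)
    have h10 : (2 : ℝ) ^ (p - 1) * ∫ θ, |T0 k Q θ| ^ p ∂μ ≤ 2 ^ (p - 1) * (2 ^ p * e) :=
      mul_le_mul_of_nonneg_left h8 (by positivity)
    have h11 : (2 : ℝ) ^ (p - 1) * (2 ^ p * e) + 2 ^ (p - 1) * (2 ^ p * e) = 4 ^ p * e := by
      rw [← h4p, Real.rpow_sub_one (by norm_num)]; ring
    linarith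
  have hSb : ∫ θ, ‖a θ‖ ^ 2 ∂m ≤ 4 ^ p := by
    rw [← hS1]
    have h1 : ∫ θ, r θ ^ p * ‖a θ‖ ^ 2 ∂μ ≤
        ∫ θ, (2 / p / e * |L θ| ^ p + (1 - 2 / p) * r θ ^ p) ∂μ := by
      apply integral_mono (cint (by have := hrc p; fun_prop))
        (((cint hLp).const_mul _).add ((cint (hrc p)).const_mul _))
      intro θ
      change r θ ^ p * ‖a θ‖ ^ 2 ≤ 2 / p / e * |L θ| ^ p + (1 - 2 / p) * r θ ^ p
      have h2 : r θ ^ p * ‖a θ‖ ^ 2 = (|L θ| / E) ^ 2 * r θ ^ (p - 2) := by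
        rw [haL, hnr, ← rpow_two hp _ (hr0 θ).le]
        have := (hr0 θ).ne'
        field_simp
      rw [h2]
      refine (young2 hp (by positivity) (hr0 θ).le).trans (le_of_eq ?_)
      rw [Real.div_rpow (abs_nonneg _) hE0.le, hEp]
      ring
    rw [int_lin (cint hLp) (cint (hrc p)), hgood.one] at h1
    have h2 : 2 / p / e * ∫ θ, |L θ| ^ p ∂μ ≤ 2 / p / e * (4 ^ p * e) :=
      mul_le_mul_of_nonneg_left hLint (by positivity)
    have h3 : 2 / p / e * (4 ^ p * e) = 2 / p * 4 ^ p := by field_simp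
    have h4 : 2 / p ≤ 1 := by rw [div_le_one hp0]; exact hp
    have h5 : (1 : ℝ) ≤ 4 ^ p := Real.one_le_rpow (by norm_num) hp0.le
    nlinarith
  -- the bound for J
  have hJ : ‖∫ θ, ((r θ ^ p : ℝ) : ℂ) * F θ ∂μ‖ ≤ c * (16 ^ p + 2) := by
    have h1 := close_quad hG hac hgood hFc hc
    rw [hF0, sub_zero] at h1
    have h2 : ∫ θ, r θ ^ p * ‖F θ‖ ^ 2 ∂μ ≤ 16 ^ p := by
      have h3 : ∫ θ, r θ ^ p * ‖F θ‖ ^ 2 ∂μ ≤ ∫ θ, 4 ^ p * (r θ ^ p * ‖a θ‖ ^ 2) ∂μ := by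
        apply integral_mono (cint (by have := hrc p; fun_prop))
          (cint (by have := hrc p; fun_prop))
        intro θ
        change r θ ^ p * ‖F θ‖ ^ 2 ≤ 4 ^ p * (r θ ^ p * ‖a θ‖ ^ 2)
        have := mul_le_mul_of_nonneg_left (hFn θ) (Real.rpow_nonneg (hr0 θ).le p)
        linarith
      rw [integral_const_mul, hS1] at h3
      refine h3.trans ?_
      rw [← h16]
      exact mul_le_mul_of_nonneg_left hSb (by positivity)
    have h4 : ∫ θ, ‖F θ‖ ^ 2 ∂m ≤ 16 ^ p := by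
      have h3 : ∫ θ, ‖F θ‖ ^ 2 ∂m ≤ ∫ θ, 4 ^ p * ‖a θ‖ ^ 2 ∂m := by
        apply integral_mono (cint (by fun_prop)) (cint (by fun_prop))
        exact hFn
      rw [integral_const_mul] at h3
      refine h3.trans ?_
      rw [← h16]
      exact mul_le_mul_of_nonneg_left hSb (by positivity)
    have h5 : (2 * c)⁻¹ * DD μ p G r ≤ (2 * c)⁻¹ * (4 * c ^ 2) :=
      mul_le_mul_of_nonneg_left hD (by positivity)
    have h6 : (2 * c)⁻¹ * (4 * c ^ 2) = 2 * c := by field_simp; norm_num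
    have h7 : c / 2 * (∫ θ, r θ ^ p * ‖F θ‖ ^ 2 ∂μ + ∫ θ, ‖F θ‖ ^ 2 ∂m) ≤
        c / 2 * (16 ^ p + 16 ^ p) := mul_le_mul_of_nonneg_left (by linarith) (by positivity)
    linarith
  -- the duality identity
  have hdual : ∀ θ, ((|T0 k Q θ| ^ (p - 2) * (T0 k Q θ * L θ) : ℝ) : ℂ) =
      (e : ℂ) * (((r θ ^ p : ℝ) : ℂ) * F θ) := by
    intro θ
    have h1 : ((T0 k Q θ : ℝ) : ℂ) = z θ ^ (k + 1) * conj (Q.eval (z θ)) * (1 + conj (u θ)) := by
      have h2 := congrArg conj (T0_eq hQ.deg hzf θ)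
      rw [Complex.conj_ofReal, map_mul, map_mul, map_pow, Complex.conj_conj, map_add,
        map_one] at h2
      exact h2
    have h3 : ‖Q.eval (z θ)‖ ^ p = e * r θ ^ p := by
      rw [hnr, Real.mul_rpow hE0.le (hr0 θ).le, hEp]
    have h4 : ((e * r θ ^ p : ℝ) : ℂ) = ((‖Q.eval (z θ)‖ ^ (p - 2) : ℝ) : ℂ) *
        (Q.eval (z θ) * conj (Q.eval (z θ))) := by
      rw [← h3, ← rpow_two hp _ (norm_nonneg _), Complex.mul_conj, Complex.normSq_eq_norm_sq]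
      push_cast; ring
    have h5 : |T0 k Q θ| ^ (p - 2) = ‖Q.eval (z θ)‖ ^ (p - 2) * ‖1 + u θ‖ ^ (p - 2) := by
      rw [T0_norm hQ.deg hzf, Real.mul_rpow (norm_nonneg _) (norm_nonneg _)]
    have h6 : z θ ^ (k + 1) * ((L θ : ℝ) : ℂ) = a θ * Q.eval (z θ) := by
      rw [ha]; simp only
      rw [div_mul_cancel₀ _ (hzf' θ), hΛ]
    have h7 : (e : ℂ) * (((r θ ^ p : ℝ) : ℂ) * F θ) = ((e * r θ ^ p : ℝ) : ℂ) * F θ := by
      rw [Complex.ofReal_mul]; ring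
    rw [h7, h4, hF, hg]
    simp only
    rw [h5, Complex.ofReal_mul, Complex.ofReal_mul, Complex.ofReal_mul, h1]
    calc ((‖Q.eval (z θ)‖ ^ (p - 2) : ℝ) : ℂ) * ((‖1 + u θ‖ ^ (p - 2) : ℝ) : ℂ) *
        (z θ ^ (k + 1) * conj (Q.eval (z θ)) * (1 + conj (u θ)) * ((L θ : ℝ) : ℂ)) =
        ((‖Q.eval (z θ)‖ ^ (p - 2) : ℝ) : ℂ) * ((‖1 + u θ‖ ^ (p - 2) : ℝ) : ℂ) *
        (conj (Q.eval (z θ)) * (1 + conj (u θ)) * (z θ ^ (k + 1) * ((L θ : ℝ) : ℂ))) := by ring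
      _ = _ := by rw [h6]; ring
  have hTT : Continuous fun θ => |T0 k Q θ| ^ (p - 2) * (T0 k Q θ * L θ) :=
    (hT0c.abs.rpow_const fun _ => Or.inr (by linarith)).mul (by fun_prop)
  have hI : |∫ θ, |T0 k Q θ| ^ (p - 2) * (T0 k Q θ * L θ) ∂μ| ≤ e * (c * (16 ^ p + 2)) := by
    rw [← Real.norm_eq_abs, ← Complex.norm_real, ← integral_complex_ofReal]
    simp_rw [hdual]
    rw [integral_const_mul, norm_mul, Complex.norm_real, Real.norm_of_nonneg he0.le]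
    exact mul_le_mul_of_nonneg_left hJ he0.le
  have hfin : ∫ θ, (1 * |T0 k Q θ| ^ p + p * (|T0 k Q θ| ^ (p - 2) * (T0 k Q θ * L θ))) ∂μ ≤
      ∫ θ, |S θ| ^ p ∂μ := by
    apply integral_mono (((cint hT0p).const_mul _).add ((cint hTT).const_mul _)) (cint hSp)
    intro θ
    change 1 * |T0 k Q θ| ^ p + p * (|T0 k Q θ| ^ (p - 2) * (T0 k Q θ * L θ)) ≤ |S θ| ^ p
    have h1 := conv_ineq (p := p) (by linarith) ((T0 k Q θ : ℝ) : ℂ) ((L θ : ℝ) : ℂ)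
    rw [← Complex.ofReal_add, Complex.norm_real, Complex.norm_real, Real.norm_eq_abs,
      Real.norm_eq_abs, Complex.conj_ofReal, ← Complex.ofReal_mul, Complex.ofReal_re] at h1
    have h2 : T0 k Q θ + L θ = S θ := by rw [hL]; ring
    rw [h2] at h1
    linarith
  rw [int_lin (cint hT0p) (cint hTT)] at hfin
  have h1 := (abs_le.1 hI).1
  have h2 : p * (-(e * (c * (16 ^ p + 2)))) ≤
      p * ∫ θ, |T0 k Q θ| ^ (p - 2) * (T0 k Q θ * L θ) ∂μ :=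
    mul_le_mul_of_nonneg_left h1 hp0.le
  linarith

end H44.Rat
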