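import Pool.Agent.H44.Rat.Basic

/-!
# Extremal polynomials in `L^p` on the unit circle
-/

open MeasureTheory Polynomial Complex Filter Topology Real Set
open scoped ComplexConjugate ENNReal

namespace H44.Rat

variable {μ : Measure T} [IsFiniteMeasure μ]

lemma cint {E : Type*} [NormedAddCommGroup E] {f : T → E} (hf : Continuous f) :
    Integrable f μ :=
  hf.integrable_of_hasCompactSupport (HasCompactSupport.of_compactSpace f)

/-- No nonzero polynomial vanishes almost everywhere. -/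
def ND (μ : Measure T) : Prop := ∀ P : ℂ[X], (∀ᵐ θ ∂μ, P.eval (z θ) = 0) → P = 0

/-- `Q` is an extremal polynomial of degree at most `n` for `(μ, p)`. -/
structure IsExt (μ : Measure T) (p : ℝ) (n : ℕ) (Q : ℂ[X]) : Prop where
  deg : Q.natDegree ≤ n
  zero : Q.eval 0 = 1
  min : ∀ R : ℂ[X], R.natDegree ≤ n → R.eval 0 = 1 →
    ∫ θ, ‖Q.eval (z θ)‖ ^ p ∂μ ≤ ∫ θ, ‖R.eval (z θ)‖ ^ p ∂μ

lemma bern {p : ℝ} (hp : 1 ≤ p) {x s : ℝ} (hx : 0 ≤ x) (hs : 0 ≤ s) :
    x ^ p + p * x ^ (p - 1) * (s - x) ≤ s ^ p := by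
  rcases hx.eq_or_lt with rfl | hx
  · rcases hp.eq_or_lt with rfl | hp
    · simp
    · rw [Real.zero_rpow (by linarith), Real.zero_rpow (by linarith)]
      simpa using Real.rpow_nonneg hs p
  · have h := one_add_mul_self_le_rpow_one_add (s := s / x - 1) (p := p)
      (by have : 0 ≤ s / x := by positivity
          linarith) hp
    rw [add_sub_cancel, Real.div_rpow hs hx.le, le_div_iff₀ (by positivity)] at h
    have h2 : x ^ p = x ^ (p - 1) * x := by
      rw [← Real.rpow_add_one hx.ne']; ring_nf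
    calc x ^ p + p * x ^ (p - 1) * (s - x) = (1 + p * (s / x - 1)) * x ^ p := by
          rw [h2]; field_simp
      _ ≤ s ^ p := h

lemma conv_ineq {p : ℝ} (hp : 1 ≤ p) (a b : ℂ) :
    ‖a‖ ^ p + p * (‖a‖ ^ (p - 2) * (conj a * b).re) ≤ ‖a + b‖ ^ p := by
  by_cases ha : a = 0
  · subst ha
    rw [norm_zero, Real.zero_rpow (by linarith)]
    simp only [map_zero, zero_mul, zero_re, mul_zero, add_zero, zero_add]
    positivity
  · have hx : 0 < ‖a‖ := norm_pos_iff.2 ha
    have h := bern hp hx.le (norm_nonneg (a + b))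
    have h1 : (conj a * (a + b)).re ≤ ‖a‖ * ‖a + b‖ := by
      calc (conj a * (a + b)).re ≤ ‖conj a * (a + b)‖ := Complex.re_le_norm _
        _ = ‖a‖ * ‖a + b‖ := by rw [norm_mul, Complex.norm_conj]
    have h2 : (conj a * (a + b)).re = ‖a‖ ^ 2 + (conj a * b).re := by
      rw [mul_add, Complex.add_re]
      congr 1
      rw [mul_comm, Complex.mul_conj, Complex.normSq_eq_norm_sq, Complex.ofReal_re]
    have h3 : ‖a‖ ^ (p - 1) = ‖a‖ ^ (p - 2) * ‖a‖ := by
      rw [← Real.rpow_add_one hx.ne']; ring_nf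
    have h4 : 0 ≤ ‖a‖ ^ (p - 2) := by positivity
    have h5 : p * ‖a‖ ^ (p - 2) * (‖a‖ ^ 2 + (conj a * b).re) ≤
        p * ‖a‖ ^ (p - 2) * (‖a‖ * ‖a + b‖) := by
      apply mul_le_mul_of_nonneg_left _ (by positivity)
      rw [← h2]; exact h1
    calc ‖a‖ ^ p + p * (‖a‖ ^ (p - 2) * (conj a * b).re)
        ≤ ‖a‖ ^ p + p * ‖a‖ ^ (p - 1) * (‖a + b‖ - ‖a‖) := by
          rw [h3]; nlinarith [h5]
      _ ≤ _ := h

lemma rpow_two {p : ℝ} (hp : 2 ≤ p) (x : ℝ) (hx : 0 ≤ x) : x ^ (p - 2) * x ^ 2 = x ^ p := by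
  rcases hx.eq_or_lt with rfl | hx
  · rw [Real.zero_rpow (by linarith : p ≠ 0)]; simp
  · rw [← Real.rpow_natCast x 2, ← Real.rpow_add hx]
    norm_num

@[fun_prop]
lemma continuous_eval_z (Q : ℂ[X]) : Continuous fun θ => Q.eval (z θ) :=
  Q.continuous.comp continuous_z

lemma continuous_rp {X : Type*} [TopologicalSpace X] {p : ℝ} (hp : 0 ≤ p) {f : X → ℂ}
    (hf : Continuous f) :
    Continuous fun θ => ‖f θ‖ ^ p :=
  hf.norm.rpow_const fun _ => Or.inr hp

/-- The first order condition. -/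
lemma first_order {p : ℝ} (hp : 2 ≤ p) {n : ℕ} {Q : ℂ[X]} (hQ : IsExt μ p n Q) {h : ℂ[X]}
    (hd : h.natDegree ≤ n) (h0 : h.eval 0 = 0) :
    ∫ θ, ((‖Q.eval (z θ)‖ ^ (p - 2) : ℝ) : ℂ) * (conj (Q.eval (z θ)) * h.eval (z θ)) ∂μ = 0 := by
  -- real part inequality
  have key : ∀ h : ℂ[X], h.natDegree ≤ n → h.eval 0 = 0 →
      0 ≤ ∫ θ, ‖Q.eval (z θ)‖ ^ (p - 2) * (conj (Q.eval (z θ)) * h.eval (z θ)).re ∂μ := by
    intro h hd h0
    set F : ℝ → ℝ := fun t => ∫ θ, ‖Q.eval (z θ) + t * h.eval (z θ)‖ ^ (p - 2) *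
      (conj (Q.eval (z θ) + t * h.eval (z θ)) * h.eval (z θ)).re ∂μ with hF
    have hFc : Continuous F := by
      have := continuous_parametric_integral_of_continuous (μ := μ) (X := ℝ)
        (f := fun (t : ℝ) (θ : T) => ‖Q.eval (z θ) + t * h.eval (z θ)‖ ^ (p - 2) *
          (conj (Q.eval (z θ) + t * h.eval (z θ)) * h.eval (z θ)).re) (s := univ) (by
          apply Continuous.mul
          · apply continuous_rp (by linarith)
            have := (continuous_eval_z Q).comp (continuous_snd (X := ℝ) (Y := T))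
            have := (continuous_eval_z h).comp (continuous_snd (X := ℝ) (Y := T))
            fun_prop
          · have := (continuous_eval_z Q).comp (continuous_snd (X := ℝ) (Y := T))
            have := (continuous_eval_z h).comp (continuous_snd (X := ℝ) (Y := T))
            fun_prop) isCompact_univ
      simp only [Measure.restrict_univ] at this
      exact this
    have hpos : ∀ t : ℝ, 0 < t → 0 ≤ F t := by
      intro t ht
      have h1 : ∫ θ, ‖Q.eval (z θ)‖ ^ p ∂μ ≤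
          ∫ θ, ‖Q.eval (z θ) + t * h.eval (z θ)‖ ^ p ∂μ := by
        have := hQ.min (Q + C (t : ℂ) * h) (by
          refine (natDegree_add_le _ _).trans (max_le hQ.deg ?_)
          exact (natDegree_C_mul_le _ _).trans hd) (by simp [hQ.zero, h0])
        simpa using this
      have h2 : ∫ θ, (‖Q.eval (z θ) + t * h.eval (z θ)‖ ^ p - p * t * (
          ‖Q.eval (z θ) + t * h.eval (z θ)‖ ^ (p - 2) *
          (conj (Q.eval (z θ) + t * h.eval (z θ)) * h.eval (z θ)).re)) ∂μ ≤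
          ∫ θ, ‖Q.eval (z θ)‖ ^ p ∂μ := by
        apply integral_mono
        · apply cint
          apply Continuous.sub
          · exact continuous_rp (by linarith) (by fun_prop)
          · apply Continuous.mul continuous_const
            exact (continuous_rp (by linarith) (by fun_prop)).mul (by fun_prop)
        · exact cint (continuous_rp (by linarith) (by fun_prop))
        · intro θ
          have := conv_ineq (p := p) (by linarith) (Q.eval (z θ) + t * h.eval (z θ))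
            (-(t * h.eval (z θ)))
          rw [add_neg_cancel_right] at this
          refine le_trans (le_of_eq ?_) this
          have e1 : (conj (Q.eval (z θ) + t * h.eval (z θ)) * -(t * h.eval (z θ))).re =
            - (t * (conj (Q.eval (z θ) + t * h.eval (z θ)) * h.eval (z θ)).re) := by
            rw [← Complex.re_ofReal_mul, ← Complex.neg_re]
            congr 1; ring
          rw [e1]; ring
      rw [integral_sub, integral_const_mul] at h2
      · have h3 : 0 ≤ p * t * F t := by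
          simp only [hF]
          linarith
        have h4 : 0 < p * t := by positivity
        exact nonneg_of_mul_nonneg_right h3 h4
      · exact cint (continuous_rp (by linarith) (by fun_prop))
      · apply cint
        apply Continuous.mul continuous_const
        exact (continuous_rp (by linarith) (by fun_prop)).mul (by fun_prop)
    have hlim : Tendsto F (𝓝[>] 0) (𝓝 (F 0)) := hFc.continuousAt.tendsto.mono_left
      nhdsWithin_le_nhds
    have h0' : 0 ≤ F 0 := by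
      refine ge_of_tendsto hlim ?_
      filter_upwards [self_mem_nhdsWithin] with t ht using hpos t ht
    simpa [hF] using h0'
  set J : ℂ := ∫ θ, ((‖Q.eval (z θ)‖ ^ (p - 2) : ℝ) : ℂ) *
    (conj (Q.eval (z θ)) * h.eval (z θ)) ∂μ with hJ
  have hgen : ∀ c : ℂ, 0 ≤ (c * J).re := by
    intro c
    have := key (C c * h) ((natDegree_C_mul_le _ _).trans hd) (by simp [h0])
    have hi : Integrable (fun θ => c * (((‖Q.eval (z θ)‖ ^ (p - 2) : ℝ) : ℂ) *
        (conj (Q.eval (z θ)) * h.eval (z θ)))) μ := by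
      apply cint
      apply Continuous.mul continuous_const
      exact (Complex.continuous_ofReal.comp (continuous_rp (by linarith)
        (continuous_eval_z Q))).mul (by fun_prop)
    rw [hJ, ← integral_const_mul, ← RCLike.re_eq_complex_re, ← integral_re hi]
    refine this.trans (le_of_eq ?_)
    congr 1
    funext θ
    rw [RCLike.re_eq_complex_re, ← Complex.re_ofReal_mul]
    congr 1
    simp only [eval_mul, eval_C]
    ring
  have h1 := hgen (-conj J)
  have h2 : (-conj J * J).re = - ‖J‖ ^ 2 := by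
    rw [neg_mul, Complex.neg_re, mul_comm, Complex.mul_conj, Complex.normSq_eq_norm_sq,
      Complex.ofReal_re]
  rw [h2] at h1
  have : ‖J‖ = 0 := by nlinarith [norm_nonneg J]
  exact norm_eq_zero.1 this

/-- The reproducing property. -/
lemma repr {p : ℝ} (hp : 2 ≤ p) {n : ℕ} {Q : ℂ[X]} (hQ : IsExt μ p n Q) {h : ℂ[X]}
    (hd : h.natDegree ≤ n) :
    ∫ θ, ((‖Q.eval (z θ)‖ ^ (p - 2) : ℝ) : ℂ) * (conj (Q.eval (z θ)) * h.eval (z θ)) ∂μ =
      h.eval 0 * ((∫ θ, ‖Q.eval (z θ)‖ ^ p ∂μ : ℝ) : ℂ) := by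
  have h1 := first_order hp hQ (h := h - C (h.eval 0) * Q) (by
    refine (natDegree_sub_le _ _).trans (max_le hd ?_)
    exact (natDegree_C_mul_le _ _).trans hQ.deg) (by simp [hQ.zero])
  have hc : ∀ g : ℂ[X], Integrable (fun θ => ((‖Q.eval (z θ)‖ ^ (p - 2) : ℝ) : ℂ) *
      (conj (Q.eval (z θ)) * g.eval (z θ))) μ := by
    intro g
    apply cint
    exact (Complex.continuous_ofReal.comp (continuous_rp (by linarith)
        (continuous_eval_z Q))).mul (by fun_prop)
  have h2 : ∀ θ, ((‖Q.eval (z θ)‖ ^ (p - 2) : ℝ) : ℂ) *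
      (conj (Q.eval (z θ)) * (h - C (h.eval 0) * Q).eval (z θ)) =
      ((‖Q.eval (z θ)‖ ^ (p - 2) : ℝ) : ℂ) * (conj (Q.eval (z θ)) * h.eval (z θ)) -
      h.eval 0 * (((‖Q.eval (z θ)‖ ^ (p - 2) : ℝ) : ℂ) *
        (conj (Q.eval (z θ)) * Q.eval (z θ))) := by
    intro θ
    simp only [eval_sub, eval_mul, eval_C]
    ring
  simp_rw [h2] at h1
  rw [integral_sub (hc h) ((hc Q).const_mul _), integral_const_mul, sub_eq_zero] at h1
  rw [h1]
  congr 1
  rw [← integral_complex_ofReal]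
  congr 1
  funext θ
  rw [← rpow_two hp _ (norm_nonneg _)]
  rw [mul_comm (conj _), Complex.mul_conj, Complex.normSq_eq_norm_sq]
  push_cast
  ring

/-- Zeros are outside the closed disc. -/
lemma zero_free {p : ℝ} (hp : 2 ≤ p) (hμ : ND μ) {n : ℕ} {Q : ℂ[X]} (hQ : IsExt μ p n Q)
    {w : ℂ} (hw : ‖w‖ ≤ 1) : Q.eval w ≠ 0 := by
  intro hroot
  have hQ0 : Q ≠ 0 := by
    rintro rfl
    have := hQ.zero
    simp at this
  obtain ⟨R, hR⟩ := dvd_iff_isRoot.2 hroot
  have hR0 : R ≠ 0 := by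
    rintro rfl
    exact hQ0 (by rw [hR, mul_zero])
  have hdR : (X * R).natDegree ≤ n := by
    have h1 : Q.natDegree = 1 + R.natDegree := by
      rw [hR, natDegree_mul (X_sub_C_ne_zero w) hR0, natDegree_X_sub_C]
    rw [natDegree_X_mul hR0]
    have := hQ.deg
    omega
  have h1 := first_order hp hQ hdR (by simp)
  have hpt : ∀ θ, ((‖Q.eval (z θ)‖ ^ (p - 2) : ℝ) : ℂ) *
      (conj (Q.eval (z θ)) * (X * R).eval (z θ)) =
      ((‖Q.eval (z θ)‖ ^ (p - 2) * ‖R.eval (z θ)‖ ^ 2 : ℝ) : ℂ) * (1 - conj w * z θ) := by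
    intro θ
    have e1 : (Q.eval (z θ)) = (z θ - w) * R.eval (z θ) := by
      conv_lhs => rw [hR]
      simp
    have e2 : conj ((z θ - w) * R.eval (z θ)) * (z θ * R.eval (z θ)) =
      (conj (z θ) * z θ - conj w * z θ) * (R.eval (z θ) * conj (R.eval (z θ))) := by
      simp only [map_mul, map_sub]
      ring
    conv_lhs => rw [eval_mul, eval_X]
    rw [show conj (Q.eval (z θ)) = conj ((z θ - w) * R.eval (z θ)) by rw [← e1], e2, conj_mul_z,
      Complex.mul_conj, Complex.normSq_eq_norm_sq]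
    push_cast
    ring
  simp_rw [hpt] at h1
  have hc : Continuous fun θ => ‖Q.eval (z θ)‖ ^ (p - 2) * ‖R.eval (z θ)‖ ^ 2 :=
    (continuous_rp (by linarith) (continuous_eval_z Q)).mul (by fun_prop)
  have hi : Integrable (fun θ => ((‖Q.eval (z θ)‖ ^ (p - 2) * ‖R.eval (z θ)‖ ^ 2 : ℝ) : ℂ) *
      (1 - conj w * z θ)) μ := by
    apply cint
    exact (Complex.continuous_ofReal.comp hc).mul (by fun_prop)
  have h2 : ∫ θ, (‖Q.eval (z θ)‖ ^ (p - 2) * ‖R.eval (z θ)‖ ^ 2) * (1 - conj w * z θ).re ∂μ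
      = 0 := by
    have := congrArg Complex.re h1
    rw [← RCLike.re_eq_complex_re, ← integral_re hi] at this
    simpa only [RCLike.re_eq_complex_re, Complex.re_ofReal_mul, Complex.zero_re] using this
  have hre : ∀ θ, (conj w * z θ).re ≤ 1 := by
    intro θ
    calc (conj w * z θ).re ≤ ‖conj w * z θ‖ := Complex.re_le_norm _
      _ = ‖w‖ := by rw [norm_mul, Complex.norm_conj, z_norm, mul_one]
      _ ≤ 1 := hw
  have hnn : ∀ θ, 0 ≤ (‖Q.eval (z θ)‖ ^ (p - 2) * ‖R.eval (z θ)‖ ^ 2) *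
      (1 - conj w * z θ).re := by
    intro θ
    have := hre θ
    rw [Complex.sub_re, Complex.one_re]
    have : 0 ≤ 1 - (conj w * z θ).re := by linarith
    positivity
  rw [integral_eq_zero_iff_of_nonneg hnn (cint (hc.mul (by fun_prop)))] at h2
  apply hQ0
  apply hμ
  filter_upwards [h2] with θ hθ
  simp only [Pi.zero_apply, mul_eq_zero] at hθ
  have e1 : (Q.eval (z θ)) = (z θ - w) * R.eval (z θ) := by
      conv_lhs => rw [hR]
      simp
  rcases hθ with (h | h) | h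
  · have := (Real.rpow_eq_zero_iff_of_nonneg (norm_nonneg _)).1 h
    exact norm_eq_zero.1 this.1
  · rw [e1]
    have : R.eval (z θ) = 0 := by simpa using h
    rw [this, mul_zero]
  · have h3 : (conj w * z θ).re = 1 := by
      rw [Complex.sub_re, Complex.one_re] at h; linarith
    have h4 : ‖z θ - w‖ ^ 2 ≤ 0 := by
      rw [← Complex.normSq_eq_norm_sq, Complex.normSq_sub, Complex.normSq_eq_norm_sq,
        Complex.normSq_eq_norm_sq, z_norm, mul_comm (z θ), h3]
      nlinarith [norm_nonneg w]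
    have h5 : z θ - w = 0 := by
      have : ‖z θ - w‖ = 0 := by nlinarith [norm_nonneg (z θ - w)]
      exact norm_eq_zero.1 this
    rw [e1, h5, zero_mul]

/-- Mean value of `h / Q`. -/
lemma mean_div {Q h : ℂ[X]} (hQ : ∀ w : ℂ, ‖w‖ ≤ 1 → Q.eval w ≠ 0) :
    ∫ θ, h.eval (z θ) / Q.eval (z θ) ∂m = h.eval 0 / Q.eval 0 :=
  mean_value (F := fun w => h.eval w / Q.eval w) fun w hw =>
    (h.differentiable w).div (Q.differentiable w) (hQ w hw)

lemma rev_ne_zero {n : ℕ} {Q : ℂ[X]} (hd : Q.natDegree ≤ n)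
    (hQ : ∀ w : ℂ, ‖w‖ ≤ 1 → Q.eval w ≠ 0) {w : ℂ} (hw : 1 ≤ ‖w‖) : (rev n Q).eval w ≠ 0 := by
  have hw0 : w ≠ 0 := by
    rintro rfl
    simp at hw
    linarith
  rw [eval_rev hd hw0]
  apply mul_ne_zero (pow_ne_zero _ hw0)
  rw [Ne, map_eq_zero]
  apply hQ
  rw [Complex.norm_conj, norm_inv]
  exact inv_le_one_of_one_le₀ hw

lemma rev_monic {n : ℕ} {Q : ℂ[X]} (hd : Q.natDegree ≤ n) (h0 : Q.eval 0 = 1) :
    (rev n Q).Monic := by
  apply monic_of_natDegree_le_of_coeff_eq_one n (natDegree_rev_le hd)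
  rw [coeff_rev Q le_rfl, Nat.sub_self, coeff_zero_eq_eval_zero, h0, map_one]

lemma rev_natDegree {n : ℕ} {Q : ℂ[X]} (hd : Q.natDegree ≤ n) (h0 : Q.eval 0 = 1) :
    (rev n Q).natDegree = n := by
  apply le_antisymm (natDegree_rev_le hd)
  apply le_natDegree_of_ne_zero
  rw [coeff_rev Q le_rfl, Nat.sub_self, coeff_zero_eq_eval_zero, h0, map_one]
  exact one_ne_zero

/-- Bezout representation with degree control. -/
lemma bezout {n : ℕ} {Q : ℂ[X]} (hd : Q.natDegree ≤ n) (h0 : Q.eval 0 = 1)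
    (hQ : ∀ w : ℂ, ‖w‖ ≤ 1 → Q.eval w ≠ 0) (F : ℂ[X]) (hF : F.natDegree ≤ 2 * n) :
    ∃ h g : ℂ[X], h.natDegree ≤ n ∧ g.natDegree ≤ n ∧ F = h * rev n Q + g * Q := by
  set P := rev n Q with hP
  have hPm : P.Monic := rev_monic hd h0
  have hPd : P.natDegree = n := rev_natDegree hd h0
  have hco : IsCoprime P Q := by
    rw [Polynomial.isCoprime_iff_aeval_ne_zero_of_isAlgClosed ℂ ℂ]
    intro w
    rcases le_total ‖w‖ 1 with h | h
    · right; simpa using hQ w h
    · left; simpa using rev_ne_zero hd hQ h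
  obtain ⟨u, v, huv⟩ := hco
  set g := (F * v) %ₘ P with hg
  set s := (F * v) /ₘ P with hs
  have hgs : g + P * s = F * v := modByMonic_add_div (F * v) P
  have hgd : g.natDegree ≤ n := by
    rw [← hPd]
    exact natDegree_modByMonic_le _ hPm
  refine ⟨F * u + s * Q, g, ?_, hgd, ?_⟩
  · by_cases hh : F * u + s * Q = 0
    · rw [hh]; simp
    · have e1 : (F * u + s * Q) * P = F - g * Q := by
        calc (F * u + s * Q) * P = F * (u * P + v * Q) - (F * v - P * s) * Q := by ring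
          _ = F - g * Q := by rw [huv, ← hgs]; ring
      have e2 : ((F * u + s * Q) * P).natDegree ≤ 2 * n := by
        rw [e1]
        refine (natDegree_sub_le _ _).trans (max_le hF ?_)
        refine natDegree_mul_le.trans ?_
        omega
      rw [mul_comm, hPm.natDegree_mul' hh, hPd] at e2
      omega
  · calc F = F * (u * P + v * Q) := by rw [huv, mul_one]
      _ = (F * u) * P + (F * v) * Q := by ring
      _ = _ := by rw [← hgs]; ring

lemma conj_integral' {ν : Measure T} (f : T → ℂ) :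
    ∫ θ, conj (f θ) ∂ν = conj (∫ θ, f θ ∂ν) := integral_conj

/-- The main identity. -/
lemma ident {p : ℝ} (hp : 2 ≤ p) (hμ : ND μ) {n : ℕ} {Q : ℂ[X]} (hQ : IsExt μ p n Q)
    {A B : ℂ[X]} (hA : A.natDegree ≤ n) (hB : B.natDegree ≤ n) :
    ∫ θ, ((‖Q.eval (z θ)‖ ^ (p - 2) : ℝ) : ℂ) * (A.eval (z θ) * conj (B.eval (z θ))) ∂μ =
      ((∫ θ, ‖Q.eval (z θ)‖ ^ p ∂μ : ℝ) : ℂ) *
      ∫ θ, (A.eval (z θ) * conj (B.eval (z θ))) / ((‖Q.eval (z θ)‖ ^ 2 : ℝ) : ℂ) ∂m := by
  set e : ℂ := ((∫ θ, ‖Q.eval (z θ)‖ ^ p ∂μ : ℝ) : ℂ) with he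
  have hzf : ∀ w : ℂ, ‖w‖ ≤ 1 → Q.eval w ≠ 0 := fun w hw => zero_free hp hμ hQ hw
  have hzf' : ∀ θ, Q.eval (z θ) ≠ 0 := fun θ => hzf _ (z_norm θ).le
  have hsq : ∀ θ, ((‖Q.eval (z θ)‖ ^ 2 : ℝ) : ℂ) = Q.eval (z θ) * conj (Q.eval (z θ)) := by
    intro θ
    rw [Complex.mul_conj, Complex.normSq_eq_norm_sq]
  have hcw : Continuous fun θ => ((‖Q.eval (z θ)‖ ^ (p - 2) : ℝ) : ℂ) :=
    Complex.continuous_ofReal.comp (continuous_rp (by linarith) (continuous_eval_z Q))
  -- statement for Laurent polynomials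
  have S1 : ∀ h : ℂ[X], h.natDegree ≤ n →
      ∫ θ, ((‖Q.eval (z θ)‖ ^ (p - 2) : ℝ) : ℂ) *
        (conj (z θ) ^ n * (h * rev n Q).eval (z θ)) ∂μ =
      e * ∫ θ, (conj (z θ) ^ n * (h * rev n Q).eval (z θ)) /
        ((‖Q.eval (z θ)‖ ^ 2 : ℝ) : ℂ) ∂m := by
    intro h hh
    have e1 : ∀ θ, conj (z θ) ^ n * (h * rev n Q).eval (z θ) =
        conj (Q.eval (z θ)) * h.eval (z θ) := by
      intro θ
      rw [eval_mul, eval_rev_z hQ.deg]
      calc conj (z θ) ^ n * (h.eval (z θ) * (z θ ^ n * conj (Q.eval (z θ)))) =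
          (conj (z θ) * z θ) ^ n * (conj (Q.eval (z θ)) * h.eval (z θ)) := by
            rw [mul_pow]; ring
        _ = _ := by rw [conj_mul_z]; simp
    simp_rw [e1]
    rw [repr hp hQ hh]
    have e2 : ∀ θ, conj (Q.eval (z θ)) * h.eval (z θ) / ((‖Q.eval (z θ)‖ ^ 2 : ℝ) : ℂ) =
        h.eval (z θ) / Q.eval (z θ) := by
      intro θ
      rw [hsq]
      have h1 := hzf' θ
      have h2 : conj (Q.eval (z θ)) ≠ 0 := by rwa [Ne, map_eq_zero]
      field_simp
    simp_rw [e2]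
    rw [mean_div hzf, hQ.zero, div_one, mul_comm]
  have S2 : ∀ g : ℂ[X], g.natDegree ≤ n →
      ∫ θ, ((‖Q.eval (z θ)‖ ^ (p - 2) : ℝ) : ℂ) *
        (conj (z θ) ^ n * (g * Q).eval (z θ)) ∂μ =
      e * ∫ θ, (conj (z θ) ^ n * (g * Q).eval (z θ)) /
        ((‖Q.eval (z θ)‖ ^ 2 : ℝ) : ℂ) ∂m := by
    intro g hg
    have hr := natDegree_rev_le hg
    have e1 : ∀ θ, conj (z θ) ^ n * (g * Q).eval (z θ) =
        conj (conj (Q.eval (z θ)) * (rev n g).eval (z θ)) := by
      intro θ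
      rw [eval_mul, eval_rev_z hg]
      simp only [map_mul, map_pow, Complex.conj_conj]
      ring
    simp_rw [e1]
    have e2 : ∀ θ, ((‖Q.eval (z θ)‖ ^ (p - 2) : ℝ) : ℂ) *
        conj (conj (Q.eval (z θ)) * (rev n g).eval (z θ)) =
        conj (((‖Q.eval (z θ)‖ ^ (p - 2) : ℝ) : ℂ) *
          (conj (Q.eval (z θ)) * (rev n g).eval (z θ))) := by
      intro θ
      rw [map_mul (starRingEnd ℂ) ((‖Q.eval (z θ)‖ ^ (p - 2) : ℝ) : ℂ), Complex.conj_ofReal]
    have e3 : ∀ θ, conj (conj (Q.eval (z θ)) * (rev n g).eval (z θ)) /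
        ((‖Q.eval (z θ)‖ ^ 2 : ℝ) : ℂ) = conj ((rev n g).eval (z θ) / Q.eval (z θ)) := by
      intro θ
      rw [hsq]
      have h1 := hzf' θ
      have h2 : conj (Q.eval (z θ)) ≠ 0 := by rwa [Ne, map_eq_zero]
      simp only [map_mul, map_div₀, Complex.conj_conj]
      field_simp
    simp_rw [e2, e3]
    rw [conj_integral', conj_integral', repr hp hQ hr, mean_div hzf, hQ.zero, div_one, ← he,
      map_mul, mul_comm]
    congr 1
    rw [he, Complex.conj_ofReal]
  have hAB : (A * rev n B).natDegree ≤ 2 * n := by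
    refine natDegree_mul_le.trans ?_
    have := natDegree_rev_le hB
    omega
  obtain ⟨h, g, hh, hg, hF⟩ := bezout hQ.deg hQ.zero hzf (A * rev n B) hAB
  have e0 : ∀ θ, A.eval (z θ) * conj (B.eval (z θ)) =
      conj (z θ) ^ n * (h * rev n Q).eval (z θ) + conj (z θ) ^ n * (g * Q).eval (z θ) := by
    intro θ
    rw [← mul_add, ← eval_add, ← hF, eval_mul, eval_rev_z hB]
    calc A.eval (z θ) * conj (B.eval (z θ)) =
        (conj (z θ) * z θ) ^ n * (A.eval (z θ) * conj (B.eval (z θ))) := by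
          rw [conj_mul_z]; simp
      _ = _ := by rw [mul_pow]; ring
  have hcd : ∀ R : ℂ[X], Continuous fun θ => (conj (z θ) ^ n * R.eval (z θ)) /
      ((‖Q.eval (z θ)‖ ^ 2 : ℝ) : ℂ) := by
    intro R
    apply Continuous.div (by fun_prop) (by fun_prop)
    intro θ
    rw [hsq]
    have h1 := hzf' θ
    have h2 : conj (Q.eval (z θ)) ≠ 0 := by rwa [Ne, map_eq_zero]
    exact mul_ne_zero h1 h2
  simp_rw [e0, mul_add, add_div]
  rw [integral_add, integral_add, S1 h hh, S2 g hg, mul_add]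
  · exact cint (hcd _)
  · exact cint (hcd _)
  · exact cint (hcw.mul (by fun_prop))
  · exact cint (hcw.mul (by fun_prop))

/-- Extremal polynomials exist. -/
lemma exists_ext (μ : Measure T) [IsFiniteMeasure μ] {p : ℝ} (hp : 2 ≤ p) (n : ℕ) :
    ∃ Q, IsExt μ p n Q := by
  set q : ℝ≥0∞ := ENNReal.ofReal p with hq
  have : Fact (1 ≤ q) := ⟨by
    rw [hq, ← ENNReal.ofReal_one]
    exact ENNReal.ofReal_le_ofReal (by linarith)⟩
  have hqr : q.toReal = p := ENNReal.toReal_ofReal (by linarith)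
  have hq0 : q ≠ 0 := by
    rw [hq, Ne, ENNReal.ofReal_eq_zero]; linarith
  have hqt : q ≠ ∞ := ENNReal.ofReal_ne_top
  let L : ℂ[X] →ₗ[ℂ] Lp ℂ q μ :=
    (ContinuousMap.toLp (E := ℂ) q μ ℂ).toLinearMap ∘ₗ (Polynomial.toAddCircle).toLinearMap
  have hLz : ∀ P : ℂ[X], (L P : T → ℂ) =ᵐ[μ] fun θ => P.eval (z θ) := by
    intro P
    have h1 : (ContinuousMap.toLp (E := ℂ) q μ ℂ (Polynomial.toAddCircle P) : T → ℂ) =ᵐ[μ]
      (Polynomial.toAddCircle P : T → ℂ) := ContinuousMap.coeFn_toLp (𝕜 := ℂ) μ _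
    refine h1.trans (Eventually.of_forall fun θ => ?_)
    simp only [Polynomial.toAddCircle]
    have h2 := Polynomial.aeval_continuousMap_apply P
      ({ toFun := fun c => (c.toCircle : ℂ) } : C(T, ℂ)) θ
    rw [h2]
    simp [z]
  have hLn : ∀ P : ℂ[X], ‖L P‖ ^ p = ∫ θ, ‖P.eval (z θ)‖ ^ p ∂μ := by
    intro P
    have hm : MemLp (fun θ => P.eval (z θ)) q μ :=
      (memLp_congr_ae (hLz P)).1 (Lp.memLp (L P))
    rw [Lp.norm_def, eLpNorm_congr_ae (hLz P), hm.eLpNorm_eq_integral_rpow_norm hq0 hqt,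
      hqr, ENNReal.toReal_ofReal (by positivity), ← Real.rpow_mul (by positivity),
      inv_mul_cancel₀ (by linarith), Real.rpow_one]
  let V : Submodule ℂ (Lp ℂ q μ) :=
    (Polynomial.degreeLT ℂ n).map (L ∘ₗ (LinearMap.mulLeft ℂ (X : ℂ[X])))
  have : FiniteDimensional ℂ (Polynomial.degreeLT ℂ n) :=
    Module.Finite.equiv (Polynomial.degreeLTEquiv ℂ n).symm
  have : FiniteDimensional ℂ V := inferInstanceAs (FiniteDimensional ℂ
    ((Polynomial.degreeLT ℂ n).map (L ∘ₗ (LinearMap.mulLeft ℂ (X : ℂ[X])))))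
  have : ProperSpace V := FiniteDimensional.proper ℂ V
  obtain ⟨v₀, hv₀⟩ := Continuous.exists_forall_le (f := fun v : V => ‖L 1 + (v : Lp ℂ q μ)‖)
    (by fun_prop) (by
      have h1 : Tendsto (fun v : V => ‖v‖ - ‖L 1‖) (cocompact V) atTop :=
        tendsto_atTop_add_const_right _ _ (tendsto_norm_cocompact_atTop)
      refine tendsto_atTop_mono (fun v => ?_) h1
      have := norm_sub_norm_le (v : Lp ℂ q μ) (-(L 1))
      rw [norm_neg, sub_neg_eq_add, add_comm (v : Lp ℂ q μ)] at this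
      exact this)
  obtain ⟨R₀, hR₀, hv⟩ := (Submodule.mem_map).1 v₀.2
  have hdeg : ∀ R : ℂ[X], R ∈ Polynomial.degreeLT ℂ n ↔ R.degree < n := fun R =>
    Polynomial.mem_degreeLT
  refine ⟨1 + X * R₀, ?_, by simp, ?_⟩
  · by_cases h0 : R₀ = 0
    · simp [h0]
    · have h1 : R₀.natDegree < n := (natDegree_lt_iff_degree_lt h0).2 ((hdeg R₀).1 hR₀)
      refine (natDegree_add_le _ _).trans (max_le (by simp) ?_)
      rw [natDegree_X_mul h0]
      omega
  · intro R hRd hR0
    rw [← hLn, ← hLn]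
    apply Real.rpow_le_rpow (norm_nonneg _) _ (by linarith)
    have hdiv : R = 1 + X * R.divX := by
      have := Polynomial.X_mul_divX_add R
      rw [coeff_zero_eq_eval_zero, hR0, C_1] at this
      rw [add_comm]; exact this.symm
    have hmem : R.divX ∈ Polynomial.degreeLT ℂ n := by
      rw [hdeg]
      by_cases h0 : R.divX = 0
      · rw [h0, degree_zero]; exact WithBot.bot_lt_coe _
      · rw [← natDegree_lt_iff_degree_lt h0, natDegree_divX_eq_natDegree_tsub_one]
        have h1 : R.natDegree ≠ 0 := by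
          intro h
          apply h0
          exact (divX_eq_zero_iff).2 (eq_C_of_natDegree_eq_zero h)
        omega
    have := hv₀ ⟨L (X * R.divX), Submodule.mem_map.2 ⟨R.divX, hmem, rfl⟩⟩
    simp only at this
    rw [← hv] at this
    rw [map_add]
    conv_rhs => rw [hdiv, map_add]
    exact this

end H44.Rat
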