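import Pool.Agent.H44.Rat.Comp

/-!
# Real polynomials in `cos θ` and the comparison with the circle
-/

open MeasureTheory Polynomial Complex Filter Topology Real Set
open scoped ComplexConjugate ENNReal

namespace H44.Rat

/-- Rescaled Chebyshev polynomials: `ch n (2 cos θ) = 2 cos (n θ)`. -/
noncomputable def ch : ℕ → ℝ[X]
  | 0 => Polynomial.C 2
  | 1 => X
  | (n + 2) => X * ch (n + 1) - ch n

lemma ch_eval (n : ℕ) (θ : T) : (ch n).eval (2 * (z θ).re) = 2 * (z θ ^ n).re := by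
  induction n using Nat.twoStepInduction with
  | zero => simp [ch]
  | one => simp [ch]
  | more n h1 h2 =>
    rw [ch, eval_sub, eval_mul, eval_X, h1, h2]
    have h3 : (z θ ^ (n + 2)).re = (z θ * z θ ^ (n + 1)).re := by rw [← pow_succ']
    have h4 : (z θ ^ n).re = (conj (z θ) * z θ ^ (n + 1)).re := by
      rw [pow_succ', ← mul_assoc, conj_mul_z, one_mul]
    rw [h3, h4, Complex.mul_re, Complex.mul_re, Complex.conj_re, Complex.conj_im]
    ring

lemma ch_deg (n : ℕ) : (ch n).natDegree ≤ n ∧ (ch (n + 1)).Monic ∧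
    (ch (n + 1)).natDegree = n + 1 := by
  induction n with
  | zero => simp [ch]
  | succ n ih =>
    obtain ⟨h1, h2, h3⟩ := ih
    have h4 : (X * ch (n + 1)).natDegree = n + 2 := by
      rw [natDegree_X_mul h2.ne_zero, h3]
    have h5 : (X * ch (n + 1)).Monic := monic_X.mul h2
    have h6 : (ch n).natDegree < (X * ch (n + 1)).natDegree := by rw [h4]; omega
    refine ⟨h3.le, ?_, ?_⟩
    · rw [show ch (n + 1 + 1) = X * ch (n + 1) - ch n from rfl]
      apply h5.sub_of_left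
      exact degree_lt_degree h6
    · rw [show ch (n + 1 + 1) = X * ch (n + 1) - ch n from rfl,
        natDegree_sub_eq_left_of_natDegree_lt h6, h4]

lemma re_aux (n j : ℕ) (θ : T) :
    (conj (z θ) ^ n * z θ ^ j).re = (z θ ^ ((n - j) + (j - n))).re := by
  rcases le_total j n with h | h
  · have h1 : conj (z θ) ^ n * z θ ^ j = conj (z θ ^ (n - j)) := by
      conv_lhs => rw [← Nat.sub_add_cancel h, pow_add, mul_assoc, ← mul_pow, conj_mul_z, one_pow,
        mul_one]
      rw [map_pow]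
    rw [h1, Complex.conj_re, Nat.sub_eq_zero_of_le h, add_zero]
  · have h1 : conj (z θ) ^ n * z θ ^ j = z θ ^ (j - n) := by
      conv_lhs => rw [← Nat.sub_add_cancel h, pow_add, ← mul_assoc, mul_comm, ← mul_assoc,
        ← mul_pow, z_mul_conj, one_pow, one_mul]
    rw [h1, Nat.sub_eq_zero_of_le h, zero_add]

/-- The symmetrised `T₀` is a polynomial in `cos θ`. -/
lemma exists_R {k : ℕ} {Q : ℂ[X]} (hd : Q.natDegree ≤ 2 * k + 1) (h0 : Q.eval 0 = 1) :
    ∃ R : ℝ[X], R.Monic ∧ R.natDegree = k + 1 ∧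
      ∀ θ, 2 ^ (k + 1) * R.eval (z θ).re = (T0 k Q θ + T0 k Q (-θ)) / 2 := by
  set q : ℕ → ℝ := fun j => (Q.coeff j).re with hq
  have hq0 : q 0 = 1 := by
    rw [hq]; simp only; rw [coeff_zero_eq_eval_zero, h0, Complex.one_re]
  set dd : ℕ → ℕ := fun j => (k + 1 - j) + (j - (k + 1)) with hdd
  set S : ℝ[X] := ∑ j ∈ Finset.range (2 * k + 2), Polynomial.C (q j) * ch (dd j) with hS
  have hSev : ∀ θ, S.eval (2 * (z θ).re) = (T0 k Q θ + T0 k Q (-θ)) / 2 := by
    intro θ
    have h1 : Q.eval (z θ) = ∑ j ∈ Finset.range (2 * k + 2), Q.coeff j * z θ ^ j :=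
      eval_eq_sum_range' (by omega) _
    have h2 : Q.eval (conj (z θ)) = ∑ j ∈ Finset.range (2 * k + 2),
        Q.coeff j * conj (z θ) ^ j := eval_eq_sum_range' (by omega) _
    rw [T0, T0, z_neg, Complex.conj_conj, h1, h2, hS, eval_finsetSum, Finset.mul_sum,
      Finset.mul_sum, Complex.re_sum, Complex.re_sum, ← mul_add, ← Finset.sum_add_distrib,
      mul_div_right_comm, div_self two_ne_zero, one_mul]
    apply Finset.sum_congr rfl
    intro j _
    rw [eval_mul, eval_C, ch_eval, hdd]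
    simp only
    rw [← re_aux]
    set w := conj (z θ) ^ (k + 1) * z θ ^ j with hw
    have e1 : conj (z θ) ^ (k + 1) * (Q.coeff j * z θ ^ j) = Q.coeff j * w := by rw [hw]; ring
    have e2 : z θ ^ (k + 1) * (Q.coeff j * conj (z θ) ^ j) = Q.coeff j * conj w := by
      rw [hw]; simp only [map_mul, map_pow, Complex.conj_conj]; ring
    have key : ∀ w : ℂ, q j * (2 * w.re) = (Q.coeff j * w).re + (Q.coeff j * conj w).re := by
      intro w
      rw [Complex.mul_re, Complex.mul_re, Complex.conj_re, Complex.conj_im, hq]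
      ring
    rw [e1, e2]
    exact key w
  have hSm : S.Monic ∧ S.natDegree = k + 1 := by
    have h1 : S = ch (k + 1) + ∑ j ∈ Finset.range (2 * k + 1),
        Polynomial.C (q (j + 1)) * ch (dd (j + 1)) := by
      rw [hS, Finset.sum_range_succ', hq0, add_comm]
      simp [hdd]
    have h2 : (∑ j ∈ Finset.range (2 * k + 1),
        Polynomial.C (q (j + 1)) * ch (dd (j + 1))).natDegree ≤ k := by
      apply natDegree_sum_le_of_forall_le
      intro j hj
      have h3 := Finset.mem_range.1 hj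
      refine (natDegree_C_mul_le _ _).trans ?_
      refine ((ch_deg _).1).trans ?_
      rw [hdd]; simp only; omega
    obtain ⟨-, h4, h5⟩ := ch_deg k
    have h6 : (∑ j ∈ Finset.range (2 * k + 1),
        Polynomial.C (q (j + 1)) * ch (dd (j + 1))).natDegree < (ch (k + 1)).natDegree := by
      rw [h5]; omega
    rw [h1]
    refine ⟨h4.add_of_left (degree_lt_degree h6), ?_⟩
    rw [natDegree_add_eq_left_of_natDegree_lt h6, h5]
  obtain ⟨hm, hdeg⟩ := hSm
  have h2x : (Polynomial.C (2 : ℝ) * X).natDegree = 1 := by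
    rw [natDegree_C_mul (by norm_num), natDegree_X]
  refine ⟨Polynomial.C ((2 : ℝ) ^ (k + 1))⁻¹ * S.comp (Polynomial.C 2 * X), ?_, ?_, ?_⟩
  · rw [Monic, leadingCoeff_mul, leadingCoeff_C, leadingCoeff_comp (by rw [h2x]; norm_num),
      hm.leadingCoeff, leadingCoeff_mul, leadingCoeff_C, leadingCoeff_X, hdeg, mul_one, one_mul]
    field_simp
  · rw [natDegree_C_mul (by positivity), natDegree_comp, h2x, hdeg, mul_one]
  · intro θ
    rw [eval_mul, eval_C, eval_comp, eval_mul, eval_C, eval_X, hSev]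
    field_simp

/-- The difference between a monic polynomial in `cos θ` and `T₀`. -/
lemma exists_Lam {k : ℕ} {Q : ℂ[X]} (hd : Q.natDegree ≤ 2 * k + 1) (h0 : Q.eval 0 = 1)
    {R : ℝ[X]} (hR : R.Monic) (hRd : R.natDegree = k + 1) :
    ∃ Λ : ℂ[X], Λ.natDegree ≤ 2 * k + 1 ∧ ∀ θ, (X * Λ).eval (z θ) =
      z θ ^ (k + 1) * ((2 ^ (k + 1) * R.eval (z θ).re - T0 k Q θ : ℝ) : ℂ) := by
  set W : ℂ[X] := ∑ j ∈ Finset.range (k + 2),
    Polynomial.C (((R.coeff j : ℝ) : ℂ) * 2 ^ (k + 1 - j)) * (X ^ (k + 1 - j) * (X ^ 2 + 1) ^ j)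
    with hW
  have hWd : W.natDegree ≤ 2 * k + 2 := by
    apply natDegree_sum_le_of_forall_le
    intro j hj
    have h3 := Finset.mem_range.1 hj
    refine (natDegree_C_mul_le _ _).trans (natDegree_mul_le.trans ?_)
    have h4 : ((X ^ 2 + 1 : ℂ[X]) ^ j).natDegree ≤ j * 2 := by
      refine natDegree_pow_le.trans (Nat.mul_le_mul_left _ ?_)
      refine (natDegree_add_le _ _).trans ?_
      simp
    rw [natDegree_X_pow]
    omega
  have hW0 : W.eval 0 = 1 := by
    rw [hW, eval_finsetSum, Finset.sum_eq_single (k + 1)]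
    · have h1 : R.coeff (k + 1) = 1 := by rw [← hRd]; exact hR.coeff_natDegree
      simp [h1]
    · intro j hj hne
      have h3 := Finset.mem_range.1 hj
      have h4 : k + 1 - j ≠ 0 := by omega
      simp [h4]
    · intro h
      exact absurd (Finset.mem_range.2 (by omega)) h
  have hWz : ∀ θ, W.eval (z θ) = z θ ^ (k + 1) * ((2 ^ (k + 1) * R.eval (z θ).re : ℝ) : ℂ) := by
    intro θ
    have h1 : R.eval (z θ).re = ∑ j ∈ Finset.range (k + 2), R.coeff j * (z θ).re ^ j :=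
      eval_eq_sum_range' (by omega) _
    rw [h1, hW, eval_finsetSum]
    push_cast
    rw [Finset.mul_sum, Finset.mul_sum]
    apply Finset.sum_congr rfl
    intro j hj
    have h3 : j ≤ k + 1 := by have := Finset.mem_range.1 hj; omega
    simp only [eval_mul, eval_C, eval_pow, eval_X, eval_add, eval_one]
    have h4 : z θ ^ 2 + 1 = z θ * (2 * ((z θ).re : ℂ)) := by
      have : (2 * ((z θ).re : ℂ)) = z θ + conj (z θ) := by
        rw [Complex.add_conj]; push_cast; ring
      rw [this, mul_add, z_mul_conj, sq]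
    rw [h4, mul_pow, mul_pow]
    have h5 : (2 : ℂ) ^ (k + 1) = 2 ^ (k + 1 - j) * 2 ^ j := by
      rw [← pow_add, Nat.sub_add_cancel h3]
    have h6 : z θ ^ (k + 1) = z θ ^ (k + 1 - j) * z θ ^ j := by
      rw [← pow_add, Nat.sub_add_cancel h3]
    rw [h5, h6]
    ring
  set Z : ℂ[X] := W - Q - X * rev (2 * k + 1) Q with hZ
  have hZd : Z.natDegree ≤ 2 * k + 2 := by
    rw [hZ]
    refine (natDegree_sub_le _ _).trans (max_le ((natDegree_sub_le _ _).trans
      (max_le hWd (hd.trans (by omega)))) ?_)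
    refine natDegree_mul_le.trans ?_
    have := natDegree_rev_le hd
    rw [natDegree_X]; omega
  have hZ0 : Z.coeff 0 = 0 := by
    rw [coeff_zero_eq_eval_zero, hZ]
    simp [hW0, h0]
  have hZX : X * Z.divX = Z := by
    have := Polynomial.X_mul_divX_add Z
    rw [hZ0, C_0, add_zero] at this
    exact this
  refine ⟨Z.divX, ?_, fun θ => ?_⟩
  · rw [natDegree_divX_eq_natDegree_tsub_one]
    omega
  · rw [hZX, hZ, eval_sub, eval_sub, hWz, eval_mul, eval_X, eval_rev_z hd]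
    have h1 : ((T0 k Q θ : ℝ) : ℂ) = conj (z θ) ^ (k + 1) * Q.eval (z θ) +
        z θ ^ (k + 1) * conj (Q.eval (z θ)) := by
      have h2 : z θ ^ (k + 1) * conj (Q.eval (z θ)) =
          conj (conj (z θ) ^ (k + 1) * Q.eval (z θ)) := by
        simp only [map_mul, map_pow, Complex.conj_conj]
      rw [h2, Complex.add_conj, T0]
    rw [Complex.ofReal_sub, mul_sub, h1]
    have h3 : z θ ^ (k + 1) * (conj (z θ) ^ (k + 1) * Q.eval (z θ) +
        z θ ^ (k + 1) * conj (Q.eval (z θ))) = (z θ * conj (z θ)) ^ (k + 1) * Q.eval (z θ) +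
        z θ * (z θ ^ (2 * k + 1) * conj (Q.eval (z θ))) := by ring
    rw [h3, z_mul_conj, one_pow, one_mul]
    ring

variable {μ : Measure T} [IsFiniteMeasure μ]

/-- Extremal value (to the power `p`) among monic polynomials in `cos θ`. -/
noncomputable def Yn (μ : Measure T) (p : ℝ) (n : ℕ) : ℝ :=
  sInf {y | ∃ R : ℝ[X], R.Monic ∧ R.natDegree = n ∧ y = ∫ θ, |R.eval (z θ).re| ^ p ∂μ}

omit [IsFiniteMeasure μ] in
lemma Yn_nonempty (p : ℝ) (n : ℕ) :
    {y | ∃ R : ℝ[X], R.Monic ∧ R.natDegree = n ∧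
      y = ∫ θ, |R.eval (z θ).re| ^ p ∂μ}.Nonempty :=
  ⟨_, X ^ n, monic_X_pow n, natDegree_X_pow n, rfl⟩

omit [IsFiniteMeasure μ] in
lemma Yn_bdd (p : ℝ) (n : ℕ) :
    BddBelow {y | ∃ R : ℝ[X], R.Monic ∧ R.natDegree = n ∧
      y = ∫ θ, |R.eval (z θ).re| ^ p ∂μ} := by
  refine ⟨0, ?_⟩
  rintro _ ⟨R, -, -, rfl⟩
  exact integral_nonneg fun θ => by positivity

/-- The sandwich between the line problem and the circle problem. -/
lemma sandwich {p : ℝ} (hp : 2 ≤ p) (hμ : ND μ) (hsym : Measure.map (fun θ => -θ) μ = μ)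
    {G : Set T} (hG : MeasurableSet G) (hac : m.restrict G ≪ μ) {k : ℕ} {Q : ℂ[X]}
    (hQ : IsExt μ p (2 * k + 1) Q) {c : ℝ} (hc : 0 < c)
    (hD : DD μ p G (fun θ => ‖Q.eval (z θ)‖ / (en μ p Q) ^ (1 / p)) ≤ 4 * c ^ 2) :
    en μ p Q * (Cp p - (2 ^ p * (4 * c ^ 2) + p * (c * (16 ^ p + 2)))) ≤
      (2 ^ (k + 1)) ^ p * Yn μ p (k + 1) ∧
    (2 ^ (k + 1)) ^ p * Yn μ p (k + 1) ≤ en μ p Q * (Cp p + 2 ^ p * (4 * c ^ 2)) := by
  have hp0 : 0 < p := by linarith
  have he0 : 0 < en μ p Q := en_pos hp hμ hQ.ne_zero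
  have h1 := int_T0 hp hμ hG hac hQ
  have h2 : en μ p Q * (2 ^ p * DD μ p G (fun θ => ‖Q.eval (z θ)‖ / (en μ p Q) ^ (1 / p))) ≤
      en μ p Q * (2 ^ p * (4 * c ^ 2)) :=
    mul_le_mul_of_nonneg_left (mul_le_mul_of_nonneg_left hD (by positivity)) he0.le
  have h3 := abs_le.1 (h1.trans h2)
  have hpow : ∀ (R : ℝ[X]), ∫ θ, |2 ^ (k + 1) * R.eval (z θ).re| ^ p ∂μ =
      (2 ^ (k + 1)) ^ p * ∫ θ, |R.eval (z θ).re| ^ p ∂μ := by
    intro R
    rw [← integral_const_mul]
    congr 1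
    funext θ
    rw [abs_mul, Real.mul_rpow (abs_nonneg _) (abs_nonneg _), abs_of_pos (by positivity)]
  have hpos : (0 : ℝ) < (2 ^ (k + 1)) ^ p := by positivity
  constructor
  · -- lower bound
    rw [← div_le_iff₀' hpos]
    apply le_csInf (Yn_nonempty p _)
    rintro _ ⟨R, hR, hRd, rfl⟩
    rw [div_le_iff₀' hpos, ← hpow]
    obtain ⟨Λ, hΛd, hΛ⟩ := exists_Lam hQ.deg hQ.zero hR hRd
    have hRc : Continuous fun θ => 2 ^ (k + 1) * R.eval (z θ).re := by
      have := R.continuous.comp (Complex.continuous_re.comp continuous_z)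
      exact continuous_const.mul this
    have h4 := lower hp hμ hG hac hQ hRc hΛd hΛ hc hD
    linarith
  · obtain ⟨R, hR, hRd, hRe⟩ := exists_R hQ.deg hQ.zero
    have h4 : Yn μ p (k + 1) ≤ ∫ θ, |R.eval (z θ).re| ^ p ∂μ :=
      csInf_le (Yn_bdd p _) ⟨R, hR, hRd, rfl⟩
    have h5 := mul_le_mul_of_nonneg_left h4 hpos.le
    rw [← hpow] at h5
    refine h5.trans ?_
    have hT0p : Continuous fun θ => |T0 k Q θ| ^ p :=
      (T0_cont k Q).abs.rpow_const fun _ => Or.inr hp0.le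
    have hT0n : Continuous fun θ => |T0 k Q (-θ)| ^ p := hT0p.comp continuous_neg
    have h6 : ∫ θ, |T0 k Q (-θ)| ^ p ∂μ = ∫ θ, |T0 k Q θ| ^ p ∂μ := by
      conv_rhs => rw [← hsym]
      rw [integral_map measurable_neg.aemeasurable]
      exact hT0p.aestronglyMeasurable
    have h7 : ∫ θ, |2 ^ (k + 1) * R.eval (z θ).re| ^ p ∂μ ≤
        ∫ θ, (1 / 2 * |T0 k Q θ| ^ p + 1 / 2 * |T0 k Q (-θ)| ^ p) ∂μ := by
      simp_rw [hRe]
      apply integral_mono _ (((cint hT0p).const_mul _).add ((cint hT0n).const_mul _))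
      · intro θ
        change |(T0 k Q θ + T0 k Q (-θ)) / 2| ^ p ≤
          1 / 2 * |T0 k Q θ| ^ p + 1 / 2 * |T0 k Q (-θ)| ^ p
        have g1 : |(T0 k Q θ + T0 k Q (-θ)) / 2| ≤ (|T0 k Q θ| + |T0 k Q (-θ)|) / 2 := by
          rw [abs_div, abs_two]
          exact div_le_div_of_nonneg_right (abs_add_le _ _) (by norm_num)
        have g2 := add_rpow_le2 (p := p) (by linarith) (abs_nonneg (T0 k Q θ))
          (abs_nonneg (T0 k Q (-θ)))
        calc |(T0 k Q θ + T0 k Q (-θ)) / 2| ^ p ≤ ((|T0 k Q θ| + |T0 k Q (-θ)|) / 2) ^ p :=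
              Real.rpow_le_rpow (abs_nonneg _) g1 hp0.le
          _ = (|T0 k Q θ| + |T0 k Q (-θ)|) ^ p / 2 ^ p :=
              Real.div_rpow (by positivity) (by norm_num) _
          _ ≤ 2 ^ (p - 1) * (|T0 k Q θ| ^ p + |T0 k Q (-θ)| ^ p) / 2 ^ p :=
              div_le_div_of_nonneg_right g2 (by positivity)
          _ = _ := by
              rw [Real.rpow_sub_one (by norm_num)]
              field_simp
      · apply cint
        have c1 : Continuous fun θ => T0 k Q (-θ) := (T0_cont k Q).comp continuous_neg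
        exact (Continuous.abs (by fun_prop)).rpow_const fun _ => Or.inr hp0.le
    rw [int_lin (cint hT0p) (cint hT0n), h6] at h7
    linarith

end H44.Rat
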