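import Pool.Agent.H44.Rat.Masses

/-!
# Ratio asymptotics on the line
-/

open MeasureTheory Polynomial Filter Topology Real Set
open scoped ENNReal

namespace H44.Rat

/-- The extremal value `E_n(ℝ, α, p)`. -/
noncomputable def En (α : Measure ℝ) (p : ℝ) (n : ℕ) : ℝ :=
  sInf {r | ∃ P : ℝ[X], P.Monic ∧ P.natDegree = n ∧ r = (∫ x, |P.eval x| ^ p ∂α) ^ (1 / p)}

lemma Wn_nonneg (α : Measure ℝ) (p : ℝ) (n : ℕ) : 0 ≤ Wn α p n := by
  apply Real.sInf_nonneg
  rintro _ ⟨R, -, -, rfl⟩
  exact integral_nonneg fun θ => by positivity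

lemma En_eq (α : Measure ℝ) {p : ℝ} (hp : 0 < p) (n : ℕ) :
    En α p n = (Wn α p n) ^ (1 / p) := by
  have hne : {r | ∃ P : ℝ[X], P.Monic ∧ P.natDegree = n ∧
      r = (∫ x, |P.eval x| ^ p ∂α) ^ (1 / p)}.Nonempty :=
    ⟨_, X ^ n, monic_X_pow n, natDegree_X_pow n, rfl⟩
  have hint : ∀ P : ℝ[X], 0 ≤ ∫ x, |P.eval x| ^ p ∂α := fun P =>
    integral_nonneg fun x => by positivity
  have hbd : BddBelow {r | ∃ P : ℝ[X], P.Monic ∧ P.natDegree = n ∧
      r = (∫ x, |P.eval x| ^ p ∂α) ^ (1 / p)} := by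
    refine ⟨0, ?_⟩
    rintro _ ⟨R, -, -, rfl⟩
    exact Real.rpow_nonneg (hint R) _
  have hE0 : 0 ≤ En α p n := by
    apply Real.sInf_nonneg
    rintro _ ⟨R, -, -, rfl⟩
    exact Real.rpow_nonneg (hint R) _
  apply le_antisymm
  · have h1 : En α p n ^ p ≤ Wn α p n := by
      apply le_csInf (Wn_nonempty α p n)
      rintro _ ⟨P, hP, hPd, rfl⟩
      have h2 : En α p n ≤ (∫ x, |P.eval x| ^ p ∂α) ^ (1 / p) :=
        csInf_le hbd ⟨P, hP, hPd, rfl⟩
      have h3 := Real.rpow_le_rpow hE0 h2 hp.le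
      rwa [← Real.rpow_mul (hint P), one_div, inv_mul_cancel₀ hp.ne', Real.rpow_one] at h3
    have h4 := Real.rpow_le_rpow (by positivity) h1 (show 0 ≤ 1 / p by positivity)
    rwa [← Real.rpow_mul hE0, mul_one_div_cancel hp.ne', Real.rpow_one] at h4
  · apply le_csInf hne
    rintro _ ⟨P, hP, hPd, rfl⟩
    exact Real.rpow_le_rpow (Wn_nonneg α p n) (csInf_le (Wn_bdd α p n) ⟨P, hP, hPd, rfl⟩)
      (by positivity)

/-- **Ratio asymptotics of the extremal values, `p ≥ 2`.** -/
theorem ratio {p : ℝ} (hp : 2 ≤ p) {a b : ℝ} (hab : a < b) (α : Measure ℝ) [IsFiniteMeasure α]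
    (H1 : ∀ᵐ x ∂(volume.restrict (Ioo a b)), 0 < α.rnDeriv volume x)
    (H2 : ∀ ε : ℝ, 0 < ε → (α.support \ Ioo (a - ε) (b + ε)).Finite) :
    Tendsto (fun n => En α p (n + 1) / En α p n) atTop (𝓝 ((b - a) / 4)) := by
  have hp0 : 0 < p := by linarith
  have hp1 : 1 / p ≤ 1 := by rw [div_le_one hp0]; linarith
  set c₀ := (b - a) / 2 with hc₀
  have hc₀pos : 0 < c₀ := by rw [hc₀]; linarith
  set d := (a + b) / 2 with hd
  have hlimit : (b - a) / 4 = c₀ / 2 := by rw [hc₀]; ring
  rw [hlimit, Metric.tendsto_atTop']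
  intro ε hε
  -- choice of ε₁
  obtain ⟨e, he0, he1, heu, hel⟩ : ∃ e : ℝ, 0 < e ∧ e < 1 ∧ c₀ / 2 * (1 + e) ^ 3 < c₀ / 2 + ε ∧
      c₀ / 2 - ε < c₀ / 2 * ((1 - e) / (1 + e)) := by
    have t1 : Tendsto (fun e : ℝ => c₀ / 2 * (1 + e) ^ 3) (𝓝[>] 0) (𝓝 (c₀ / 2)) := by
      have hc : Continuous fun e : ℝ => c₀ / 2 * (1 + e) ^ 3 := by fun_prop
      have := hc.continuousAt.tendsto.mono_left (nhdsWithin_le_nhds (s := Ioi (0 : ℝ)) (a := 0))
      simpa using this
    have t2 : Tendsto (fun e : ℝ => c₀ / 2 * ((1 - e) / (1 + e))) (𝓝[>] 0) (𝓝 (c₀ / 2)) := by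
      have hc : ContinuousAt (fun e : ℝ => c₀ / 2 * ((1 - e) / (1 + e))) 0 := by
        apply ContinuousAt.mul continuousAt_const
        apply ContinuousAt.div (by fun_prop) (by fun_prop)
        norm_num
      have := hc.tendsto.mono_left (nhdsWithin_le_nhds (s := Ioi (0 : ℝ)) (a := 0))
      simpa using this
    have e1 := t1.eventually (eventually_lt_nhds (show c₀ / 2 < c₀ / 2 + ε by linarith))
    have e2 := t2.eventually (eventually_gt_nhds (show c₀ / 2 - ε < c₀ / 2 by linarith))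
    have e3 : ∀ᶠ t : ℝ in 𝓝[>] 0, 0 < t := self_mem_nhdsWithin
    have e4 : ∀ᶠ t : ℝ in 𝓝[>] 0, t < 1 :=
      (eventually_lt_nhds one_pos).filter_mono nhdsWithin_le_nhds
    obtain ⟨t, h1, h2, h3, h4⟩ := (e1.and (e2.and (e3.and e4))).exists
    exact ⟨t, h3, h4, h1, h2⟩
  obtain ⟨q, hq0, hq1, hq⟩ := line_ratio hp he0
  -- the larger interval
  set c := c₀ * min (1 + e) q⁻¹ with hc
  have hmin : 1 < min (1 + e) q⁻¹ := lt_min (by linarith) ((one_lt_inv₀ hq0).2 hq1)
  have hcc : c₀ < c := by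
    rw [hc]; nlinarith
  have hqc : q * c ≤ c₀ := by
    rw [hc]
    calc q * (c₀ * min (1 + e) q⁻¹) ≤ q * (c₀ * q⁻¹) := by
          apply mul_le_mul_of_nonneg_left _ hq0.le
          exact mul_le_mul_of_nonneg_left (min_le_right _ _) hc₀pos.le
      _ = c₀ := by field_simp
  have hce : c ≤ c₀ * (1 + e) := mul_le_mul_of_nonneg_left (min_le_left _ _) hc₀pos.le
  have hcpos : 0 < c := hc₀pos.trans hcc
  have hIc : Ioo (a - (c - c₀)) (b + (c - c₀)) = Ioo (d - c) (d + c) := by
    rw [hd, hc₀]; congr 1 <;> ring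
  have hI0 : Ioo a b = Ioo (d - c₀) (d + c₀) := by
    rw [hd, hc₀]; congr 1 <;> ring
  -- the point masses
  have hfin := H2 (c - c₀) (by linarith)
  rw [hIc] at hfin
  classical
  set K : Finset ℝ := hfin.toFinset.filter fun x => α {x} ≠ 0 with hK
  have hset : Setup α d c K := by
    refine ⟨?_, ?_, ?_⟩
    · intro x hx
      rw [hK, Finset.mem_filter, Set.Finite.mem_toFinset] at hx
      exact hx.1.2
    · intro x hx
      rw [hK, Finset.mem_filter] at hx
      exact hx.2
    · have h1 : α α.supportᶜ = 0 := Measure.measure_compl_support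
      have h2 : α ((hfin.toFinset.filter fun x => α {x} = 0 : Finset ℝ) : Set ℝ) = 0 := by
        rw [← Set.biUnion_of_singleton
          ((hfin.toFinset.filter fun x => α {x} = 0 : Finset ℝ) : Set ℝ)]
        refine (measure_biUnion_null_iff (Finset.countable_toSet _)).2 fun x hx => ?_
        exact (Finset.mem_filter.1 (Finset.mem_coe.1 hx)).2
      refine measure_mono_null ?_ (measure_union_null h1 h2)
      intro x hx
      rw [Set.mem_compl_iff, Set.mem_union, not_or] at hx
      by_cases hs : x ∈ α.support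
      · right
        rw [Finset.mem_coe, Finset.mem_filter, Set.Finite.mem_toFinset]
        refine ⟨⟨hs, hx.1⟩, ?_⟩
        by_contra hne
        apply hx.2
        rw [Finset.mem_coe, hK, Finset.mem_filter, Set.Finite.mem_toFinset]
        exact ⟨⟨hs, hx.1⟩, hne⟩
      · left; exact hs
  have hac : volume.restrict (Ioo (d - c₀) (d + c₀)) ≪ wm α p d c K := by
    apply wm_ac hp hset
    · exact Ioo_subset_Ioo (by linarith) (by linarith)
    · rw [← hI0]; exact vol_ac H1
  have : IsFiniteMeasure (wm α p d c K) := wm_finite hp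
  have hev := hq d c c₀ hc₀pos hcc.le hqc (wm α p d c K) (wm_ae α p d c K) hac
  have hlow := lower_mass hp hset hcpos he0
  have hup := upper_mass hp hset
  set k := K.card with hk
  have hall : ∀ᶠ n : ℕ in atTop,
      |En α p (n + k + 1) / En α p (n + k) - c₀ / 2| < ε := by
    filter_upwards [hev, hlow, (tendsto_add_atTop_nat 1).eventually hlow,
      (tendsto_add_atTop_nat 1).eventually hev] with n h1 h2 h3 h4
    obtain ⟨hW, hr⟩ := h1
    rw [En_eq α hp0, En_eq α hp0]
    have hidx : n + 1 + k = n + k + 1 := by ring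
    rw [hidx] at h3
    have h5 := hup (n + 1)
    rw [hidx] at h5
    have h6 := hup n
    set V := Wn (wm α p d c K) p n with hV
    set V' := Wn (wm α p d c K) p (n + 1) with hV'
    set W := Wn α p (n + k) with hWdef
    set W' := Wn α p (n + k + 1) with hWdef'
    have hV'0 : 0 < V' := h4.1
    have hWpos : 0 < W := by
      have : 0 < (1 + e) * W := lt_of_lt_of_le hW h2
      exact (pos_iff_pos_of_mul_pos this).1 (by linarith)
    have hW'pos : 0 < W' := by
      have : 0 < (1 + e) * W' := lt_of_lt_of_le hV'0 h3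
      exact (pos_iff_pos_of_mul_pos this).1 (by linarith)
    have hroot : ∀ x y : ℝ, 0 < x → 0 < y → x ≤ (1 + e) * y →
        x ^ (1 / p) ≤ (1 + e) * y ^ (1 / p) := by
      intro x y hx hy hxy
      calc x ^ (1 / p) ≤ ((1 + e) * y) ^ (1 / p) :=
            Real.rpow_le_rpow hx.le hxy (by positivity)
        _ = (1 + e) ^ (1 / p) * y ^ (1 / p) := Real.mul_rpow (by positivity) hy.le
        _ ≤ (1 + e) ^ (1 : ℝ) * y ^ (1 / p) := by
            apply mul_le_mul_of_nonneg_right _ (by positivity)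
            exact Real.rpow_le_rpow_of_exponent_le (by linarith) hp1
        _ = _ := by rw [Real.rpow_one]
    have g1 := hroot V W hW hWpos h2
    have g2 := hroot V' W' hV'0 hW'pos h3
    have g3 : W ^ (1 / p) ≤ V ^ (1 / p) := Real.rpow_le_rpow hWpos.le h6 (by positivity)
    have g4 : W' ^ (1 / p) ≤ V' ^ (1 / p) := Real.rpow_le_rpow hW'pos.le h5 (by positivity)
    set v := V ^ (1 / p) with hv
    set v' := V' ^ (1 / p) with hv'
    set w := W ^ (1 / p) with hw
    set w' := W' ^ (1 / p) with hw'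
    have hvp : 0 < v := Real.rpow_pos_of_pos hW _
    have hvp' : 0 < v' := Real.rpow_pos_of_pos hV'0 _
    have hwp : 0 < w := Real.rpow_pos_of_pos hWpos _
    have hwp' : 0 < w' := Real.rpow_pos_of_pos hW'pos _
    rw [abs_le] at hr
    have r1 : v' / v ≤ c / 2 * (1 + e) := by
      have : v' / v = c / 2 * (2 / c * v' / v) := by field_simp
      rw [this]
      apply mul_le_mul_of_nonneg_left _ (by positivity)
      linarith [hr.2]
    have r2 : c / 2 * (1 - e) ≤ v' / v := by
      have : v' / v = c / 2 * (2 / c * v' / v) := by field_simp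
      rw [this]
      apply mul_le_mul_of_nonneg_left _ (by positivity)
      linarith [hr.1]
    have u1 : w' / w ≤ c₀ / 2 * (1 + e) ^ 3 := by
      calc w' / w ≤ v' / (v / (1 + e)) := by
            apply div_le_div₀ hvp'.le g4 (by positivity)
            rw [div_le_iff₀ (by positivity)]; linarith
        _ = (v' / v) * (1 + e) := by field_simp
        _ ≤ c / 2 * (1 + e) * (1 + e) := mul_le_mul_of_nonneg_right r1 (by positivity)
        _ ≤ c₀ * (1 + e) / 2 * (1 + e) * (1 + e) := by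
            apply mul_le_mul_of_nonneg_right _ (by positivity)
            apply mul_le_mul_of_nonneg_right _ (by positivity)
            linarith
        _ = _ := by ring
    have u2 : c₀ / 2 * ((1 - e) / (1 + e)) ≤ w' / w := by
      calc c₀ / 2 * ((1 - e) / (1 + e)) ≤ c / 2 * ((1 - e) / (1 + e)) := by
            apply mul_le_mul_of_nonneg_right _ (div_nonneg (by linarith) (by positivity))
            linarith
        _ = (c / 2 * (1 - e)) / (1 + e) := by ring
        _ ≤ (v' / v) / (1 + e) := div_le_div_of_nonneg_right r2 (by positivity)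
        _ = (v' / (1 + e)) / v := by field_simp
        _ ≤ w' / w := by
            apply div_le_div₀ hwp'.le _ hwp g3
            rw [div_le_iff₀ (by positivity)]; linarith
    rw [abs_lt]
    constructor <;> linarith
  obtain ⟨N, hN⟩ := eventually_atTop.1 hall
  refine ⟨N + k, fun n hn => ?_⟩
  obtain ⟨j, rfl⟩ : ∃ j, n = j + k := ⟨n - k, by omega⟩
  rw [Real.dist_eq]
  exact hN j (by omega)

end H44.Rat
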