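import Pool.Agent.H44.Rat.Transfer

/-!
# Adding finitely many point masses outside an interval
-/

open MeasureTheory Polynomial Filter Topology Real Set
open scoped ENNReal Pointwise

namespace H44.Rat

/-- Hypothesis `α' > 0` almost everywhere gives absolute continuity. -/
lemma vol_ac {α : Measure ℝ} {a b : ℝ}
    (H1 : ∀ᵐ x ∂(volume.restrict (Ioo a b)), 0 < α.rnDeriv volume x) :
    volume.restrict (Ioo a b) ≪ α := by
  refine Measure.AbsolutelyContinuous.mk fun A hA h0 => ?_
  have h1 : (volume.withDensity (α.rnDeriv volume)) A = 0 :=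
    le_antisymm (((Measure.withDensity_rnDeriv_le α volume) A).trans h0.le) (zero_le)
  rw [withDensity_apply _ hA, lintegral_eq_zero_iff (Measure.measurable_rnDeriv _ _)] at h1
  rw [Measure.restrict_apply hA]
  have h2 : ∀ᵐ x ∂(volume.restrict (A ∩ Ioo a b)), False := by
    have g1 : ∀ᵐ x ∂(volume.restrict (A ∩ Ioo a b)), 0 < α.rnDeriv volume x :=
      ae_restrict_of_ae_restrict_of_subset inter_subset_right H1
    have g2 : ∀ᵐ x ∂(volume.restrict (A ∩ Ioo a b)), α.rnDeriv volume x = 0 :=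
      ae_restrict_of_ae_restrict_of_subset inter_subset_left h1
    filter_upwards [g1, g2] with x hx hx'
    rw [hx'] at hx
    exact lt_irrefl _ hx
  rw [ae_iff] at h2
  simpa using h2

/-- Data: a finite measure which is, up to finitely many point masses, carried by an open
interval. -/
structure Setup (α : Measure ℝ) (d c : ℝ) (K : Finset ℝ) : Prop where
  out : ∀ x ∈ K, x ∉ Ioo (d - c) (d + c)
  mass : ∀ x ∈ K, α {x} ≠ 0
  null : α (Ioo (d - c) (d + c) ∪ (K : Set ℝ))ᶜ = 0

section

variable {α : Measure ℝ} [IsFiniteMeasure α] {d c : ℝ} {K : Finset ℝ}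

omit [IsFiniteMeasure α] in
lemma Setup.decomp (h : Setup α d c K) :
    α = α.restrict (Ioo (d - c) (d + c)) + α.restrict (K : Set ℝ) := by
  have hd : Disjoint (Ioo (d - c) (d + c)) (K : Set ℝ) := by
    rw [Set.disjoint_left]
    intro x hx hxK
    exact h.out x hxK hx
  rw [← Measure.restrict_union hd K.measurableSet]
  refine (Measure.restrict_eq_self_of_ae_mem ?_).symm
  refine (measure_eq_zero_iff_ae_notMem.1 h.null).mono fun x hx => ?_
  rwa [Set.notMem_compl_iff] at hx

lemma cont_intI {f : ℝ → ℝ} (hf : Continuous f) :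
    Integrable f (α.restrict (Ioo (d - c) (d + c))) :=
  (hf.continuousOn.integrableOn_compact (isCompact_Icc (a := d - c) (b := d + c))).mono_set
    Ioo_subset_Icc_self

lemma cont_intK {f : ℝ → ℝ} (hf : Continuous f) : IntegrableOn f (K : Set ℝ) α :=
  hf.continuousOn.integrableOn_compact K.finite_toSet.isCompact

lemma Setup.integral (h : Setup α d c K) {f : ℝ → ℝ} (hf : Continuous f) :
    ∫ x, f x ∂α = ∫ x in Ioo (d - c) (d + c), f x ∂α + ∑ x ∈ K, α.real {x} * f x := by
  conv_lhs => rw [h.decomp]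
  rw [integral_add_measure (cont_intI hf) (cont_intK hf), setIntegral_finset _ (cont_intK hf)]
  rfl

/-- The measure `|Z|^p α` on the interval. -/
noncomputable def wm (α : Measure ℝ) (p d c : ℝ) (K : Finset ℝ) : Measure ℝ :=
  (α.restrict (Ioo (d - c) (d + c))).withDensity
    fun x => ENNReal.ofReal (|(Lagrange.nodal K id).eval x| ^ p)

variable {p : ℝ} (hp : 2 ≤ p)

include hp in
lemma Z_cont : Continuous fun x : ℝ => |(Lagrange.nodal K id).eval x| ^ p :=
  ((Lagrange.nodal K id).continuous.abs).rpow_const fun _ => Or.inr (by linarith)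

include hp in
lemma wm_finite : IsFiniteMeasure (wm α p d c K) := by
  unfold wm
  apply isFiniteMeasure_withDensity_ofReal
  exact (cont_intI (Z_cont hp)).2

lemma wm_ae (α : Measure ℝ) (p d c : ℝ) (K : Finset ℝ) :
    ∀ᵐ x ∂(wm α p d c K), x ∈ Ioo (d - c) (d + c) := by
  unfold wm
  apply (withDensity_absolutelyContinuous _ _).ae_le
  exact ae_restrict_mem measurableSet_Ioo

include hp in
omit [IsFiniteMeasure α] in
lemma wm_ac (h : Setup α d c K) {J : Set ℝ}
    (hsub : J ⊆ Ioo (d - c) (d + c)) (hac : volume.restrict J ≪ α) :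
    volume.restrict J ≪ wm α p d c K := by
  have h1 : volume.restrict J ≪ α.restrict (Ioo (d - c) (d + c)) := by
    refine Measure.AbsolutelyContinuous.mk fun A hA h0 => ?_
    rw [Measure.restrict_apply hA] at h0 ⊢
    have := hac h0
    rw [Measure.restrict_apply (hA.inter measurableSet_Ioo)] at this
    refine measure_mono_null ?_ this
    intro x hx
    exact ⟨⟨hx.1, hsub hx.2⟩, hx.2⟩
  refine h1.trans ?_
  unfold wm
  refine withDensity_absolutelyContinuous' ?_ ?_
  · exact (Z_cont hp).measurable.ennreal_ofReal.aemeasurable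
  · filter_upwards [ae_restrict_mem measurableSet_Ioo] with x hx
    have h2 : (Lagrange.nodal K id).eval x ≠ 0 := by
      rw [Lagrange.eval_nodal, Finset.prod_ne_zero_iff]
      intro y hy hxy
      have : x = y := by simpa [sub_eq_zero] using hxy
      exact h.out y hy (this ▸ hx)
    have h3 : 0 < |(Lagrange.nodal K id).eval x| := abs_pos.2 h2
    have h4 : 0 < |(Lagrange.nodal K id).eval x| ^ p := by positivity
    exact (ENNReal.ofReal_pos.2 h4).ne'

include hp in
omit [IsFiniteMeasure α] in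
lemma wm_integral (P : ℝ[X]) :
    ∫ x, |P.eval x| ^ p ∂(wm α p d c K) =
      ∫ x in Ioo (d - c) (d + c), |(Lagrange.nodal K id * P).eval x| ^ p ∂α := by
  unfold wm
  rw [integral_withDensity_eq_integral_toReal_smul]
  · congr 1
    funext x
    rw [ENNReal.toReal_ofReal (by positivity), smul_eq_mul, eval_mul, abs_mul,
      Real.mul_rpow (abs_nonneg _) (abs_nonneg _)]
  · exact (Z_cont hp).measurable.ennreal_ofReal
  · exact Eventually.of_forall fun x => ENNReal.ofReal_lt_top

lemma Wn_bdd (α : Measure ℝ) (p : ℝ) (n : ℕ) :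
    BddBelow {y | ∃ P : ℝ[X], P.Monic ∧ P.natDegree = n ∧ y = ∫ x, |P.eval x| ^ p ∂α} := by
  refine ⟨0, ?_⟩
  rintro _ ⟨R, -, -, rfl⟩
  exact integral_nonneg fun θ => by positivity

lemma Wn_nonempty (α : Measure ℝ) (p : ℝ) (n : ℕ) :
    {y | ∃ P : ℝ[X], P.Monic ∧ P.natDegree = n ∧ y = ∫ x, |P.eval x| ^ p ∂α}.Nonempty :=
  ⟨_, X ^ n, monic_X_pow n, natDegree_X_pow n, rfl⟩

include hp in
/-- Multiplying by the nodal polynomial. -/
lemma upper_mass (h : Setup α d c K) (n : ℕ) :
    Wn α p (n + K.card) ≤ Wn (wm α p d c K) p n := by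
  apply le_csInf (Wn_nonempty _ _ _)
  rintro _ ⟨P, hP, hPd, rfl⟩
  have hZ : (Lagrange.nodal K (id : ℝ → ℝ)).Monic := Lagrange.nodal_monic
  have hZP : (Lagrange.nodal K id * P).Monic := hZ.mul hP
  have hZPd : (Lagrange.nodal K id * P).natDegree = n + K.card := by
    rw [hZ.natDegree_mul hP, Lagrange.natDegree_nodal, hPd, add_comm]
  have hcont : Continuous fun x => |(Lagrange.nodal K id * P).eval x| ^ p :=
    (Lagrange.nodal K id * P).continuous.abs.rpow_const fun _ => Or.inr (by linarith)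
  refine (csInf_le (Wn_bdd α p _) ⟨_, hZP, hZPd, rfl⟩).trans (le_of_eq ?_)
  rw [h.integral hcont, wm_integral hp, Finset.sum_eq_zero, add_zero]
  intro x hx
  have : (Lagrange.nodal K id).eval x = 0 := Lagrange.eval_nodal_at_node (v := id) hx
  rw [eval_mul, this, zero_mul, abs_zero, Real.zero_rpow (by linarith), mul_zero]

/-- The correcting polynomials. -/
noncomputable def ell (K : Finset ℝ) (d : ℝ) (n : ℕ) (x : ℝ) : ℝ[X] :=
  Polynomial.C ((x - d) ^ n)⁻¹ * ((X - Polynomial.C d) ^ n * Lagrange.basis K id x)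

lemma ell_eval (K : Finset ℝ) (d : ℝ) (n : ℕ) (x y : ℝ) :
    (ell K d n x).eval y = ((y - d) / (x - d)) ^ n * (Lagrange.basis K id x).eval y := by
  rw [ell]
  simp only [eval_mul, eval_C, eval_pow, eval_sub, eval_X, div_pow]
  ring

lemma ell_deg {x : ℝ} (hx : x ∈ K) (n : ℕ) :
    (ell K d n x).natDegree + 1 ≤ n + K.card := by
  have h1 : (Lagrange.basis K id x).natDegree = K.card - 1 :=
    Lagrange.natDegree_basis (fun _ _ _ _ h => h) hx
  have h2 : 0 < K.card := Finset.card_pos.2 ⟨x, hx⟩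
  have h3 : (ell K d n x).natDegree ≤ n + (K.card - 1) := by
    rw [ell]
    refine (natDegree_C_mul_le _ _).trans (natDegree_mul_le.trans ?_)
    rw [h1, natDegree_pow, natDegree_X_sub_C, mul_one]
  omega

omit [IsFiniteMeasure α] in
/-- Correction of a monic polynomial so that it vanishes at the masses. -/
lemma exists_P2 (h : Setup α d c K) (hc : 0 < c) (n : ℕ) {P : ℝ[X]} (hP : P.Monic)
    (hPd : P.natDegree = n + K.card) :
    ∃ P₂ : ℝ[X], P₂.Monic ∧ P₂.natDegree = n ∧
      Lagrange.nodal K id * P₂ = P - ∑ x ∈ K, Polynomial.C (P.eval x) * ell K d n x := by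
  set S := ∑ x ∈ K, Polynomial.C (P.eval x) * ell K d n x with hS
  have hSd : S.degree < P.degree := by
    rw [degree_eq_natDegree hP.ne_zero, hPd]
    have : S ∈ Polynomial.degreeLT ℝ (n + K.card) := by
      rw [hS]
      apply Submodule.sum_mem
      intro x hx
      rw [Polynomial.mem_degreeLT]
      have h1 : (Polynomial.C (P.eval x) * ell K d n x).natDegree < n + K.card := by
        have := ell_deg (d := d) hx n
        have := natDegree_C_mul_le (P.eval x) (ell K d n x)
        omega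
      exact lt_of_le_of_lt degree_le_natDegree (by exact_mod_cast h1)
    rw [Polynomial.mem_degreeLT] at this
    exact this
  have hm : (P - S).Monic := hP.sub_of_left hSd
  have hmd : (P - S).natDegree = n + K.card := by
    rw [natDegree_eq_of_degree_eq (degree_sub_eq_left_of_degree_lt hSd), hPd]
  have hev : ∀ y ∈ K, (P - S).eval y = 0 := by
    intro y hy
    have hyd : y - d ≠ 0 := by
      intro h0
      apply h.out y hy
      constructor <;> linarith
    rw [eval_sub, hS, eval_finsetSum, Finset.sum_eq_single y]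
    · rw [eval_mul, eval_C, ell_eval, div_self hyd, one_pow, one_mul]
      have : (Lagrange.basis K id y).eval (id y) = 1 :=
        Lagrange.eval_basis_self (fun _ _ _ _ h => h) hy
      simp only [id] at this
      rw [this]; ring
    · intro x _ hxy
      rw [eval_mul, ell_eval]
      have : (Lagrange.basis K id x).eval (id y) = 0 := Lagrange.eval_basis_of_ne hxy hy
      simp only [id] at this
      rw [this]; ring
    · intro h'; exact absurd hy h'
  have hdvd : Lagrange.nodal K id ∣ P - S := by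
    rw [Lagrange.nodal_eq]
    apply Finset.prod_dvd_of_coprime
    · intro x _ y _ hxy
      exact isCoprime_X_sub_C_of_isUnit_sub (sub_ne_zero.2 hxy).isUnit
    · intro y hy
      exact dvd_iff_isRoot.2 (hev y hy)
  obtain ⟨P₂, hP₂⟩ := hdvd
  have hZ : (Lagrange.nodal K (id : ℝ → ℝ)).Monic := Lagrange.nodal_monic
  have hm2 : P₂.Monic := by
    rw [hP₂] at hm
    exact hZ.of_mul_monic_left hm
  refine ⟨P₂, hm2, ?_, hP₂.symm⟩
  have := hmd
  rw [hP₂, hZ.natDegree_mul hm2, Lagrange.natDegree_nodal] at this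
  omega

include hp in
/-- The correcting polynomials are small on the interval. -/
lemma ell_small (h : Setup α d c K) (hc : 0 < c) {x : ℝ} (hx : x ∈ K) :
    Tendsto (fun n => ∫ y in Ioo (d - c) (d + c), |(ell K d n x).eval y| ^ p ∂α) atTop (𝓝 0) := by
  have hp0 : 0 < p := by linarith
  have hxd : c ≤ |x - d| := by
    by_contra hlt
    push Not at hlt
    rw [abs_lt] at hlt
    exact h.out x hx ⟨by linarith, by linarith⟩
  have hxd0 : 0 < |x - d| := lt_of_lt_of_le hc hxd
  have hq : ∀ y ∈ Ioo (d - c) (d + c), |(y - d) / (x - d)| < 1 := by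
    intro y hy
    rw [abs_div, div_lt_one hxd0]
    refine lt_of_lt_of_le ?_ hxd
    rw [abs_lt]
    constructor <;> linarith [hy.1, hy.2]
  have h0 : (0 : ℝ) = ∫ y in Ioo (d - c) (d + c), (0 : ℝ) ∂α := by simp
  rw [h0]
  have hbc : Continuous fun y : ℝ => |(Lagrange.basis K id x).eval y| ^ p :=
    (Lagrange.basis K id x).continuous.abs.rpow_const fun _ => Or.inr hp0.le
  apply tendsto_integral_of_dominated_convergence
    (fun y => |(Lagrange.basis K id x).eval y| ^ p)
  · intro n
    exact ((ell K d n x).continuous.abs.rpow_const fun _ => Or.inr hp0.le).aestronglyMeasurable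
  · exact cont_intI hbc
  · intro n
    filter_upwards [ae_restrict_mem measurableSet_Ioo] with y hy
    rw [Real.norm_of_nonneg (by positivity)]
    apply Real.rpow_le_rpow (abs_nonneg _) _ hp0.le
    rw [ell_eval, abs_mul, abs_pow]
    have h1 : |(y - d) / (x - d)| ^ n ≤ 1 := pow_le_one₀ (abs_nonneg _) (hq y hy).le
    calc |(y - d) / (x - d)| ^ n * |(Lagrange.basis K id x).eval y| ≤
        1 * |(Lagrange.basis K id x).eval y| := mul_le_mul_of_nonneg_right h1 (abs_nonneg _)
      _ = _ := one_mul _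
  · filter_upwards [ae_restrict_mem measurableSet_Ioo] with y hy
    have h1 : Tendsto (fun n => |(y - d) / (x - d)| ^ n) atTop (𝓝 0) :=
      tendsto_pow_atTop_nhds_zero_of_lt_one (abs_nonneg _) (hq y hy)
    have h2 : Tendsto (fun n => |(ell K d n x).eval y|) atTop (𝓝 0) := by
      have := h1.mul_const |(Lagrange.basis K id x).eval y|
      rw [zero_mul] at this
      refine this.congr fun n => ?_
      rw [ell_eval, abs_mul, abs_pow]
    have h3 := h2.rpow_const (p := p) (Or.inr hp0.le)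
    rwa [Real.zero_rpow hp0.ne'] at h3

lemma conv_split {p : ℝ} (hp : 1 ≤ p) {t : ℝ} (ht0 : 0 < t) (ht1 : t < 1) {u v : ℝ}
    (hu : 0 ≤ u) (hv : 0 ≤ v) :
    (u + v) ^ p ≤ (1 - t) ^ (1 - p) * u ^ p + t ^ (1 - p) * v ^ p := by
  have h1t : 0 < 1 - t := by linarith
  have h := (convexOn_rpow hp).2 (x := u / (1 - t)) (y := v / t)
    (by rw [Set.mem_Ici]; positivity) (by rw [Set.mem_Ici]; positivity)
    h1t.le ht0.le (by ring)
  simp only [smul_eq_mul] at h
  rw [mul_div_cancel₀ _ h1t.ne', mul_div_cancel₀ _ ht0.ne', Real.div_rpow hu h1t.le,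
    Real.div_rpow hv ht0.le] at h
  refine h.trans (le_of_eq ?_)
  rw [Real.rpow_sub h1t, Real.rpow_sub ht0, Real.rpow_one, Real.rpow_one]
  ring

include hp in
/-- The lower comparison. -/
lemma lower_mass (h : Setup α d c K) (hc : 0 < c) {ε : ℝ} (hε : 0 < ε) :
    ∀ᶠ n : ℕ in atTop, Wn (wm α p d c K) p n ≤ (1 + ε) * Wn α p (n + K.card) := by
  have hp0 : 0 < p := by linarith
  -- choose t
  obtain ⟨t, ht0, ht1, ht⟩ : ∃ t : ℝ, 0 < t ∧ t < 1 ∧ (1 - t) ^ (1 - p) < 1 + ε / 2 := by
    have h1 : Tendsto (fun t : ℝ => (1 - t) ^ (1 - p)) (𝓝[>] 0) (𝓝 ((1 - 0) ^ (1 - p))) := by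
      have h2 : Tendsto (fun t : ℝ => 1 - t) (𝓝[>] 0) (𝓝 (1 - 0)) :=
        (continuous_const.sub continuous_id).continuousAt.tendsto.mono_left nhdsWithin_le_nhds
      exact h2.rpow_const (Or.inl (by norm_num))
    rw [sub_zero, Real.one_rpow] at h1
    have e1 := h1.eventually (eventually_lt_nhds (show (1 : ℝ) < 1 + ε / 2 by linarith))
    have e2 : ∀ᶠ t : ℝ in 𝓝[>] 0, 0 < t := self_mem_nhdsWithin
    have e3 : ∀ᶠ t : ℝ in 𝓝[>] 0, t < 1 :=
      (eventually_lt_nhds one_pos).filter_mono nhdsWithin_le_nhds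
    obtain ⟨t, h2, h3, h4⟩ := (e1.and (e2.and e3)).exists
    exact ⟨t, h3, h4, h2⟩
  set k : ℝ := (K.card : ℝ) ^ (p - 1) with hk
  have hk0 : 0 ≤ k := by positivity
  have hlim : Tendsto (fun n => t ^ (1 - p) * (k * ∑ x ∈ K, (α.real {x})⁻¹ *
      ∫ y in Ioo (d - c) (d + c), |(ell K d n x).eval y| ^ p ∂α)) atTop (𝓝 0) := by
    have h1 : Tendsto (fun n => ∑ x ∈ K, (α.real {x})⁻¹ *
        ∫ y in Ioo (d - c) (d + c), |(ell K d n x).eval y| ^ p ∂α) atTop
        (𝓝 (∑ x ∈ K, (α.real {x})⁻¹ * 0)) := by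
      apply tendsto_finsetSum
      intro x hx
      exact (ell_small hp h hc hx).const_mul _
    simp only [mul_zero, Finset.sum_const_zero] at h1
    have h2 := (h1.const_mul k).const_mul (t ^ (1 - p))
    simpa using h2
  filter_upwards [hlim.eventually (eventually_lt_nhds (show (0 : ℝ) < ε / 2 by positivity))]
    with n hn
  rw [← div_le_iff₀' (by positivity)]
  apply le_csInf (Wn_nonempty _ _ _)
  rintro _ ⟨P, hP, hPd, rfl⟩
  rw [div_le_iff₀' (by positivity)]
  obtain ⟨P₂, hP₂, hP₂d, hP₂e⟩ := exists_P2 h hc n hP hPd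
  refine (csInf_le (Wn_bdd _ p _) ⟨_, hP₂, hP₂d, rfl⟩).trans ?_
  rw [wm_integral hp, hP₂e]
  have hPc : Continuous fun x => |P.eval x| ^ p :=
    P.continuous.abs.rpow_const fun _ => Or.inr hp0.le
  set J := ∫ x, |P.eval x| ^ p ∂α with hJ
  have hJ0 : 0 ≤ J := integral_nonneg fun x => by positivity
  have hsplit := h.integral hPc
  rw [← hJ] at hsplit
  have hnnI : 0 ≤ ∫ x in Ioo (d - c) (d + c), |P.eval x| ^ p ∂α :=
    integral_nonneg fun x => by positivity
  have hI : ∫ x in Ioo (d - c) (d + c), |P.eval x| ^ p ∂α ≤ J := by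
    have : 0 ≤ ∑ x ∈ K, α.real {x} * |P.eval x| ^ p :=
      Finset.sum_nonneg fun x _ => mul_nonneg measureReal_nonneg (by positivity)
    linarith
  have hK : ∀ x ∈ K, |P.eval x| ^ p ≤ (α.real {x})⁻¹ * J := by
    intro x hx
    have h1 : α.real {x} * |P.eval x| ^ p ≤ ∑ x ∈ K, α.real {x} * |P.eval x| ^ p :=
      Finset.single_le_sum (f := fun x => α.real {x} * |P.eval x| ^ p)
        (fun x _ => mul_nonneg measureReal_nonneg (by positivity)) hx
    have h2 : 0 < α.real {x} := by
      rw [measureReal_def]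
      exact ENNReal.toReal_pos (h.mass x hx) (measure_ne_top _ _)
    rw [inv_mul_eq_div, le_div_iff₀ h2]
    linarith
  have hellc : ∀ x, Continuous fun y => |(ell K d n x).eval y| ^ p := fun x =>
    (ell K d n x).continuous.abs.rpow_const fun _ => Or.inr hp0.le
  have hpt : ∀ y, |(P - ∑ x ∈ K, Polynomial.C (P.eval x) * ell K d n x).eval y| ^ p ≤
      (1 - t) ^ (1 - p) * |P.eval y| ^ p + t ^ (1 - p) * (k * ∑ x ∈ K,
        (α.real {x})⁻¹ * J * |(ell K d n x).eval y| ^ p) := by
    intro y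
    have h1 : |(P - ∑ x ∈ K, Polynomial.C (P.eval x) * ell K d n x).eval y| ≤
        |P.eval y| + ∑ x ∈ K, |P.eval x * (ell K d n x).eval y| := by
      rw [eval_sub, eval_finsetSum]
      refine (abs_sub _ _).trans (add_le_add le_rfl ?_)
      refine (Finset.abs_sum_le_sum_abs _ _).trans (le_of_eq ?_)
      apply Finset.sum_congr rfl
      intro x _
      rw [eval_mul, eval_C]
    have h2 : (∑ x ∈ K, |P.eval x * (ell K d n x).eval y|) ^ p ≤
        k * ∑ x ∈ K, |P.eval x * (ell K d n x).eval y| ^ p :=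
      Real.rpow_sum_le_const_mul_sum_rpow K _ (by linarith)
    have h3 : ∑ x ∈ K, |P.eval x * (ell K d n x).eval y| ^ p ≤
        ∑ x ∈ K, (α.real {x})⁻¹ * J * |(ell K d n x).eval y| ^ p := by
      apply Finset.sum_le_sum
      intro x hx
      rw [abs_mul, Real.mul_rpow (abs_nonneg _) (abs_nonneg _)]
      exact mul_le_mul_of_nonneg_right (hK x hx) (by positivity)
    have h4 : 0 ≤ ∑ x ∈ K, |P.eval x * (ell K d n x).eval y| :=
      Finset.sum_nonneg fun x _ => abs_nonneg _
    calc |(P - ∑ x ∈ K, Polynomial.C (P.eval x) * ell K d n x).eval y| ^ p ≤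
        (|P.eval y| + ∑ x ∈ K, |P.eval x * (ell K d n x).eval y|) ^ p :=
          Real.rpow_le_rpow (abs_nonneg _) h1 hp0.le
      _ ≤ (1 - t) ^ (1 - p) * |P.eval y| ^ p +
          t ^ (1 - p) * (∑ x ∈ K, |P.eval x * (ell K d n x).eval y|) ^ p :=
          conv_split (by linarith) ht0 ht1 (abs_nonneg _) h4
      _ ≤ _ := by
          apply add_le_add le_rfl
          apply mul_le_mul_of_nonneg_left _ (by positivity)
          exact h2.trans (mul_le_mul_of_nonneg_left h3 hk0)
  have hcS : Continuous fun y => ∑ x ∈ K, (α.real {x})⁻¹ * J * |(ell K d n x).eval y| ^ p := by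
    apply continuous_finsetSum
    intro x _
    exact continuous_const.mul (hellc x)
  have hint : ∫ y in Ioo (d - c) (d + c), |(P - ∑ x ∈ K, Polynomial.C (P.eval x) *
      ell K d n x).eval y| ^ p ∂α ≤ ∫ y in Ioo (d - c) (d + c),
      ((1 - t) ^ (1 - p) * |P.eval y| ^ p + t ^ (1 - p) * (k * ∑ x ∈ K,
        (α.real {x})⁻¹ * J * |(ell K d n x).eval y| ^ p)) ∂α := by
    apply integral_mono
    · exact cont_intI ((P - ∑ x ∈ K, Polynomial.C (P.eval x) *
        ell K d n x).continuous.abs.rpow_const fun _ => Or.inr hp0.le)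
    · exact cont_intI (by fun_prop)
    · exact hpt
  refine hint.trans ?_
  rw [integral_add (cont_intI (by fun_prop)) (cont_intI (by fun_prop)), integral_const_mul,
    integral_const_mul, integral_const_mul, integral_finsetSum]
  swap
  · intro x _
    exact (cont_intI (hellc x)).const_mul _
  simp_rw [integral_const_mul]
  have e1 : ∑ x ∈ K, (α.real {x})⁻¹ * J * ∫ y in Ioo (d - c) (d + c),
      |(ell K d n x).eval y| ^ p ∂α = J * ∑ x ∈ K, (α.real {x})⁻¹ *
      ∫ y in Ioo (d - c) (d + c), |(ell K d n x).eval y| ^ p ∂α := by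
    rw [Finset.mul_sum]
    apply Finset.sum_congr rfl
    intro x _
    ring
  rw [e1]
  have g1 : (1 - t) ^ (1 - p) * ∫ x in Ioo (d - c) (d + c), |P.eval x| ^ p ∂α ≤
      (1 + ε / 2) * J := mul_le_mul ht.le hI hnnI (by positivity)
  have g2 : t ^ (1 - p) * (k * (J * ∑ x ∈ K, (α.real {x})⁻¹ *
      ∫ y in Ioo (d - c) (d + c), |(ell K d n x).eval y| ^ p ∂α)) ≤ ε / 2 * J := by
    calc t ^ (1 - p) * (k * (J * ∑ x ∈ K, (α.real {x})⁻¹ *
        ∫ y in Ioo (d - c) (d + c), |(ell K d n x).eval y| ^ p ∂α)) =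
        (t ^ (1 - p) * (k * ∑ x ∈ K, (α.real {x})⁻¹ *
        ∫ y in Ioo (d - c) (d + c), |(ell K d n x).eval y| ^ p ∂α)) * J := by ring
      _ ≤ ε / 2 * J := mul_le_mul_of_nonneg_right hn.le hJ0
  linarith

end

end H44.Rat
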