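import Pool.Agent.H44.Rat.Ext

/-!
# Total variation closeness of the varying measures
-/

open MeasureTheory Polynomial Complex Filter Topology Real Set
open scoped ComplexConjugate ENNReal

namespace H44.Rat

variable {μ : Measure T} [IsFiniteMeasure μ]

/-- The normalised modulus of an extremal polynomial. -/
structure Good (μ : Measure T) (p : ℝ) (n : ℕ) (r : T → ℝ) : Prop where
  cont : Continuous r
  pos : ∀ θ, 0 < r θ
  one : ∫ θ, r θ ^ p ∂μ = 1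
  id : ∀ A B : ℂ[X], A.natDegree ≤ n → B.natDegree ≤ n →
    ∫ θ, ((r θ ^ (p - 2) : ℝ) : ℂ) * (A.eval (z θ) * conj (B.eval (z θ))) ∂μ =
    ∫ θ, (A.eval (z θ) * conj (B.eval (z θ))) / ((r θ ^ 2 : ℝ) : ℂ) ∂m

/-- The extremal value, to the power `p`. -/
noncomputable def en (μ : Measure T) (p : ℝ) (Q : ℂ[X]) : ℝ := ∫ θ, ‖Q.eval (z θ)‖ ^ p ∂μ

lemma en_pos {p : ℝ} (hp : 2 ≤ p) (hμ : ND μ) {Q : ℂ[X]} (hQ : Q ≠ 0) : 0 < en μ p Q := by
  have hc : Continuous fun θ => ‖Q.eval (z θ)‖ ^ p :=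
    continuous_rp (by linarith) (continuous_eval_z Q)
  have h0 : 0 ≤ en μ p Q := integral_nonneg fun θ => by positivity
  refine lt_of_le_of_ne h0 fun h => hQ (hμ _ ?_)
  have := (integral_eq_zero_iff_of_nonneg (fun θ => by positivity) (cint hc)).1 h.symm
  filter_upwards [this] with θ hθ
  simp only [Pi.zero_apply] at hθ
  exact norm_eq_zero.1 ((Real.rpow_eq_zero_iff_of_nonneg (norm_nonneg _)).1 hθ).1

omit [IsFiniteMeasure μ] in
lemma IsExt.ne_zero {p : ℝ} {n : ℕ} {Q : ℂ[X]} (hQ : IsExt μ p n Q) : Q ≠ 0 := by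
  rintro rfl
  have := hQ.zero
  simp at this

lemma IsExt.good {p : ℝ} (hp : 2 ≤ p) (hμ : ND μ) {n : ℕ} {Q : ℂ[X]} (hQ : IsExt μ p n Q) :
    Good μ p n (fun θ => ‖Q.eval (z θ)‖ / (en μ p Q) ^ (1 / p)) := by
  have he := en_pos hp hμ hQ.ne_zero
  set E := (en μ p Q) ^ (1 / p) with hE
  have hEpos : 0 < E := by positivity
  have hEp : E ^ p = en μ p Q := by
    rw [hE, ← Real.rpow_mul he.le, one_div, inv_mul_cancel₀ (by linarith), Real.rpow_one]
  have hzf' : ∀ θ, Q.eval (z θ) ≠ 0 := fun θ => zero_free hp hμ hQ (z_norm θ).le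
  refine ⟨by fun_prop, fun θ => by have := norm_pos_iff.2 (hzf' θ); positivity, ?_, ?_⟩
  · have : ∀ θ, (‖Q.eval (z θ)‖ / E) ^ p = ‖Q.eval (z θ)‖ ^ p / en μ p Q := by
      intro θ
      rw [Real.div_rpow (norm_nonneg _) hEpos.le, hEp]
    simp_rw [this]
    rw [integral_div]
    exact div_self he.ne'
  · intro A B hA hB
    have h1 := ident hp hμ hQ hA hB
    have h2 : ∀ θ, (((‖Q.eval (z θ)‖ / E) ^ (p - 2) : ℝ) : ℂ) *
        (A.eval (z θ) * conj (B.eval (z θ))) = ((E ^ (p - 2) : ℝ) : ℂ)⁻¹ *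
        (((‖Q.eval (z θ)‖ ^ (p - 2) : ℝ) : ℂ) * (A.eval (z θ) * conj (B.eval (z θ)))) := by
      intro θ
      rw [Real.div_rpow (norm_nonneg _) hEpos.le]
      push_cast
      rw [div_eq_mul_inv]; ring
    have h3 : ∀ θ, (A.eval (z θ) * conj (B.eval (z θ))) / (((‖Q.eval (z θ)‖ / E) ^ 2 : ℝ) : ℂ) =
        ((E ^ 2 : ℝ) : ℂ) * ((A.eval (z θ) * conj (B.eval (z θ))) /
          ((‖Q.eval (z θ)‖ ^ 2 : ℝ) : ℂ)) := by
      intro θ
      have h4 : ((‖Q.eval (z θ)‖ : ℝ) : ℂ) ≠ 0 := by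
        exact_mod_cast (norm_pos_iff.2 (hzf' θ)).ne'
      have h5 : ((E : ℝ) : ℂ) ≠ 0 := by exact_mod_cast hEpos.ne'
      push_cast
      field_simp
    simp_rw [h2, h3]
    rw [integral_const_mul, integral_const_mul, h1, ← mul_assoc]
    congr 1
    have h6 : en μ p Q = E ^ (p - 2) * E ^ 2 := by
      rw [rpow_two hp _ hEpos.le, hEp]
    have h7 : ((E ^ (p - 2) : ℝ) : ℂ) ≠ 0 := by
      exact_mod_cast (Real.rpow_pos_of_pos hEpos _).ne'
    change ((E ^ (p - 2) : ℝ) : ℂ)⁻¹ * ((en μ p Q : ℝ) : ℂ) = _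
    rw [h6]
    rw [Complex.ofReal_mul, ← mul_assoc, inv_mul_cancel₀ h7, one_mul]

lemma int_lin {ν : Measure T} {f g : T → ℝ} (hf : Integrable f ν) (hg : Integrable g ν)
    (a b : ℝ) : ∫ θ, (a * f θ + b * g θ) ∂ν = a * ∫ θ, f θ ∂ν + b * ∫ θ, g θ ∂ν := by
  rw [integral_add (hf.const_mul a) (hg.const_mul b), integral_const_mul, integral_const_mul]

/-- Weighted arithmetic-geometric mean inequality in the form used here. -/
lemma young {p : ℝ} (hp : 2 ≤ p) {t r : ℝ} (ht : 0 ≤ t) (hr : 0 ≤ r) :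
    t ^ (4 / p) * r ^ (p - 2) ≤ 2 / p * t ^ 2 + (1 - 2 / p) * r ^ p := by
  have hp0 : 0 < p := by linarith
  have h := Real.geom_mean_le_arith_mean2_weighted (w₁ := 2 / p) (w₂ := 1 - 2 / p)
    (p₁ := t ^ 2) (p₂ := r ^ p) (by positivity) (by
      rw [sub_nonneg, div_le_one hp0]; exact hp) (by positivity) (by positivity) (by ring)
  have e1 : (t ^ 2) ^ (2 / p) = t ^ (4 / p) := by
    rw [← Real.rpow_natCast t 2, ← Real.rpow_mul ht]
    congr 1
    push_cast; ring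
  have e2 : (r ^ p) ^ (1 - 2 / p) = r ^ (p - 2) := by
    rw [← Real.rpow_mul hr]
    congr 1
    field_simp
  rwa [e1, e2] at h

lemma young1 {p : ℝ} (hp : 2 ≤ p) {r : ℝ} (hr : 0 ≤ r) :
    r ^ (p - 2) ≤ 2 / p + (1 - 2 / p) * r ^ p := by
  have := young hp zero_le_one hr
  simpa using this

omit [IsFiniteMeasure μ] in
lemma good_cont_rp {p : ℝ} {n : ℕ} {r : T → ℝ} (h : Good μ p n r) (q : ℝ) :
    Continuous fun θ => r θ ^ q :=
  h.cont.rpow_const fun θ => Or.inl (h.pos θ).ne'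

/-- The masses of `r^{p-2} dμ` and `r^{-2} dm` agree and are bounded. -/
lemma good_mass {p : ℝ} (hp : 2 ≤ p) {n : ℕ} {r : T → ℝ} (h : Good μ p n r) :
    ∫ θ, (r θ ^ 2)⁻¹ ∂m = ∫ θ, r θ ^ (p - 2) ∂μ ∧
    ∫ θ, r θ ^ (p - 2) ∂μ ≤ μ.real univ + 1 := by
  constructor
  · have := h.id 1 1 (by simp) (by simp)
    simp only [eval_one, map_one, mul_one, one_div] at this
    rw [integral_complex_ofReal] at this
    have h2 : ∀ θ, (((r θ ^ 2 : ℝ) : ℂ))⁻¹ = (((r θ ^ 2)⁻¹ : ℝ) : ℂ) := by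
      intro θ; push_cast; ring
    simp_rw [h2] at this
    rw [integral_complex_ofReal] at this
    exact (Complex.ofReal_injective this).symm
  · have h1 : ∫ θ, r θ ^ (p - 2) ∂μ ≤ ∫ θ, (2 / p + (1 - 2 / p) * r θ ^ p) ∂μ := by
      apply integral_mono (cint (good_cont_rp h _)) (cint (by
        have := good_cont_rp h p
        fun_prop))
      intro θ
      exact young1 hp (h.pos θ).le
    rw [integral_add (integrable_const _) ((cint (good_cont_rp h p)).const_mul _),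
      integral_const_mul, h.one, integral_const, smul_eq_mul, mul_one] at h1
    have hp0 : 0 < p := by linarith
    have h2 : 2 / p ≤ 1 := by rw [div_le_one hp0]; exact hp
    have h3 : 0 ≤ 2 / p := by positivity
    have h4 : 0 ≤ μ.real univ := measureReal_nonneg
    nlinarith

/-- Asymptotic agreement on continuous functions. -/
lemma weak_close {p : ℝ} (hp : 2 ≤ p) {t : T → ℝ} (ht : Continuous t) {ε : ℝ} (hε : 0 < ε) :
    ∃ N : ℕ, ∀ n ≥ N, ∀ r : T → ℝ, Good μ p n r →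
      |∫ θ, t θ * r θ ^ (p - 2) ∂μ - ∫ θ, t θ * (r θ ^ 2)⁻¹ ∂m| ≤ ε := by
  set M : ℝ := μ.real univ + 1 with hM
  have hMpos : 0 < M := by have : 0 ≤ μ.real univ := measureReal_nonneg; linarith
  obtain ⟨A, B, hAB⟩ := approx_T ⟨fun θ => ((t θ : ℝ) : ℂ),
    Complex.continuous_ofReal.comp ht⟩ (ε := ε / (2 * M)) (by positivity)
  refine ⟨max A.natDegree (X * B).natDegree, fun n hn r h => ?_⟩
  have hA : A.natDegree ≤ n := le_trans (le_max_left _ _) hn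
  have hB : (X * B).natDegree ≤ n := le_trans (le_max_right _ _) hn
  have e1 := h.id A 1 hA (by simp)
  have e2 := h.id 1 (X * B) (by simp) hB
  simp only [eval_one, map_one, mul_one, one_mul] at e1 e2
  have hc1 : Continuous fun θ => ((r θ ^ (p - 2) : ℝ) : ℂ) :=
    Complex.continuous_ofReal.comp (good_cont_rp h _)
  have hc2 : Continuous fun θ => (((r θ ^ 2)⁻¹ : ℝ) : ℂ) :=
    Complex.continuous_ofReal.comp ((h.cont.pow 2).inv₀ fun θ => (pow_pos (h.pos θ) 2).ne')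
  have hc2' : Continuous fun θ => (r θ ^ 2)⁻¹ :=
    (h.cont.pow 2).inv₀ fun θ => (pow_pos (h.pos θ) 2).ne'
  set s : T → ℂ := fun θ => A.eval (z θ) + conj ((X * B).eval (z θ)) with hs
  have hsc : Continuous s := by fun_prop
  have hbd : ∀ θ, ‖((t θ : ℝ) : ℂ) - s θ‖ ≤ ε / (2 * M) := hAB
  have e3 : ∫ θ, ((r θ ^ (p - 2) : ℝ) : ℂ) * s θ ∂μ = ∫ θ, s θ * (((r θ ^ 2)⁻¹ : ℝ) : ℂ) ∂m := by
    have g1 : ∀ θ, ((r θ ^ (p - 2) : ℝ) : ℂ) * s θ = ((r θ ^ (p - 2) : ℝ) : ℂ) * A.eval (z θ) +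
        ((r θ ^ (p - 2) : ℝ) : ℂ) * conj ((X * B).eval (z θ)) := fun θ => by
      rw [hs]; ring
    have g2 : ∀ θ, s θ * (((r θ ^ 2)⁻¹ : ℝ) : ℂ) = A.eval (z θ) / ((r θ ^ 2 : ℝ) : ℂ) +
        conj ((X * B).eval (z θ)) / ((r θ ^ 2 : ℝ) : ℂ) := fun θ => by
      rw [hs]; push_cast; ring
    simp_rw [g1, g2]
    have i1 : Integrable (fun θ => ((r θ ^ (p - 2) : ℝ) : ℂ) * A.eval (z θ)) μ :=
      cint (hc1.mul (by fun_prop))
    have i2 : Integrable (fun θ => ((r θ ^ (p - 2) : ℝ) : ℂ) * conj ((X * B).eval (z θ))) μ :=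
      cint (hc1.mul (by fun_prop))
    rw [integral_add i1 i2, e1, e2, ← integral_add]
    · apply cint
      have : ∀ θ, A.eval (z θ) / ((r θ ^ 2 : ℝ) : ℂ) =
        A.eval (z θ) * (((r θ ^ 2)⁻¹ : ℝ) : ℂ) := fun θ => by push_cast; ring
      simp_rw [this]
      exact Continuous.mul (by fun_prop) hc2
    · apply cint
      have : ∀ θ, conj ((X * B).eval (z θ)) / ((r θ ^ 2 : ℝ) : ℂ) =
        conj ((X * B).eval (z θ)) * (((r θ ^ 2)⁻¹ : ℝ) : ℂ) := fun θ => by push_cast; ring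
      simp_rw [this]
      exact Continuous.mul (by fun_prop) hc2
  have e4 : ((∫ θ, t θ * r θ ^ (p - 2) ∂μ - ∫ θ, t θ * (r θ ^ 2)⁻¹ ∂m : ℝ) : ℂ) =
      ∫ θ, ((r θ ^ (p - 2) : ℝ) : ℂ) * (((t θ : ℝ) : ℂ) - s θ) ∂μ -
      ∫ θ, (((t θ : ℝ) : ℂ) - s θ) * (((r θ ^ 2)⁻¹ : ℝ) : ℂ) ∂m := by
    have g1 : ∀ θ, ((r θ ^ (p - 2) : ℝ) : ℂ) * (((t θ : ℝ) : ℂ) - s θ) =
      ((t θ * r θ ^ (p - 2) : ℝ) : ℂ) - ((r θ ^ (p - 2) : ℝ) : ℂ) * s θ := fun θ => by
        push_cast; ring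
    have g2 : ∀ θ, (((t θ : ℝ) : ℂ) - s θ) * (((r θ ^ 2)⁻¹ : ℝ) : ℂ) =
      ((t θ * (r θ ^ 2)⁻¹ : ℝ) : ℂ) - s θ * (((r θ ^ 2)⁻¹ : ℝ) : ℂ) := fun θ => by
        push_cast; ring
    simp_rw [g1, g2]
    rw [integral_sub, integral_sub, e3, integral_complex_ofReal, integral_complex_ofReal]
    · push_cast; ring
    · exact cint (Complex.continuous_ofReal.comp (ht.mul hc2'))
    · exact cint (hsc.mul hc2)
    · exact cint (Complex.continuous_ofReal.comp (ht.mul (good_cont_rp h _)))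
    · exact cint (hc1.mul hsc)
  have e5 : ‖∫ θ, ((r θ ^ (p - 2) : ℝ) : ℂ) * (((t θ : ℝ) : ℂ) - s θ) ∂μ‖ ≤
      ε / (2 * M) * ∫ θ, r θ ^ (p - 2) ∂μ := by
    rw [← integral_const_mul]
    apply norm_integral_le_of_norm_le ((cint (good_cont_rp h _)).const_mul _)
    refine Eventually.of_forall fun θ => ?_
    have hr : 0 ≤ r θ ^ (p - 2) := Real.rpow_nonneg (h.pos θ).le _
    rw [norm_mul, Complex.norm_real, Real.norm_of_nonneg hr, mul_comm]
    exact mul_le_mul_of_nonneg_right (hbd θ) hr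
  have e6 : ‖∫ θ, (((t θ : ℝ) : ℂ) - s θ) * (((r θ ^ 2)⁻¹ : ℝ) : ℂ) ∂m‖ ≤
      ε / (2 * M) * ∫ θ, (r θ ^ 2)⁻¹ ∂m := by
    rw [← integral_const_mul]
    apply norm_integral_le_of_norm_le ((cint hc2').const_mul _)
    refine Eventually.of_forall fun θ => ?_
    have hr : 0 ≤ (r θ ^ 2)⁻¹ := by positivity
    rw [norm_mul, Complex.norm_real, Real.norm_of_nonneg hr]
    exact mul_le_mul_of_nonneg_right (hbd θ) hr
  obtain ⟨m1, m2⟩ := good_mass hp h
  have e7 : |∫ θ, t θ * r θ ^ (p - 2) ∂μ - ∫ θ, t θ * (r θ ^ 2)⁻¹ ∂m| ≤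
      ε / (2 * M) * ∫ θ, r θ ^ (p - 2) ∂μ + ε / (2 * M) * ∫ θ, (r θ ^ 2)⁻¹ ∂m := by
    rw [← Real.norm_eq_abs, ← Complex.norm_real, e4]
    exact (norm_sub_le _ _).trans (add_le_add e5 e6)
  rw [m1] at e7
  refine e7.trans ?_
  have : ε / (2 * M) * ∫ θ, r θ ^ (p - 2) ∂μ ≤ ε / (2 * M) * M :=
    mul_le_mul_of_nonneg_left m2 (by positivity)
  have h8 : ε / (2 * M) * M = ε / 2 := by field_simp
  linarith

/-- The pointwise inequality behind the lower bound. -/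
lemma pt_ineq {p : ℝ} (hp : 2 ≤ p) {r s τ : ℝ} (hr : 0 < r) (hs : 0 ≤ s) (hτ : 0 ≤ τ) :
    (1 + p / 4) * (s * min τ s) - p / 4 * (s ^ 2 * (τ ^ (4 / p) * (r ^ 2)⁻¹)) ≤
      r ^ (p / 2) * s := by
  have hp0 : 0 < p := by linarith
  have hrp : 0 ≤ r ^ (p / 2) := by positivity
  rcases hτ.eq_or_lt with rfl | hτ
  · rw [min_eq_left hs, Real.zero_rpow (by positivity)]
    simp only [mul_zero, zero_mul, sub_zero]
    positivity
  set y : ℝ := τ ^ (4 / p) * (r ^ 2)⁻¹ with hy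
  have hy0 : 0 < y := by positivity
  set k := min τ s with hk
  have hk0 : 0 ≤ k := le_min hτ.le hs
  have hk1 : k ≤ τ := min_le_left _ _
  have hk2 : k ≤ s := min_le_right _ _
  have e1 : r ^ (p / 2) = τ * y ^ (-(p / 4)) := by
    rw [hy, Real.mul_rpow (by positivity) (by positivity), ← Real.rpow_mul hτ.le,
      Real.inv_rpow (by positivity), ← Real.rpow_natCast r 2, ← Real.rpow_mul hr.le]
    have h1 : 4 / p * -(p / 4) = -1 := by field_simp
    have h2 : ((2 : ℕ) : ℝ) * -(p / 4) = -(p / 2) := by push_cast; ring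
    rw [h1, h2, Real.rpow_neg hr.le, inv_inv, Real.rpow_neg_one, ← mul_assoc,
      mul_inv_cancel₀ hτ.ne', one_mul]
  have e2 : 1 + p / 4 - p / 4 * y ≤ y ^ (-(p / 4)) := by
    rw [Real.rpow_def_of_pos hy0]
    have h1 := Real.add_one_le_exp (Real.log y * -(p / 4))
    have h2 := Real.log_le_sub_one_of_pos hy0
    have h3 : p / 4 * Real.log y ≤ p / 4 * (y - 1) := mul_le_mul_of_nonneg_left h2 (by positivity)
    linarith
  have e3 : (1 + p / 4) * k - p / 4 * (s * y) ≤ r ^ (p / 2) := by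
    have h1 : p / 4 * (k * y) ≤ p / 4 * (s * y) :=
      mul_le_mul_of_nonneg_left (mul_le_mul_of_nonneg_right hk2 hy0.le) (by positivity)
    rcases le_total 0 (1 + p / 4 - p / 4 * y) with h | h
    · calc (1 + p / 4) * k - p / 4 * (s * y) ≤ k * (1 + p / 4 - p / 4 * y) := by linarith
        _ ≤ τ * (1 + p / 4 - p / 4 * y) := mul_le_mul_of_nonneg_right hk1 h
        _ ≤ τ * y ^ (-(p / 4)) := mul_le_mul_of_nonneg_left e2 hτ.le
        _ = _ := e1.symm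
    · calc (1 + p / 4) * k - p / 4 * (s * y) ≤ k * (1 + p / 4 - p / 4 * y) := by linarith
        _ ≤ 0 := mul_nonpos_of_nonneg_of_nonpos hk0 h
        _ ≤ _ := hrp
  have := mul_le_mul_of_nonneg_left e3 hs
  linarith

/-- Density of `m` restricted to `G` with respect to `μ`. -/
noncomputable def dens (μ : Measure T) (G : Set T) (θ : T) : ℝ :=
  ((m.restrict G).rnDeriv μ θ).toReal

lemma dens_nonneg (μ : Measure T) (G : Set T) (θ : T) : 0 ≤ dens μ G θ := ENNReal.toReal_nonneg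

lemma measurable_dens (μ : Measure T) (G : Set T) : Measurable (dens μ G) :=
  (Measure.measurable_rnDeriv _ _).ennreal_toReal

lemma integral_dens_mul {E : Type*} [NormedAddCommGroup E] [NormedSpace ℝ E] {G : Set T}
    (hac : m.restrict G ≪ μ) (f : T → E) :
    ∫ θ, dens μ G θ • f θ ∂μ = ∫ θ in G, f θ ∂m := integral_rnDeriv_smul hac

lemma integrable_dens_mul {E : Type*} [NormedAddCommGroup E] [NormedSpace ℝ E] {G : Set T}
    (hac : m.restrict G ≪ μ) {f : T → E} (hf : Continuous f) :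
    Integrable (fun θ => dens μ G θ • f θ) μ :=
  (integrable_rnDeriv_smul_iff hac).2 (cint hf).restrict

lemma integrable_dens {G : Set T} (hac : m.restrict G ≪ μ) : Integrable (dens μ G) μ := by
  simpa using integrable_dens_mul (E := ℝ) hac continuous_const (f := fun _ => (1 : ℝ))

lemma integral_dens {G : Set T} (hac : m.restrict G ≪ μ) :
    ∫ θ, dens μ G θ ∂μ = m.real G := by
  have := integral_dens_mul (E := ℝ) hac (fun _ => (1 : ℝ))
  simpa using this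

lemma real_le_one (G : Set T) : m.real G ≤ 1 := measureReal_le_one

/-- **Total variation closeness.** -/
lemma tv_close {p : ℝ} (hp : 2 ≤ p) {G : Set T} (hac : m.restrict G ≪ μ) {κ : ℝ} (hκ : 0 < κ)
    (hδ : (1 + p / 4) * (1 - m.real G) < κ ^ 2) :
    ∃ N : ℕ, ∀ n ≥ N, ∀ r : T → ℝ, Good μ p n r →
      ∫ θ, |r θ ^ p - dens μ G θ| ∂μ ≤ 3 * κ := by
  have hp0 : 0 < p := by linarith
  set ρ := dens μ G with hρ
  set s : T → ℝ := fun θ => √(ρ θ) with hs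
  have hs0 : ∀ θ, 0 ≤ s θ := fun θ => Real.sqrt_nonneg _
  have hssq : ∀ θ, s θ ^ 2 = ρ θ := fun θ => Real.sq_sqrt (dens_nonneg _ _ _)
  have hsm : Measurable s := (measurable_dens μ G).sqrt
  have hρi : Integrable ρ μ := integrable_dens hac
  have hρG : ∫ θ, ρ θ ∂μ = m.real G := integral_dens hac
  have hG1 : m.real G ≤ 1 := real_le_one G
  have hG0 : 0 ≤ m.real G := measureReal_nonneg
  -- choose ε
  set gap := κ ^ 2 - (1 + p / 4) * (1 - m.real G) with hgap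
  have hgap0 : 0 < gap := by linarith
  obtain ⟨ε, hε0, hε1, hε2⟩ : ∃ ε : ℝ, 0 < ε ∧ ε ≤ 1 ∧
      (1 + p / 4) * ε + p / 4 * (3 * ε + ε) ≤ gap := by
    refine ⟨min 1 (gap / ((1 + p / 4) + p)), lt_min one_pos (by positivity), min_le_left _ _, ?_⟩
    have h1 : min 1 (gap / ((1 + p / 4) + p)) ≤ gap / ((1 + p / 4) + p) := min_le_right _ _
    have h2 : min 1 (gap / ((1 + p / 4) + p)) * ((1 + p / 4) + p) ≤ gap := by
      rw [le_div_iff₀ (by positivity)] at h1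
      exact h1
    linarith
  have hs2 : MemLp s 2 μ := by
    rw [memLp_two_iff_integrable_sq hsm.aestronglyMeasurable]
    simpa only [hssq] using hρi
  -- continuous approximation
  obtain ⟨τ, hτc, hτ0, hτi⟩ : ∃ τ : T → ℝ, Continuous τ ∧ (∀ θ, 0 ≤ τ θ) ∧
      ∫ θ, (s θ - τ θ) ^ 2 ∂μ ≤ ε ^ 2 := by
    have hs2' : MemLp s (ENNReal.ofReal 2) μ := by simpa using hs2
    obtain ⟨g, hg, -⟩ := hs2'.exists_boundedContinuous_integral_rpow_sub_le (by norm_num)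
      (ε := ε ^ 2) (by positivity)
    refine ⟨fun θ => max (g θ) 0, g.continuous.max continuous_const, fun θ => le_max_right _ _,
      le_trans (integral_mono_of_nonneg (Eventually.of_forall fun θ => sq_nonneg _) ?_
        (Eventually.of_forall fun θ => ?_)) hg⟩
    · have h1 : MemLp (fun θ => s θ - g θ) 2 μ := by
        apply hs2.sub
        exact MemLp.of_bound g.continuous.aestronglyMeasurable ‖g‖
          (Eventually.of_forall fun θ => g.norm_coe_le_norm θ)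
      have h2 := (memLp_two_iff_integrable_sq
        (hsm.sub g.continuous.measurable).aestronglyMeasurable).1 h1
      refine h2.congr (Eventually.of_forall fun θ => ?_)
      simp
    · simp only [Real.norm_eq_abs, Real.rpow_two, sq_abs]
      have h3 : |s θ - max (g θ) 0| ≤ |s θ - g θ| := by
        rcases le_total (g θ) 0 with h | h
        · rw [max_eq_right h]
          have := hs0 θ
          rw [abs_of_nonneg (by linarith), abs_of_nonneg (by linarith)]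
          linarith
        · rw [max_eq_left h]
      rw [← sq_abs (s θ - max (g θ) 0), ← sq_abs (s θ - g θ)]
      exact pow_le_pow_left₀ (abs_nonneg _) h3 2
  have hτ2 : MemLp τ 2 μ := by
    rw [memLp_two_iff_integrable_sq hτc.aestronglyMeasurable]
    exact cint (hτc.pow 2)
  have hdiff2 : Integrable (fun θ => (s θ - τ θ) ^ 2) μ :=
    (memLp_two_iff_integrable_sq (hsm.sub hτc.measurable).aestronglyMeasurable).1 (hs2.sub hτ2)
  -- ∫ τ² ≤ 1 + 3ε
  have hτsq : ∫ θ, τ θ ^ 2 ∂μ ≤ 1 + 3 * ε := by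
    have h1 : ∫ θ, τ θ ^ 2 ∂μ ≤ ∫ θ, ((1 + ε) * ρ θ + (1 + ε⁻¹) * (s θ - τ θ) ^ 2) ∂μ := by
      apply integral_mono (cint (hτc.pow 2)) ((hρi.const_mul _).add (hdiff2.const_mul _))
      intro θ
      change τ θ ^ 2 ≤ (1 + ε) * ρ θ + (1 + ε⁻¹) * (s θ - τ θ) ^ 2
      rw [← hssq]
      have h2 : 0 ≤ ε⁻¹ * (ε * s θ + (s θ - τ θ)) ^ 2 := by positivity
      have h3 : ε⁻¹ * (ε * s θ + (s θ - τ θ)) ^ 2 = ε * s θ ^ 2 + 2 * (s θ * (s θ - τ θ)) +
          ε⁻¹ * (s θ - τ θ) ^ 2 := by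
        field_simp; ring
      nlinarith
    rw [integral_add (hρi.const_mul _) (hdiff2.const_mul _), integral_const_mul,
      integral_const_mul, hρG] at h1
    have h4 : (1 + ε⁻¹) * ∫ θ, (s θ - τ θ) ^ 2 ∂μ ≤ (1 + ε⁻¹) * ε ^ 2 :=
      mul_le_mul_of_nonneg_left hτi (by positivity)
    have h5 : (1 + ε⁻¹) * ε ^ 2 = ε ^ 2 + ε := by field_simp
    nlinarith
  set t : T → ℝ := fun θ => τ θ ^ (4 / p) with ht
  have htc : Continuous t := hτc.rpow_const fun θ => Or.inr (by positivity)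
  have ht0 : ∀ θ, 0 ≤ t θ := fun θ => Real.rpow_nonneg (hτ0 θ) _
  obtain ⟨N, hN⟩ := weak_close (μ := μ) hp htc hε0
  refine ⟨N, fun n hn r h => ?_⟩
  have hw := hN n hn r h
  have hrc : ∀ q : ℝ, Continuous fun θ => r θ ^ q := good_cont_rp h
  have hc2' : Continuous fun θ => (r θ ^ 2)⁻¹ :=
    (h.cont.pow 2).inv₀ fun θ => (pow_pos (h.pos θ) 2).ne'
  have hr0 : ∀ θ, 0 ≤ r θ := fun θ => (h.pos θ).le
  -- upper bound for ∫ t r^{-2} dm
  have hup : ∫ θ, t θ * (r θ ^ 2)⁻¹ ∂m ≤ 1 + 3 * ε + ε := by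
    have h1 : ∫ θ, t θ * r θ ^ (p - 2) ∂μ ≤
        ∫ θ, (2 / p * τ θ ^ 2 + (1 - 2 / p) * r θ ^ p) ∂μ := by
      apply integral_mono (cint (htc.mul (hrc _)))
        (((cint (hτc.pow 2)).const_mul _).add ((cint (hrc p)).const_mul _))
      intro θ
      exact young hp (hτ0 θ) (hr0 θ)
    rw [int_lin (f := fun θ => τ θ ^ 2) (cint (hτc.pow 2)) (cint (hrc p)), h.one] at h1
    have h2 : 2 / p ≤ 1 := by rw [div_le_one hp0]; exact hp
    have h3 : 0 ≤ 2 / p := by positivity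
    have h4 := (abs_le.1 hw).1
    have h5 : 2 / p * ∫ θ, τ θ ^ 2 ∂μ ≤ 2 / p * (1 + 3 * ε) :=
      mul_le_mul_of_nonneg_left hτsq h3
    nlinarith
  -- integrability of f s
  have hf2 : MemLp (fun θ => r θ ^ (p / 2)) 2 μ := by
    rw [memLp_two_iff_integrable_sq (hrc _).aestronglyMeasurable]
    exact cint ((hrc _).pow 2)
  have hfsq : ∀ θ, (r θ ^ (p / 2)) ^ 2 = r θ ^ p := by
    intro θ
    rw [← Real.rpow_natCast, ← Real.rpow_mul (hr0 θ)]
    congr 1; push_cast; ring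
  have hfs : Integrable (fun θ => r θ ^ (p / 2) * s θ) μ := by
    have := hf2.integrable_mul (q := 2) hs2
    exact this
  have hsabs : Integrable (fun θ => s θ * |s θ - τ θ|) μ :=
    hs2.integrable_mul (q := 2) (hs2.sub hτ2).abs
  have hminI : Integrable (fun θ => s θ * min (τ θ) (s θ)) μ := by
    refine Integrable.mono' hρi (hsm.mul (hτc.measurable.min hsm)).aestronglyMeasurable
      (Eventually.of_forall fun θ => ?_)
    have h1 : 0 ≤ min (τ θ) (s θ) := le_min (hτ0 θ) (hs0 θ)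
    rw [Real.norm_of_nonneg (mul_nonneg (hs0 θ) h1), ← hssq, sq]
    exact mul_le_mul_of_nonneg_left (min_le_right _ _) (hs0 θ)
  have hsI : Integrable (fun θ => ρ θ * (t θ * (r θ ^ 2)⁻¹)) μ := by
    have := integrable_dens_mul (E := ℝ) hac (f := fun θ => t θ * (r θ ^ 2)⁻¹) (htc.mul hc2')
    simpa only [smul_eq_mul] using this
  -- lower bound for ∫ s min(τ, s)
  have hlow1 : m.real G - ε ≤ ∫ θ, s θ * min (τ θ) (s θ) ∂μ := by
    have h1 : ∫ θ, ((1 - ε / 2) * ρ θ + (-(2 * ε)⁻¹) * (s θ - τ θ) ^ 2) ∂μ ≤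
        ∫ θ, s θ * min (τ θ) (s θ) ∂μ := by
      apply integral_mono ((hρi.const_mul _).add (hdiff2.const_mul _)) hminI
      intro θ
      change (1 - ε / 2) * ρ θ + (-(2 * ε)⁻¹) * (s θ - τ θ) ^ 2 ≤ s θ * min (τ θ) (s θ)
      rw [← hssq]
      have h2 : 0 ≤ (2 * ε)⁻¹ * (ε * s θ - (s θ - τ θ)) ^ 2 := by positivity
      have h3 : (2 * ε)⁻¹ * (ε * s θ - (s θ - τ θ)) ^ 2 = ε / 2 * s θ ^ 2 - s θ * (s θ - τ θ) +
          (2 * ε)⁻¹ * (s θ - τ θ) ^ 2 := by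
        field_simp; ring
      rcases le_total (τ θ) (s θ) with h4 | h4
      · rw [min_eq_left h4]
        nlinarith
      · rw [min_eq_right h4]
        have h5 : 0 ≤ ε / 2 * s θ ^ 2 := by positivity
        have h6 : 0 ≤ (2 * ε)⁻¹ * (s θ - τ θ) ^ 2 := by positivity
        nlinarith
    rw [int_lin hρi hdiff2, hρG] at h1
    have h4 : (2 * ε)⁻¹ * ∫ θ, (s θ - τ θ) ^ 2 ∂μ ≤ (2 * ε)⁻¹ * ε ^ 2 :=
      mul_le_mul_of_nonneg_left hτi (by positivity)
    have h5 : (2 * ε)⁻¹ * ε ^ 2 = ε / 2 := by field_simp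
    nlinarith
  -- lower bound for ∫ f s
  have hlow : 1 - κ ^ 2 ≤ ∫ θ, r θ ^ (p / 2) * s θ ∂μ := by
    have h1 : ∫ θ, ((1 + p / 4) * (s θ * min (τ θ) (s θ)) -
        p / 4 * (ρ θ * (t θ * (r θ ^ 2)⁻¹))) ∂μ ≤ ∫ θ, r θ ^ (p / 2) * s θ ∂μ := by
      apply integral_mono ((hminI.const_mul _).sub (hsI.const_mul _)) hfs
      intro θ
      have := pt_ineq hp (h.pos θ) (hs0 θ) (hτ0 θ)
      rw [hssq] at this
      exact this
    rw [integral_sub (hminI.const_mul _) (hsI.const_mul _), integral_const_mul,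
      integral_const_mul] at h1
    have h2 : ∫ θ, ρ θ * (t θ * (r θ ^ 2)⁻¹) ∂μ ≤ 1 + 3 * ε + ε := by
      have := integral_dens_mul (E := ℝ) hac (fun θ => t θ * (r θ ^ 2)⁻¹)
      simp only [smul_eq_mul] at this
      rw [hρ, this]
      refine le_trans ?_ hup
      apply setIntegral_le_integral (cint (htc.mul hc2'))
      exact Eventually.of_forall fun θ => mul_nonneg (ht0 θ) (by positivity)
    have h3 : (1 + p / 4) * (m.real G - ε) ≤ (1 + p / 4) * ∫ θ, s θ * min (τ θ) (s θ) ∂μ :=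
      mul_le_mul_of_nonneg_left hlow1 (by positivity)
    have h4 : p / 4 * ∫ θ, ρ θ * (t θ * (r θ ^ 2)⁻¹) ∂μ ≤ p / 4 * (1 + 3 * ε + ε) :=
      mul_le_mul_of_nonneg_left h2 (by positivity)
    nlinarith
  -- conclusion
  have hI1 : Integrable (fun θ => (r θ ^ (p / 2) - s θ) ^ 2) μ :=
    (memLp_two_iff_integrable_sq ((hrc _).measurable.sub hsm).aestronglyMeasurable).1
      (hf2.sub hs2)
  have hfin : ∫ θ, |r θ ^ p - ρ θ| ∂μ ≤
      ∫ θ, (κ⁻¹ / 2 * (r θ ^ p + ρ θ - 2 * (r θ ^ (p / 2) * s θ)) +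
        κ / 2 * (r θ ^ p + ρ θ + (r θ ^ p + ρ θ))) ∂μ := by
    apply integral_mono ((cint (hrc p)).sub hρi).abs
    · exact ((((cint (hrc p)).add hρi).sub (hfs.const_mul 2)).const_mul _).add
        ((((cint (hrc p)).add hρi).add ((cint (hrc p)).add hρi)).const_mul _)
    · intro θ
      change |r θ ^ p - ρ θ| ≤ κ⁻¹ / 2 * (r θ ^ p + ρ θ - 2 * (r θ ^ (p / 2) * s θ)) +
        κ / 2 * (r θ ^ p + ρ θ + (r θ ^ p + ρ θ))
      rw [← hssq, ← hfsq]
      set f := r θ ^ (p / 2) with hf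
      have hf0 : 0 ≤ f := Real.rpow_nonneg (hr0 θ) _
      have h1 : f ^ 2 - s θ ^ 2 = (f - s θ) * (f + s θ) := by ring
      rw [h1, abs_mul, abs_of_nonneg (add_nonneg hf0 (hs0 θ))]
      have h2 : 0 ≤ κ⁻¹ / 2 * (|f - s θ| - κ * (f + s θ)) ^ 2 := by positivity
      have h3 : κ⁻¹ / 2 * (|f - s θ| - κ * (f + s θ)) ^ 2 =
          κ⁻¹ / 2 * |f - s θ| ^ 2 - |f - s θ| * (f + s θ) + κ / 2 * (f + s θ) ^ 2 := by
        field_simp; ring
      rw [sq_abs] at h3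
      have h4 : (f + s θ) ^ 2 ≤ 2 * (f ^ 2 + s θ ^ 2) := by nlinarith [sq_nonneg (f - s θ)]
      have h5 : κ / 2 * (f + s θ) ^ 2 ≤ κ / 2 * (2 * (f ^ 2 + s θ ^ 2)) :=
        mul_le_mul_of_nonneg_left h4 (by positivity)
      nlinarith
  have hfin2 : ∫ θ, (κ⁻¹ / 2 * (r θ ^ p + ρ θ - 2 * (r θ ^ (p / 2) * s θ)) +
        κ / 2 * (r θ ^ p + ρ θ + (r θ ^ p + ρ θ))) ∂μ =
      κ⁻¹ / 2 * (1 + m.real G - 2 * ∫ θ, r θ ^ (p / 2) * s θ ∂μ) +
        κ / 2 * (2 * (1 + m.real G)) := by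
    have i1 : Integrable (fun θ => r θ ^ p + ρ θ) μ := (cint (hrc p)).add hρi
    have e1 : ∀ θ, κ⁻¹ / 2 * (r θ ^ p + ρ θ - 2 * (r θ ^ (p / 2) * s θ)) +
        κ / 2 * (r θ ^ p + ρ θ + (r θ ^ p + ρ θ)) =
        (κ⁻¹ / 2 + κ) * (r θ ^ p + ρ θ) + (-κ⁻¹) * (r θ ^ (p / 2) * s θ) := fun θ => by ring
    simp_rw [e1]
    rw [int_lin i1 hfs, integral_add (cint (hrc p)) hρi, h.one, hρG]
    ring
  rw [hfin2] at hfin
  refine hfin.trans ?_
  have h1 : κ⁻¹ / 2 * (1 + m.real G - 2 * ∫ θ, r θ ^ (p / 2) * s θ ∂μ) ≤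
      κ⁻¹ / 2 * (2 * κ ^ 2) := by
    apply mul_le_mul_of_nonneg_left _ (by positivity)
    linarith
  have h2 : κ⁻¹ / 2 * (2 * κ ^ 2) = κ := by field_simp
  have h3 : κ / 2 * (2 * (1 + m.real G)) ≤ κ / 2 * 4 := by
    apply mul_le_mul_of_nonneg_left _ (by positivity)
    linarith
  linarith

end H44.Rat
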