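import Pool.Agent.H44.Rat.Asym

/-!
# Transfer between the real line and the circle
-/

open MeasureTheory Polynomial Complex Filter Topology Real Set
open scoped ComplexConjugate ENNReal Pointwise

namespace H44.Rat

/-- Extremal value on the real line, to the power `p`. -/
noncomputable def Wn (α : Measure ℝ) (p : ℝ) (n : ℕ) : ℝ :=
  sInf {y | ∃ P : ℝ[X], P.Monic ∧ P.natDegree = n ∧ y = ∫ x, |P.eval x| ^ p ∂α}

/-- The two lifts of the line to the circle, `s = 1` or `s = -1`. -/
noncomputable def psi (d c s : ℝ) (x : ℝ) : T := ((s * Real.arccos ((x - d) / c) : ℝ) : T)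

lemma continuous_psi (d c s : ℝ) : Continuous (psi d c s) := by
  unfold psi
  have h1 : Continuous fun x : ℝ => s * Real.arccos ((x - d) / c) :=
    continuous_const.mul (Real.continuous_arccos.comp (by fun_prop))
  exact (AddCircle.continuous_mk' (2 * π)).comp h1

lemma z_re_coe (t : ℝ) : (z (t : T)).re = Real.cos t := by
  rw [z_coe, circleMap]
  simp [Complex.exp_ofReal_mul_I_re]

lemma z_psi {d c s x : ℝ} (hs : s = 1 ∨ s = -1) (hc : 0 < c) (hx : x ∈ Ioo (d - c) (d + c)) :
    (z (psi d c s x)).re = (x - d) / c := by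
  have h1 : -1 ≤ (x - d) / c := by
    rw [le_div_iff₀ hc]; linarith [hx.1]
  have h2 : (x - d) / c ≤ 1 := by
    rw [div_le_iff₀ hc]; linarith [hx.2]
  rw [psi, z_re_coe]
  rcases hs with rfl | rfl
  · rw [one_mul, Real.cos_arccos h1 h2]
  · rw [neg_one_mul, Real.cos_neg, Real.cos_arccos h1 h2]

/-- The symmetric lift of a measure to the circle. -/
noncomputable def lift (d c : ℝ) (α : Measure ℝ) : Measure T :=
  α.map (psi d c 1) + α.map (psi d c (-1))

instance (d c : ℝ) (α : Measure ℝ) [IsFiniteMeasure α] : IsFiniteMeasure (lift d c α) := by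
  unfold lift
  infer_instance

lemma lift_symm (d c : ℝ) (α : Measure ℝ) :
    Measure.map (fun θ => -θ) (lift d c α) = lift d c α := by
  have h1 : ∀ s : ℝ, (fun θ : T => -θ) ∘ psi d c s = psi d c (-s) := by
    intro s
    funext x
    simp [psi]
  unfold lift
  rw [Measure.map_add _ _ measurable_neg, Measure.map_map measurable_neg
    (continuous_psi d c 1).measurable, Measure.map_map measurable_neg
    (continuous_psi d c (-1)).measurable, h1, h1, neg_neg, add_comm]

lemma integral_lift {d c : ℝ} (hc : 0 < c) {α : Measure ℝ} [IsFiniteMeasure α]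
    (hα : ∀ᵐ x ∂α, x ∈ Ioo (d - c) (d + c)) {f : ℝ → ℝ} (hf : Continuous f) :
    ∫ θ, f (z θ).re ∂(lift d c α) = 2 * ∫ x, f ((x - d) / c) ∂α := by
  have hfc : Continuous fun θ : T => f (z θ).re :=
    hf.comp (Complex.continuous_re.comp continuous_z)
  have h1 : ∀ s : ℝ, (s = 1 ∨ s = -1) →
      ∫ θ, f (z θ).re ∂(α.map (psi d c s)) = ∫ x, f ((x - d) / c) ∂α := by
    intro s hs
    rw [integral_map (continuous_psi d c s).aemeasurable hfc.aestronglyMeasurable]
    apply integral_congr_ae
    filter_upwards [hα] with x hx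
    rw [z_psi hs hc hx]
  unfold lift
  rw [integral_add_measure (cint hfc) (cint hfc), h1 1 (Or.inl rfl), h1 (-1) (Or.inr rfl)]
  ring

lemma Wn_eq {d c : ℝ} (hc : 0 < c) {α : Measure ℝ} [IsFiniteMeasure α]
    (hα : ∀ᵐ x ∂α, x ∈ Ioo (d - c) (d + c)) {p : ℝ} (hp : 0 < p) (n : ℕ) :
    Wn α p n = ((c ^ n) ^ p / 2) * Yn (lift d c α) p n := by
  have hcn : (0 : ℝ) < c ^ n := by positivity
  have hcp : (0 : ℝ) < (c ^ n) ^ p := by positivity
  have key : ∀ R : ℝ[X], ∫ θ, |R.eval (z θ).re| ^ p ∂(lift d c α) =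
      2 * ∫ x, |R.eval ((x - d) / c)| ^ p ∂α := by
    intro R
    exact integral_lift hc hα (f := fun y => |R.eval y| ^ p)
      (R.continuous.abs.rpow_const fun _ => Or.inr hp.le)
  have key2 : ∀ P R : ℝ[X], (∀ x, P.eval x = c ^ n * R.eval ((x - d) / c)) →
      ∫ x, |P.eval x| ^ p ∂α =
        ((c ^ n) ^ p / 2) * ∫ θ, |R.eval (z θ).re| ^ p ∂(lift d c α) := by
    intro P R h
    rw [key]
    have h1 : ∀ x, |P.eval x| ^ p = (c ^ n) ^ p * |R.eval ((x - d) / c)| ^ p := by
      intro x
      rw [h, abs_mul, abs_of_pos hcn, Real.mul_rpow hcn.le (abs_nonneg _)]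
    simp_rw [h1]
    rw [integral_const_mul]
    ring
  unfold Wn Yn
  rw [← smul_eq_mul, ← Real.sInf_smul_of_nonneg (by positivity)]
  congr 1
  ext y
  rw [Set.mem_smul_set]
  constructor
  · rintro ⟨P, hP, hPd, rfl⟩
    have hl : (Polynomial.C c * X + Polynomial.C d : ℝ[X]).natDegree = 1 :=
      natDegree_linear hc.ne'
    have hlc : (Polynomial.C c * X + Polynomial.C d : ℝ[X]).leadingCoeff = c :=
      leadingCoeff_linear hc.ne'
    set R := Polynomial.C (c ^ n)⁻¹ * P.comp (Polynomial.C c * X + Polynomial.C d) with hR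
    refine ⟨_, ⟨R, ?_, ?_, rfl⟩, ?_⟩
    · rw [hR, Monic, leadingCoeff_mul, leadingCoeff_C, leadingCoeff_comp (by rw [hl]; norm_num),
        hlc, hP.leadingCoeff, hPd, one_mul, inv_mul_cancel₀ hcn.ne']
    · rw [hR, natDegree_C_mul (by positivity), natDegree_comp, hl, hPd, mul_one]
    · rw [smul_eq_mul]
      refine (key2 P R fun x => ?_).symm
      rw [hR]
      simp only [eval_mul, eval_C, eval_comp, eval_add, eval_X]
      rw [mul_div_cancel₀ _ hc.ne', sub_add_cancel]
      field_simp
  · rintro ⟨_, ⟨R, hR, hRd, rfl⟩, rfl⟩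
    have hl : (Polynomial.C c⁻¹ * X + Polynomial.C (-(c⁻¹ * d)) : ℝ[X]).natDegree = 1 :=
      natDegree_linear (inv_ne_zero hc.ne')
    have hlc : (Polynomial.C c⁻¹ * X + Polynomial.C (-(c⁻¹ * d)) : ℝ[X]).leadingCoeff = c⁻¹ :=
      leadingCoeff_linear (inv_ne_zero hc.ne')
    set P := Polynomial.C (c ^ n) *
      R.comp (Polynomial.C c⁻¹ * X + Polynomial.C (-(c⁻¹ * d))) with hP
    refine ⟨P, ?_, ?_, ?_⟩
    · rw [hP, Monic, leadingCoeff_mul, leadingCoeff_C, leadingCoeff_comp (by rw [hl]; norm_num),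
        hlc, hR.leadingCoeff, hRd, one_mul, inv_pow, mul_inv_cancel₀ hcn.ne']
    · rw [hP, natDegree_C_mul (by positivity), natDegree_comp, hl, hRd, mul_one]
    · rw [smul_eq_mul]
      refine (key2 P R fun x => ?_).symm
      rw [hP]
      simp only [eval_mul, eval_C, eval_comp, eval_add, eval_X]
      congr 2
      field_simp
      ring

/-- Absolute continuity is inherited by the lift. -/
lemma ac_lift {a b d c : ℝ} (hc : 0 < c) {α : Measure ℝ}
    (hac : volume.restrict (Ioo a b) ≪ α) (hsub : Ioo a b ⊆ Ioo (d - c) (d + c)) :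
    m.restrict {θ : T | d + c * (z θ).re ∈ Ioo a b} ≪ lift d c α := by
  have hGm : MeasurableSet {θ : T | d + c * (z θ).re ∈ Ioo a b} := by
    apply (isOpen_Ioo.preimage _).measurableSet
    have := Complex.continuous_re.comp continuous_z
    exact continuous_const.add (continuous_const.mul this)
  refine Measure.AbsolutelyContinuous.mk fun A hA h0 => ?_
  unfold lift at h0
  rw [Measure.add_apply, add_eq_zero, Measure.map_apply (continuous_psi _ _ _).measurable hA,
    Measure.map_apply (continuous_psi _ _ _).measurable hA] at h0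
  have hnull : ∀ s : ℝ, α (psi d c s ⁻¹' A) = 0 →
      volume ((fun x => s * Real.arccos ((x - d) / c)) '' (psi d c s ⁻¹' A ∩ Ioo a b)) = 0 := by
    intro s hs
    apply addHaar_image_eq_zero_of_differentiableOn_of_addHaar_eq_zero
    · intro x hx
      have hx' := hsub hx.2
      have h1 : (x - d) / c ≠ -1 := by
        intro h
        rw [div_eq_iff hc.ne'] at h
        linarith [hx'.1]
      have h2 : (x - d) / c ≠ 1 := by
        intro h
        rw [div_eq_iff hc.ne'] at h
        linarith [hx'.2]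
      have h3 : DifferentiableAt ℝ Real.arccos ((x - d) / c) :=
        Real.differentiableAt_arccos.2 ⟨h1, h2⟩
      have h4 : DifferentiableAt ℝ (fun x : ℝ => (x - d) / c) x := by fun_prop
      have h5 : DifferentiableAt ℝ (Real.arccos ∘ fun x : ℝ => (x - d) / c) x :=
        DifferentiableAt.comp x h3 h4
      exact (h5.const_mul s).differentiableWithinAt
    · have := hac hs
      rwa [Measure.restrict_apply ((continuous_psi _ _ _).measurable hA)] at this
  rw [Measure.restrict_apply hA, m_null_iff,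
    AddCircle.add_projection_respects_measure (2 * π) (-π) (hA.inter hGm)]
  refine measure_mono_null ?_ (measure_union_null (hnull 1 h0.1) (hnull (-1) h0.2))
  rintro t ⟨ht, ht1, ht2⟩
  have ht2' : t ≤ π := by linarith
  obtain ⟨htA, htG⟩ := ht
  change ((t : ℝ) : T) ∈ A at htA
  change d + c * (z ((t : ℝ) : T)).re ∈ Ioo a b at htG
  rw [z_re_coe] at htG
  have e1 : (d + c * Real.cos t - d) / c = Real.cos t := by field_simp; ring
  rcases le_total 0 t with h | h
  · left
    refine ⟨d + c * Real.cos t, ⟨?_, htG⟩, ?_⟩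
    · change psi d c 1 _ ∈ A
      rw [psi, e1, Real.arccos_cos h ht2', one_mul]
      exact htA
    · simp only
      rw [e1, Real.arccos_cos h ht2', one_mul]
  · right
    have e2 : Real.arccos (Real.cos t) = -t := by
      rw [← Real.cos_neg]
      exact Real.arccos_cos (by linarith) (by linarith)
    refine ⟨d + c * Real.cos t, ⟨?_, htG⟩, ?_⟩
    · change psi d c (-1) _ ∈ A
      rw [psi, e1, e2, neg_one_mul, neg_neg]
      exact htA
    · simp only
      rw [e1, e2, neg_one_mul, neg_neg]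

lemma measurable_zre : Measurable fun θ : T => (z θ).re :=
  (Complex.continuous_re.comp continuous_z).measurable

/-- The set `|cos θ| < q` has almost full measure. -/
lemma exists_q {p : ℝ} (_hp : 2 ≤ p) {κ : ℝ} (hκ : 0 < κ) :
    ∃ q : ℝ, 0 < q ∧ q < 1 ∧
      (1 + p / 4) * (1 - m.real {θ : T | |(z θ).re| < q}) < κ ^ 2 := by
  set s : ℕ → Set T := fun j => {θ : T | |(z θ).re| < 1 - 1 / ((j : ℝ) + 2)} with hs
  have hmono : Monotone s := by
    intro i j hij θ hθ
    simp only [hs, Set.mem_ofPred_eq] at hθ ⊢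
    refine lt_of_lt_of_le hθ ?_
    have : 1 / ((j : ℝ) + 2) ≤ 1 / ((i : ℝ) + 2) := by
      apply one_div_le_one_div_of_le (by positivity)
      have : (i : ℝ) ≤ j := by exact_mod_cast hij
      linarith
    linarith
  have hU : m (⋃ j, s j)ᶜ = 0 := by
    have hsub : (⋃ j, s j)ᶜ ⊆ {θ : T | z θ = 1 ∨ z θ = -1} := by
      intro θ hθ
      simp only [Set.mem_compl_iff, Set.mem_iUnion, not_exists, hs, Set.mem_ofPred_eq,
        not_lt] at hθ
      have h1 : 1 ≤ |(z θ).re| := by
        apply le_of_forall_pos_le_add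
        intro ε hε
        obtain ⟨j, hj⟩ := exists_nat_gt (1 / ε)
        have h2 := hθ j
        have h3 : 1 / ((j : ℝ) + 2) ≤ ε := by
          rw [div_le_iff₀ (by positivity)]
          rw [div_lt_iff₀ hε] at hj
          nlinarith
        linarith
      have h4 : (z θ).re ^ 2 + (z θ).im ^ 2 = 1 := by
        have := z_norm θ
        have h5 : ‖z θ‖ ^ 2 = 1 := by rw [this]; norm_num
        rw [← Complex.normSq_eq_norm_sq, Complex.normSq_apply] at h5
        nlinarith
      have h6 : (z θ).im = 0 := by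
        have : 1 ≤ (z θ).re ^ 2 := by
          rw [← sq_abs]; nlinarith [abs_nonneg (z θ).re]
        nlinarith [sq_nonneg (z θ).im]
      have h7 : (z θ).re ^ 2 = 1 := by rw [h6] at h4; linarith
      have h8 : ((z θ).re - 1) * ((z θ).re + 1) = 0 := by nlinarith
      rcases mul_eq_zero.1 h8 with h | h
      · left
        have h9 : (z θ).re = 1 := by linarith
        apply Complex.ext <;> simp [h9, h6]
      · right
        have h9 : (z θ).re = -1 := by linarith
        apply Complex.ext <;> simp [h9, h6]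
    refine measure_mono_null hsub ?_
    have hfin : {θ : T | z θ = 1 ∨ z θ = -1}.Finite := by
      refine Set.Finite.of_finite_image (f := z) ?_ z_inj.injOn
      refine (Set.toFinite {(1 : ℂ), -1}).subset ?_
      rintro _ ⟨θ, hθ, rfl⟩
      simpa using hθ
    exact hfin.countable.measure_zero m
  have hlim : Tendsto (fun j => m (s j)) atTop (𝓝 (m (⋃ j, s j))) :=
    tendsto_measure_iUnion_atTop hmono
  have hsm : ∀ j, MeasurableSet (s j) := fun j =>
    measurableSet_lt measurable_zre.abs measurable_const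
  have h1 : m (⋃ j, s j) = 1 := by
    rw [prob_compl_eq_zero_iff (MeasurableSet.iUnion hsm)] at hU
    exact hU
  rw [h1] at hlim
  have hlim2 : Tendsto (fun j => m.real (s j)) atTop (𝓝 1) := by
    have := (ENNReal.tendsto_toReal ENNReal.one_ne_top).comp hlim
    rw [ENNReal.toReal_one] at this
    exact this
  have hlim3 : Tendsto (fun j => (1 + p / 4) * (1 - m.real (s j))) atTop
      (𝓝 ((1 + p / 4) * (1 - 1))) := (hlim2.const_sub 1).const_mul _
  rw [sub_self, mul_zero] at hlim3
  obtain ⟨j, hj⟩ := (hlim3.eventually (eventually_lt_nhds (show (0 : ℝ) < κ ^ 2 by positivity))).exists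
  refine ⟨1 - 1 / ((j : ℝ) + 2), ?_, ?_, hj⟩
  · have : 1 / ((j : ℝ) + 2) < 1 := by
      rw [div_lt_one (by positivity)]
      have : (0 : ℝ) ≤ j := Nat.cast_nonneg j
      linarith
    linarith
  · have : 0 < 1 / ((j : ℝ) + 2) := by positivity
    linarith

/-- Ratio asymptotics for measures carried by a slightly larger interval. -/
theorem line_ratio {p : ℝ} (hp : 2 ≤ p) {ε : ℝ} (hε : 0 < ε) :
    ∃ q : ℝ, 0 < q ∧ q < 1 ∧ ∀ (d c c₀ : ℝ), 0 < c₀ → c₀ ≤ c → q * c ≤ c₀ →
      ∀ (α : Measure ℝ) [IsFiniteMeasure α], (∀ᵐ x ∂α, x ∈ Ioo (d - c) (d + c)) →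
      volume.restrict (Ioo (d - c₀) (d + c₀)) ≪ α →
      ∀ᶠ n : ℕ in atTop, 0 < Wn α p n ∧
        |2 / c * (Wn α p (n + 1)) ^ (1 / p) / (Wn α p n) ^ (1 / p) - 1| ≤ ε := by
  have hp0 : 0 < p := by linarith
  obtain ⟨κ, hκ, H⟩ := sym_ratio hp hε
  obtain ⟨q, hq0, hq1, hq⟩ := exists_q hp hκ
  refine ⟨q, hq0, hq1, ?_⟩
  intro d c c₀ hc₀ hcc hqc α _ hα hac
  have hc : 0 < c := hc₀.trans_le hcc
  have hsub : Ioo (d - c₀) (d + c₀) ⊆ Ioo (d - c) (d + c) :=
    Ioo_subset_Ioo (by linarith) (by linarith)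
  set G := {θ : T | d + c * (z θ).re ∈ Ioo (d - c₀) (d + c₀)} with hG
  have hGm : MeasurableSet G :=
    measurableSet_Ioo.preimage (measurable_const.add (measurable_const.mul measurable_zre))
  have hle : m.real {θ : T | |(z θ).re| < q} ≤ m.real G := by
    apply measureReal_mono
    · intro θ hθ
      simp only [Set.mem_ofPred_eq] at hθ
      rw [abs_lt] at hθ
      change d + c * (z θ).re ∈ Ioo (d - c₀) (d + c₀)
      constructor <;> nlinarith [hθ.1, hθ.2]
    · exact measure_ne_top _ _
  have hδ : (1 + p / 4) * (1 - m.real G) < κ ^ 2 := by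
    refine lt_of_le_of_lt ?_ hq
    apply mul_le_mul_of_nonneg_left _ (by positivity)
    linarith
  have h1 := H (lift d c α) (lift_symm d c α) G hGm (ac_lift hc hac hsub) hδ
  filter_upwards [h1] with n hn
  obtain ⟨hY, hr⟩ := hn
  have e1 := Wn_eq hc hα hp0 n
  have e2 := Wn_eq hc hα hp0 (n + 1)
  have hcn : (0 : ℝ) < (c ^ n) ^ p / 2 := by positivity
  refine ⟨by rw [e1]; positivity, ?_⟩
  have hY' : 0 ≤ Yn (lift d c α) p (n + 1) := by
    apply Real.sInf_nonneg
    rintro _ ⟨R, -, -, rfl⟩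
    exact integral_nonneg fun θ => by positivity
  have e3 : ∀ k : ℕ, ((c ^ k) ^ p / 2) ^ (1 / p) = c ^ k * (1 / 2) ^ (1 / p) := by
    intro k
    rw [div_eq_mul_one_div, Real.mul_rpow (by positivity) (by positivity),
      ← Real.rpow_mul (by positivity), mul_one_div_cancel hp0.ne', Real.rpow_one]
  have e4 : 2 / c * (Wn α p (n + 1)) ^ (1 / p) / (Wn α p n) ^ (1 / p) =
      2 * (Yn (lift d c α) p (n + 1)) ^ (1 / p) / (Yn (lift d c α) p n) ^ (1 / p) := by
    rw [e1, e2, Real.mul_rpow (by positivity) hY', Real.mul_rpow (by positivity) hY.le,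
      e3, e3, pow_succ]
    have h2 : (0 : ℝ) < (1 / 2) ^ (1 / p) := by positivity
    have h3 : 0 < (Yn (lift d c α) p n) ^ (1 / p) := Real.rpow_pos_of_pos hY _
    field_simp
  rw [e4]
  exact hr

end H44.Rat
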